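import Mathlib

/-!
# MP_4255df, strictly increasing gaps: the integer checker (kernel friendly)

A *point certificate* `(P, Q)` at a point `x_c` is a pair of lists of Gaussian integers (scaled by
`10^5`).  With `W = P * Q` the inequality
`2 Re ∑ W_n G(n) ≤ K² ‖P‖² + ‖Q‖²` holds for every window `G`; it gives a lower bound of the
linear functional `Pot_c(G)`.  Four point certificates are mixed bilinearly on a box.
-/

namespace MaxTerm.Inc

/-- Gaussian integers. -/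
structure GI where
  r : ℤ
  i : ℤ

namespace GI

def add (a b : GI) : GI := ⟨a.r + b.r, a.i + b.i⟩
def mul (a b : GI) : GI := ⟨a.r * b.r - a.i * b.i, a.r * b.i + a.i * b.r⟩
def nsq (a : GI) : ℤ := a.r * a.r + a.i * a.i
def conj (a : GI) : GI := ⟨a.r, -a.i⟩
def neg (a : GI) : GI := ⟨-a.r, -a.i⟩
def sm (c : ℤ) (a : GI) : GI := ⟨c * a.r, c * a.i⟩
def isZero (a : GI) : Bool := decide (a.r = 0) && decide (a.i = 0)

end GI

/-- addition of lists. -/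
def ladd : List GI → List GI → List GI
  | [], l => l
  | a :: l, m => match m with
    | [] => a :: l
    | b :: m => a.add b :: ladd l m

def lsm (c : GI) (l : List GI) : List GI := l.map (GI.mul c)

/-- product of the polynomials `P` and `Q`. -/
def lconv (P : List GI) : List GI → List GI
  | [] => []
  | b :: Q => ladd (lsm b P) (⟨0, 0⟩ :: lconv P Q)

/-- weighted square norm of a list; `wf` is evaluated at the position. -/
def nq (wf : ℤ → ℕ) : ℤ → List GI → ℤ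
  | _, [] => 0
  | n, b :: Q => (wf n : ℤ) * b.nsq + nq wf (n + 1) Q

/-- coefficients at the positions of weight `0` vanish. -/
def okq (wf : ℤ → ℕ) : ℤ → List GI → Bool
  | _, [] => true
  | n, b :: Q => (decide (wf n ≠ 0) || b.isZero) && okq wf (n + 1) Q

/-- `∑ conj Q_j R_j`. -/
def cr : List GI → List GI → GI
  | [], _ => ⟨0, 0⟩
  | a :: l, m => match m with
    | [] => ⟨0, 0⟩
    | b :: m => (a.conj.mul b).add (cr l m)

def isqAux : ℕ → ℕ → ℕ → ℕ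
  | 0, _, r => r
  | f + 1, n, r => isqAux f n ((r + n / r) / 2)

/-- an upper bound of the square root of `n` (essentially `⌊√n⌋ + 1`). -/
def isq (n : ℕ) : ℕ :=
  let r := isqAux 8 n (2 ^ (Nat.log2 n / 2 + 1)) + 1
  if n ≤ r * r then r else n

/-- upper bound of `|a|`. -/
def gabs (a : GI) : ℕ := isq a.nsq.toNat

/-- upper bound of `10^8 (T / 10^4)^e`. -/
def bp (T e : ℕ) : ℕ := T ^ e * 10 ^ 8 / 10 ^ (4 * e) + 1

/-- the nature of a position: coefficient `1`, the special coefficients `x, v, u, y, z`, or an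
unknown coefficient of modulus at most `t ^ e`. -/
inductive Slot
  | one | px | pv | pu | py | pz
  | unk (e : ℕ)

structure Acc where
  k : ℤ
  x : GI
  v : GI
  u : GI
  y : GI
  z : GI

def Acc.zero : Acc := ⟨0, ⟨0, 0⟩, ⟨0, 0⟩, ⟨0, 0⟩, ⟨0, 0⟩, ⟨0, 0⟩⟩

def Acc.push (a : Acc) (T : ℕ) (w : GI) : Slot → Acc
  | Slot.one => ⟨a.k + 10 ^ 8 * w.r, a.x, a.v, a.u, a.y, a.z⟩
  | Slot.px => ⟨a.k, a.x.add w, a.v, a.u, a.y, a.z⟩
  | Slot.pv => ⟨a.k, a.x, a.v.add w, a.u, a.y, a.z⟩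
  | Slot.pu => ⟨a.k, a.x, a.v, a.u.add w, a.y, a.z⟩
  | Slot.py => ⟨a.k, a.x, a.v, a.u, a.y.add w, a.z⟩
  | Slot.pz => ⟨a.k, a.x, a.v, a.u, a.y, a.z.add w⟩
  | Slot.unk e => ⟨a.k - bp T e * gabs w, a.x, a.v, a.u, a.y, a.z⟩

/-- split `∑ W_n G(n)` into the contributions of the known, special and unknown coefficients. -/
def walk (sf : ℤ → Slot) (T : ℕ) : ℤ → List GI → Acc
  | _, [] => Acc.zero
  | n, w :: W => (walk sf T (n + 1) W).push T w (sf n)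

/-- A family of windows, as seen by the checker. -/
structure Fam where
  /-- nature of the positions -/
  sf : ℤ → Slot
  /-- inverse weights (`0` = not allowed) of the energy, at the shifted positions -/
  wf : ℤ → ℕ
  /-- first position -/
  t0 : ℤ
  /-- exponent of the Newton bound of `u` -/
  eu : ℕ
  l1R : ℤ
  l2R : ℤ
  l1L : ℤ
  l2L : ℤ

/-- a point certificate. -/
structure PC where
  P : List GI
  Q : List GI

/-- `(10^18 J_c, 10^10 w_c)`. -/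
def corner (F : Fam) (T : ℕ) (X1 X2 : ℤ) (c : PC) : ℤ × GI :=
  let a := walk F.sf T F.t0 (lconv c.P c.Q)
  let ev : GI := ⟨a.v.r - 10 ^ 8 * F.l1R, a.v.i⟩
  let eu : GI := ⟨a.u.r - 10 ^ 8 * F.l2L, a.u.i⟩
  let ey : GI := ⟨a.y.r + 10 ^ 6 * F.l1L * X1, a.y.i + 10 ^ 6 * F.l1L * X2⟩
  let ez : GI := ⟨a.z.r + 10 ^ 6 * F.l2R * X1, a.z.i + 10 ^ 6 * F.l2R * X2⟩
  (a.k - 10 ^ 8 * gabs ev - bp T F.eu * gabs eu - 10 ^ 8 * gabs ey - 10 ^ 8 * gabs ez
    - 5 * 10 ^ 7 * nq F.wf F.t0 c.Q - 146063500 * nq (fun _ => 1) 0 c.P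
    + 10 ^ 6 * (a.x.r * X1 - a.x.i * X2), a.x)

/-- a box `[a1,b1] × [a2,b2]` (hundredths), with a bound `T / 10^4` of `t`. -/
structure Cell where
  a1 : ℤ
  b1 : ℤ
  a2 : ℤ
  b2 : ℤ
  T : ℕ
  c00 : PC
  c10 : PC
  c01 : PC
  c11 : PC

/-- the loss of the bilinear mixing, from the four values of `10^10 w`. -/
def mixLoss (d1 d2 : ℤ) (w00 w10 w01 w11 : GI) : ℤ :=
  250000 * (d1 * max 0 (max (w10.r - w00.r) (w11.r - w01.r))
    + d2 * max 0 (max (w00.i - w01.i) (w10.i - w11.i)))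

/-- the check of a box: `Pot ≥ 10^(-3)`. -/
def Cell.ok (F : Fam) (C : Cell) : Bool :=
  let r00 := corner F C.T C.a1 C.a2 C.c00
  let r10 := corner F C.T C.b1 C.a2 C.c10
  let r01 := corner F C.T C.a1 C.b2 C.c01
  let r11 := corner F C.T C.b1 C.b2 C.c11
  let L := mixLoss (C.b1 - C.a1) (C.b2 - C.a2) r00.2 r10.2 r01.2 r11.2
  decide (10 ^ 15 + L ≤ r00.1) && decide (10 ^ 15 + L ≤ r10.1) &&
  decide (10 ^ 15 + L ≤ r01.1) && decide (10 ^ 15 + L ≤ r11.1)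

/-- the bound `T` of the box is valid: `t ≤ T / 10^4` if `t ^ a = |x|` and `x` is in the box. -/
def Cell.okT (a : ℕ) (C : Cell) : Bool :=
  decide (10 ^ 4 ≤ C.T) ||
    decide ((C.b1 * C.b1 + C.b2 * C.b2) * 10 ^ (8 * a - 4) ≤ (C.T : ℤ) ^ (2 * a))

/-! ## the version with a known quadratic coefficient `z` (window `(1,2,4)`) -/

/-- a point certificate with `z`-part. -/
structure PCZ where
  P : List GI
  Q : List GI
  R : List GI

/-- slots of the `z`-part. -/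
def sf3 (sf : ℤ → Slot) (n : ℤ) : Slot :=
  match sf n with
  | Slot.one => Slot.pv
  | Slot.px => Slot.px
  | Slot.pz => Slot.pz
  | Slot.pv => Slot.unk 0
  | Slot.pu => Slot.pu
  | Slot.py => Slot.unk 0
  | Slot.unk e => Slot.unk e

/-- `(10^18 J_c, 10^10 w_c, 10^18 e_c, 10^18 tot_c)`; `dg / 100` is a bound of `|x - x_c|`. -/
def cornerZ (F : Fam) (T : ℕ) (dg : ℤ) (X1 X2 : ℤ) (c : PCZ) : ℤ × GI × ℤ × ℤ :=
  let a := walk F.sf T F.t0 (lconv c.P c.Q)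
  let a3 := walk (sf3 F.sf) T F.t0 (lconv c.P c.R)
  let ev : GI := ⟨a.v.r - 10 ^ 8 * F.l1R, a.v.i⟩
  let eu : GI := ⟨a.u.r - 10 ^ 8 * F.l2L, a.u.i⟩
  let ey : GI := ⟨a.y.r + 10 ^ 6 * F.l1L * X1, a.y.i + 10 ^ 6 * F.l1L * X2⟩
  let j := a.k - 10 ^ 8 * gabs ev - bp T F.eu * gabs eu - 10 ^ 8 * gabs ey
    - 5 * 10 ^ 7 * nq F.wf F.t0 c.Q - 146063500 * nq (fun _ => 1) 0 c.P
    + 10 ^ 6 * (a.x.r * X1 - a.x.i * X2)
  let e := 10 ^ 8 * a3.z.r - 5 * 10 ^ 7 * nq (fun _ => 1) 0 c.R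
  let kap : GI := (((a.z.conj.add a3.v).add (cr c.Q c.R).neg).sm 100).add (GI.mul ⟨X1, X2⟩ a3.x)
  let tot := 10 ^ 8 * F.l2R * bp T F.eu + bp T F.eu * gabs a3.u - a3.k + 10 ^ 6 * gabs kap
    + 10 ^ 6 * dg * gabs a3.x
  (j, a.x, e, tot)

structure CellZ where
  a1 : ℤ
  b1 : ℤ
  a2 : ℤ
  b2 : ℤ
  T : ℕ
  dg : ℤ
  c00 : PCZ
  c10 : PCZ
  c01 : PCZ
  c11 : PCZ

def okZ (L : ℤ) (r : ℤ × GI × ℤ × ℤ) : Bool :=
  decide (0 < r.2.2.1) && decide (0 ≤ r.2.2.2) &&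
    decide (r.2.2.2 * r.2.2.2 ≤ 4 * r.2.2.1 * (r.1 - L - 10 ^ 15))

def CellZ.ok (F : Fam) (C : CellZ) : Bool :=
  let r00 := cornerZ F C.T C.dg C.a1 C.a2 C.c00
  let r10 := cornerZ F C.T C.dg C.b1 C.a2 C.c10
  let r01 := cornerZ F C.T C.dg C.a1 C.b2 C.c01
  let r11 := cornerZ F C.T C.dg C.b1 C.b2 C.c11
  let L := mixLoss (C.b1 - C.a1) (C.b2 - C.a2) r00.2.1 r10.2.1 r01.2.1 r11.2.1
  okZ L r00 && okZ L r10 && okZ L r01 && okZ L r11 &&
    decide ((C.b1 - C.a1) * (C.b1 - C.a1) + (C.b2 - C.a2) * (C.b2 - C.a2) ≤ C.dg * C.dg) &&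
    decide (0 ≤ C.dg)

def CellZ.okT (a : ℕ) (C : CellZ) : Bool :=
  decide (10 ^ 4 ≤ C.T) ||
    decide ((C.b1 * C.b1 + C.b2 * C.b2) * 10 ^ (8 * a - 4) ≤ (C.T : ℤ) ^ (2 * a))

/-- lengths of the lists. -/
def lenOK (lp lq : ℕ) (c : PC) : Bool := (c.P.length == lp) && (c.Q.length == lq)

end MaxTerm.Inc
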