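import Pool.Agent.MaxTerm.Inc.Defs
import Pool.Agent.MaxTerm.Parseval

/-! # Energy inequalities for a window -/

open Filter Topology MeasureTheory
open scoped ComplexConjugate

namespace MaxTerm.Inc

/-- version of `energy` for a finite type. -/
theorem energy_fintype {K : ℝ} {k : ℕ} {c : ℤ → ℂ} (h : IsWindow K k c) {ι : Type*} [Fintype ι]
    (p : ι → ℤ) (hp : Function.Injective p) (α : ι → ℂ) (S : Finset ℤ) :
    ∑ u ∈ S, ‖∑ i, α i * c (u - p i)‖ ^ 2 ≤ K ^ 2 * ∑ i, ‖α i‖ ^ 2 := by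
  have hT : Fact ((0 : ℝ) < 1) := ⟨one_pos⟩
  have hc := h.summable
  have hK := h.bound
  have hK0 : 0 ≤ K := (norm_nonneg _).trans (hK 1 norm_one)
  have hsum : Summable (fun n : ℤ => c n • (fourier n : C(AddCircle (1 : ℝ), ℂ))) := by
    apply Summable.of_norm
    refine hc.congr fun n => ?_
    rw [norm_smul, fourier_norm, mul_one]
  set F : C(AddCircle (1 : ℝ), ℂ) := ∑' n : ℤ, c n • fourier n with hF
  have hFs : HasSum (fun n : ℤ => c n • (fourier n : C(AddCircle (1 : ℝ), ℂ))) F := hsum.hasSum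
  have hpt : ∀ x : AddCircle (1 : ℝ), F x = ∑' n : ℤ, c n * (Circle.coeHom (AddCircle.toCircle x)) ^ n := by
    intro x
    have h1 := hFs.map (ContinuousMap.evalCLM ℂ x : C(AddCircle (1 : ℝ), ℂ) →L[ℂ] ℂ)
      (ContinuousLinearMap.continuous _)
    have h2 := h1.tsum_eq
    change _ = F x at h2
    rw [← h2]
    refine tsum_congr fun n => ?_
    simp only [Function.comp_apply]
    change c n • (fourier n : C(AddCircle (1 : ℝ), ℂ)) x = _
    rw [fourier_apply, AddCircle.toCircle_zsmul, smul_eq_mul, Circle.coe_zpow]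
    rfl
  have hFb : ∀ x : AddCircle (1 : ℝ), ‖F x‖ ≤ K := by
    intro x
    rw [hpt x]
    exact hK _ (Circle.norm_coe _)
  let v : ℤ → Lp ℂ 2 (@AddCircle.haarAddCircle 1 hT) := @fourierLp 1 hT 2 _
  have hv : Orthonormal ℂ v := orthonormal_fourier
  -- the trigonometric polynomial
  let A : C(AddCircle (1 : ℝ), ℂ) := ∑ i, α i • fourier (p i)
  let Y : Lp ℂ 2 (@AddCircle.haarAddCircle 1 hT) :=
    ContinuousMap.toLp (E := ℂ) 2 AddCircle.haarAddCircle ℂ A
  let X : Lp ℂ 2 (@AddCircle.haarAddCircle 1 hT) :=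
    ContinuousMap.toLp (E := ℂ) 2 AddCircle.haarAddCircle ℂ (F * A)
  have hXY : ‖X‖ ≤ K * ‖Y‖ := by
    refine Lp.norm_le_mul_norm_of_ae_le_mul ?_
    filter_upwards [ContinuousMap.coeFn_toLp (p := 2) (𝕜 := ℂ) AddCircle.haarAddCircle (F * A),
      ContinuousMap.coeFn_toLp (p := 2) (𝕜 := ℂ) AddCircle.haarAddCircle A] with x hx hy
    rw [hx, hy, ContinuousMap.mul_apply, norm_mul]
    exact mul_le_mul_of_nonneg_right (hFb x) (norm_nonneg _)
  have hY : ‖Y‖ ^ 2 = ∑ i, ‖α i‖ ^ 2 := by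
    have h1 : Y = ∑ i, α i • (v ∘ p) i := by
      change ContinuousMap.toLp (E := ℂ) 2 AddCircle.haarAddCircle ℂ (∑ i, α i • fourier (p i)) = _
      rw [map_sum]
      refine Finset.sum_congr rfl fun i _ => ?_
      rw [map_smul]
      rfl
    have h2 := (hv.comp p hp).inner_sum α α Finset.univ
    rw [← h1] at h2
    have h3 : (inner ℂ Y Y : ℂ) = ((‖Y‖ ^ 2 : ℝ) : ℂ) := by
      rw [inner_self_eq_norm_sq_to_K]
      push_cast
      rfl
    rw [h3] at h2
    have h4 : ((‖Y‖ ^ 2 : ℝ) : ℂ) = ((∑ i, ‖α i‖ ^ 2 : ℝ) : ℂ) := by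
      rw [h2, Complex.ofReal_sum]
      refine Finset.sum_congr rfl fun i _ => ?_
      rw [Complex.conj_mul']
      push_cast
      rfl
    exact_mod_cast h4
  have hinner : ∀ m : ℤ, inner ℂ (v m) X = ∑ i, α i * c (m - p i) := by
    intro m
    -- the coefficients of `F * fourier q`
    have key : ∀ q : ℤ, inner ℂ (v m) (ContinuousMap.toLp (E := ℂ) 2
        (@AddCircle.haarAddCircle 1 hT) ℂ (F * fourier q)) = c (m - q) := by
      intro q
      have h0 : HasSum (fun n : ℤ => c n • (fourier (n + q) : C(AddCircle (1 : ℝ), ℂ)))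
          (F * fourier q) := by
        have h1 := hFs.mul_right (fourier q : C(AddCircle (1 : ℝ), ℂ))
        have e : (fun n : ℤ => c n • (fourier (n + q) : C(AddCircle (1 : ℝ), ℂ))) =
            fun n : ℤ => c n • (fourier n : C(AddCircle (1 : ℝ), ℂ)) * fourier q := by
          funext n
          rw [smul_mul_assoc]
          congr 1
          ext x
          rw [ContinuousMap.mul_apply, fourier_add]
        rw [e]
        exact h1
      have h1 := h0.map (((innerSL ℂ (v m)).comp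
        (ContinuousMap.toLp (E := ℂ) 2 (@AddCircle.haarAddCircle 1 hT) ℂ)) :
          C(AddCircle (1 : ℝ), ℂ) →L[ℂ] ℂ) (ContinuousLinearMap.continuous _)
      have h2 : HasSum (fun n : ℤ => if n = m - q then c (m - q) else 0) (c (m - q)) :=
        hasSum_ite_eq (m - q) (c (m - q))
      refine h1.unique ?_
      convert h2 using 1
      funext n
      simp only [Function.comp_apply, map_smul, smul_eq_mul]
      have h3 := orthonormal_iff_ite.1 hv m (n + q)
      have h4 : (((innerSL ℂ (v m)).comp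
        (ContinuousMap.toLp (E := ℂ) 2 (@AddCircle.haarAddCircle 1 hT) ℂ)) :
          C(AddCircle (1 : ℝ), ℂ) →L[ℂ] ℂ) (fourier (n + q)) = inner ℂ (v m) (v (n + q)) := rfl
      rw [h4, h3]
      by_cases h : n = m - q
      · rw [if_pos (by omega), if_pos h, h, mul_one]
      · rw [if_neg (by omega), if_neg h, mul_zero]
    have h1 : X = ∑ i, α i • ContinuousMap.toLp (E := ℂ) 2
        (@AddCircle.haarAddCircle 1 hT) ℂ (F * fourier (p i)) := by
      change ContinuousMap.toLp (E := ℂ) 2 AddCircle.haarAddCircle ℂ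
        (F * ∑ i, α i • fourier (p i)) = _
      rw [Finset.mul_sum, map_sum]
      refine Finset.sum_congr rfl fun i _ => ?_
      rw [mul_smul_comm, map_smul]
    rw [h1, inner_sum]
    refine Finset.sum_congr rfl fun i _ => ?_
    rw [inner_smul_right, key]
  have h5 := hv.sum_inner_products_le (s := S) X
  calc ∑ u ∈ S, ‖∑ i, α i * c (u - p i)‖ ^ 2 = ∑ n ∈ S, ‖inner ℂ (v n) X‖ ^ 2 := by
        refine Finset.sum_congr rfl fun n _ => ?_
        rw [hinner]
    _ ≤ ‖X‖ ^ 2 := h5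
    _ ≤ (K * ‖Y‖) ^ 2 := pow_le_pow_left₀ (norm_nonneg _) hXY 2
    _ = K ^ 2 * ∑ i, ‖α i‖ ^ 2 := by rw [mul_pow, hY]

/-- **E1.** `∑_u |∑_i α_i c(u - p_i)|² ≤ K² ∑ |α_i|²`, i.e. `‖f A‖₂ ≤ K ‖A‖₂`. -/
theorem energy {K : ℝ} {k : ℕ} {c : ℤ → ℂ} (h : IsWindow K k c) {ι : Type*} (I : Finset ι)
    (p : ι → ℤ) (hp : Set.InjOn p I) (α : ι → ℂ) (S : Finset ℤ) :
    ∑ u ∈ S, ‖∑ i ∈ I, α i * c (u - p i)‖ ^ 2 ≤ K ^ 2 * ∑ i ∈ I, ‖α i‖ ^ 2 := by
  have h1 := energy_fintype h (fun i : I => p i) (fun a b hab => Subtype.ext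
    (hp a.2 b.2 hab)) (fun i => α i) S
  rw [Finset.sum_coe_sort I (fun i => ‖α i‖ ^ 2)] at h1
  refine le_trans (le_of_eq ?_) h1
  refine Finset.sum_congr rfl fun u _ => ?_
  rw [Finset.sum_coe_sort I (fun i => α i * c (u - p i))]

/-- **E2.** weighted version; several indices may have the same position. -/
theorem energy_weighted {K : ℝ} {k : ℕ} {c : ℤ → ℂ} (h : IsWindow K k c) {ι κ : Type*}
    (I : Finset ι) (p : ι → ℤ) (hp : Set.InjOn p I) (α : ι → ℂ) (U : Finset κ) (u : κ → ℤ)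
    (s : κ → ℝ) (hs : ∀ j ∈ U, 0 ≤ s j)
    (hw : ∀ n : ℤ, ∑ j ∈ U.filter (fun j => u j = n), s j ≤ 1) :
    ∑ j ∈ U, s j * ‖∑ i ∈ I, α i * c (u j - p i)‖ ^ 2 ≤ K ^ 2 * ∑ i ∈ I, ‖α i‖ ^ 2 := by
  classical
  refine le_trans ?_ (energy h I p hp α (U.image u))
  rw [← Finset.sum_fiberwise_of_maps_to (s := U) (t := U.image u) (g := u)
    (fun j hj => Finset.mem_image_of_mem u hj)]
  refine Finset.sum_le_sum fun n _ => ?_
  have h1 : ∑ j ∈ U.filter (fun j => u j = n), s j * ‖∑ i ∈ I, α i * c (u j - p i)‖ ^ 2 =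
      (∑ j ∈ U.filter (fun j => u j = n), s j) * ‖∑ i ∈ I, α i * c (n - p i)‖ ^ 2 := by
    rw [Finset.sum_mul]
    refine Finset.sum_congr rfl fun j hj => ?_
    rw [(Finset.mem_filter.1 hj).2]
  rw [h1]
  have h2 := hw n
  have h3 : 0 ≤ ‖∑ i ∈ I, α i * c (n - p i)‖ ^ 2 := by positivity
  nlinarith [h2, h3]

theorem ev_eq_sum (G : ℤ → ℂ) (P : List GI) (n : ℤ) :
    ev G n P = ∑ i : Fin P.length, (P.get i).toC * G (n + (i : ℕ)) := by
  induction P generalizing n with
  | nil => simp [ev]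
  | cons a l ih =>
    rw [ev, ih]
    have h := Fin.sum_univ_succ (n := l.length)
      (fun i : Fin (l.length + 1) => ((a :: l).get i).toC * G (n + (i : ℕ)))
    refine Eq.trans ?_ h.symm
    congr 1
    · simp
    · refine Finset.sum_congr rfl fun i _ => ?_
      have e : n + 1 + ((i : ℕ) : ℤ) = n + ((Fin.succ i : Fin (l.length + 1)) : ℕ) := by
        rw [Fin.val_succ]; push_cast; ring
      rw [e]
      rfl

theorem normsq_toC (a : GI) : ‖a.toC‖ ^ 2 = (a.nsq : ℝ) := by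
  rw [Complex.sq_norm, Complex.normSq_apply]
  simp [GI.toC, GI.nsq]

theorem nq_one_eq_sum (P : List GI) (n : ℤ) :
    (nq (fun _ => 1) n P : ℝ) = ∑ i : Fin P.length, ‖(P.get i).toC‖ ^ 2 := by
  induction P generalizing n with
  | nil => simp [nq]
  | cons a l ih =>
    have h := Fin.sum_univ_succ (n := l.length)
      (fun i : Fin (l.length + 1) => ‖((a :: l).get i).toC‖ ^ 2)
    refine Eq.trans ?_ h.symm
    rw [nq]
    push_cast
    rw [ih]
    congr 1
    · rw [one_mul]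
      exact (normsq_toC a).symm

theorem enr_one_eq_sum (G : ℤ → ℂ) (P : List GI) (n : ℤ) (m : ℕ) :
    enr (fun _ => 1) G P n m = ∑ j ∈ Finset.range m, ‖ev G (n + (j : ℕ)) P‖ ^ 2 := by
  induction m generalizing n with
  | zero => simp [enr]
  | succ m ih =>
    rw [enr, ih, Finset.sum_range_succ', add_comm]
    congr 1
    · refine Finset.sum_congr rfl fun j _ => ?_
      have e : n + 1 + (j : ℤ) = n + ((j + 1 : ℕ) : ℤ) := by push_cast; ring
      rw [e]
    · simp

/-- **E3.** the energy inequality of the checker, for `G(n) = c(g n)`. -/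
theorem enr_circle {K : ℝ} {k g : ℕ} {c : ℤ → ℂ} (h : IsWindow K k c) (hg : 0 < g)
    (P : List GI) (n : ℤ) (m : ℕ) :
    enr (fun _ => 1) (fun n => c ((g : ℤ) * n)) P n m ≤ K ^ 2 * (nrmP P : ℝ) := by
  classical
  have hg' : (g : ℤ) ≠ 0 := by exact_mod_cast hg.ne'
  have h1 := energy_fintype h (fun i : Fin P.length => -((g : ℤ) * (i : ℕ)))
    (by
      intro i j hij
      have h2 : (g : ℤ) * ((i : ℕ) : ℤ) = (g : ℤ) * ((j : ℕ) : ℤ) := by
        simpa using hij
      have h3 := mul_left_cancel₀ hg' h2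
      exact Fin.ext (by exact_mod_cast h3))
    (fun i => (P.get i).toC) ((Finset.range m).image fun j : ℕ => (g : ℤ) * (n + j))
  rw [Finset.sum_image (by
    intro i _ j _ hij
    have h2 : (g : ℤ) * (n + (i : ℤ)) = (g : ℤ) * (n + (j : ℤ)) := hij
    have h3 := mul_left_cancel₀ hg' h2
    have h4 : (i : ℤ) = (j : ℤ) := by linarith
    exact_mod_cast h4)] at h1
  rw [enr_one_eq_sum]
  unfold nrmP
  rw [nq_one_eq_sum]
  refine le_trans (le_of_eq ?_) h1
  refine Finset.sum_congr rfl fun j _ => ?_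
  rw [ev_eq_sum]
  congr 2
  refine Finset.sum_congr rfl fun i _ => ?_
  congr 2
  ring

end MaxTerm.Inc
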