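import Pool.Agent.MaxTerm.Inc.Sound

/-! # Soundness of the checker with `z`-part (window `(1,2,4)`) -/

open scoped ComplexConjugate

namespace MaxTerm.Inc

namespace SZ

theorem toC_add (a b : GI) : (a.add b).toC = a.toC + b.toC := by
  apply Complex.ext <;> simp [GI.toC, GI.add]

theorem toC_mul (a b : GI) : (a.mul b).toC = a.toC * b.toC := by
  apply Complex.ext <;> simp [GI.toC, GI.mul]

theorem toC_zero : (⟨0, 0⟩ : GI).toC = 0 := by
  apply Complex.ext <;> simp [GI.toC]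

theorem toC_conj (a : GI) : (a.conj).toC = conj a.toC := by
  apply Complex.ext <;> simp [GI.toC, GI.conj]

theorem toC_neg (a : GI) : (a.neg).toC = -a.toC := by
  apply Complex.ext <;> simp [GI.toC, GI.neg]

theorem toC_sm (c : ℤ) (a : GI) : (a.sm c).toC = (c : ℂ) * a.toC := by
  apply Complex.ext <;> simp [GI.toC, GI.sm]

theorem nsq_toC (a : GI) : ((a.nsq : ℤ) : ℝ) = ‖a.toC‖ ^ 2 := by
  rw [← Complex.normSq_eq_norm_sq, Complex.normSq_apply]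
  simp [GI.toC, GI.nsq]

theorem ev_ladd (G : ℤ → ℂ) (l m : List GI) (n : ℤ) :
    ev G n (ladd l m) = ev G n l + ev G n m := by
  induction l generalizing m n with
  | nil => simp [ladd, ev]
  | cons a l ih =>
    cases m with
    | nil => simp [ladd, ev]
    | cons b m =>
      simp only [ladd, ev, toC_add, ih]
      ring

theorem ev_lsm (G : ℤ → ℂ) (c : GI) (l : List GI) (n : ℤ) :
    ev G n (lsm c l) = c.toC * ev G n l := by
  induction l generalizing n with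
  | nil => simp [lsm, ev]
  | cons a l ih =>
    have e : lsm c (a :: l) = (c.mul a) :: lsm c l := rfl
    rw [e]
    simp only [ev, toC_mul, ih]
    ring

theorem ev_lconv_cons (G : ℤ → ℂ) (P Q : List GI) (b : GI) (n : ℤ) :
    ev G n (lconv P (b :: Q)) = b.toC * ev G n P + ev G (n + 1) (lconv P Q) := by
  simp only [lconv, ev_ladd, ev_lsm, ev, toC_zero]
  ring

theorem amgm (q r z E : ℂ) :
    (q * E).re + (conj z * (r * E)).re
      ≤ 1 / 2 * (‖q‖ ^ 2 + ‖z‖ ^ 2 * ‖r‖ ^ 2 + 2 * (conj z * (conj q * r)).re + ‖E‖ ^ 2) := by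
  simp only [← Complex.normSq_eq_norm_sq, Complex.normSq_apply, Complex.mul_re, Complex.mul_im,
    Complex.conj_re, Complex.conj_im]
  nlinarith [sq_nonneg (q.re + (z.re * r.re + z.im * r.im) - E.re),
    sq_nonneg (q.im + (z.re * r.im - z.im * r.re) + E.im)]

theorem nq_one (n : ℤ) (l : List GI) : nq (fun _ => 1) n l = nq (fun _ => 1) 0 l := by
  have : ∀ (l : List GI) (m n : ℤ), nq (fun _ => 1) n l = nq (fun _ => 1) m l := by
    intro l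
    induction l with
    | nil => intro m n; rfl
    | cons a l ih =>
      intro m n
      simp only [nq]
      rw [ih (m + 1) (n + 1)]
  exact this l 0 n

theorem nq_one_nonneg (n : ℤ) (l : List GI) : 0 ≤ nq (fun _ => 1) n l := by
  induction l generalizing n with
  | nil => exact le_rfl
  | cons a l ih =>
    simp only [nq]
    have h1 : 0 ≤ a.nsq := by unfold GI.nsq; nlinarith [mul_self_nonneg a.r, mul_self_nonneg a.i]
    have := ih (n + 1)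
    have h2 : (0 : ℤ) ≤ ((1 : ℕ) : ℤ) * a.nsq := by simpa using h1
    linarith

end SZ

/-- **Z1.** AM-GM for the list `Q + conj z R`. -/
theorem ev_lconvZ_le (G : ℤ → ℂ) (P Q R : List GI) (hl : Q.length = R.length) (n : ℤ) (z : ℂ) :
    (ev G n (lconv P Q)).re + (conj z * ev G n (lconv P R)).re
      ≤ 1 / 2 * ((nq (fun _ => 1) n Q : ℝ) + ‖z‖ ^ 2 * (nq (fun _ => 1) n R : ℝ)
        + 2 * (conj z * (cr Q R).toC).re + enr (fun _ => 1) G P n Q.length) := by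
  induction Q generalizing R n with
  | nil =>
    cases R with
    | nil => simp [lconv, ev, nq, cr, enr, SZ.toC_zero]
    | cons b R => simp at hl
  | cons q Q ih =>
    cases R with
    | nil => simp at hl
    | cons r R =>
      have hl' : Q.length = R.length := by simpa using hl
      have h1 := ih R hl' (n + 1)
      have h2 := SZ.amgm q.toC r.toC z (ev G n P)
      rw [SZ.ev_lconv_cons, SZ.ev_lconv_cons]
      simp only [nq, cr, enr, List.length_cons, SZ.toC_add, SZ.toC_mul, SZ.toC_conj, mul_add,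
        Complex.add_re, Nat.cast_one, one_mul, Int.cast_add, SZ.nsq_toC, inv_one]
      simp only [mul_add] at h1 h2
      linarith

theorem SZ.re_unk_le {w g ζ : ℂ} {N t : ℝ} {T e : ℕ} (ht0 : 0 ≤ t)
    (ht : t ≤ T / 10 ^ 4) (hg : ‖g‖ ≤ t ^ e) (hw : ‖w‖ ≤ N) :
    -((bp T e : ℝ) / 10 ^ 8 * N * ‖ζ‖) ≤ (ζ * (w * g)).re := by
  have h1 : ‖ζ * (w * g)‖ ≤ (bp T e : ℝ) / 10 ^ 8 * N * ‖ζ‖ := by
    rw [norm_mul, norm_mul]
    have h2 := le_bp ht0 ht e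
    have h3 : ‖g‖ ≤ (bp T e : ℝ) / 10 ^ 8 := hg.trans h2
    have h4 : ‖w‖ * ‖g‖ ≤ N * ((bp T e : ℝ) / 10 ^ 8) :=
      mul_le_mul hw h3 (norm_nonneg _) ((norm_nonneg _).trans hw)
    calc ‖ζ‖ * (‖w‖ * ‖g‖) ≤ ‖ζ‖ * (N * ((bp T e : ℝ) / 10 ^ 8)) :=
          mul_le_mul_of_nonneg_left h4 (norm_nonneg _)
      _ = _ := by ring
  have h2 := Complex.abs_re_le_norm (ζ * (w * g))
  have h3 := (abs_le.1 h2).1
  linarith

/-- **Z2.** value of the `R` part. -/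
theorem walk3_sound {sf : ℤ → Slot} {G : ℤ → ℂ} {t : ℝ} {T : ℕ} {x v u y z : ℂ} (ht0 : 0 ≤ t)
    (ht : t ≤ T / 10 ^ 4) (hv : ‖v‖ ≤ 1) (hy : ‖y‖ ≤ 1) (n : ℤ) (W : List GI)
    (hs : ∀ m : ℤ, n ≤ m → SlotOK G t x v u y z m (sf m)) (ζ : ℂ) :
    ((walk (sf3 sf) T n W).k : ℝ) / 10 ^ 8 * ‖ζ‖
      + (ζ * ((walk (sf3 sf) T n W).v.toC + (walk (sf3 sf) T n W).x.toC * x
        + (walk (sf3 sf) T n W).u.toC * u + (walk (sf3 sf) T n W).z.toC * z)).re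
      ≤ (ζ * ev G n W).re := by
  induction W generalizing n with
  | nil =>
    simp [walk, Acc.zero, ev, SZ.toC_zero]
  | cons w W ih =>
    have h1 := ih (n + 1) (fun m hm => hs m (by linarith))
    have hn := hs n le_rfl
    simp only [walk, ev]
    set A := walk (sf3 sf) T (n + 1) W with hA
    have key : ∀ e : ℕ, ‖G n‖ ≤ t ^ e →
        -((bp T e : ℝ) / 10 ^ 8 * (gabs w : ℝ) * ‖ζ‖) ≤ (ζ * (w.toC * G n)).re :=
      fun e he => SZ.re_unk_le ht0 ht he (le_gabs w)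
    cases hsf : sf n with
    | one =>
      have e3 : sf3 sf n = Slot.pv := by simp [sf3, hsf]
      rw [hsf] at hn
      simp only [SlotOK] at hn
      rw [e3]
      simp only [Acc.push, SZ.toC_add, hn, mul_one]
      simp only [mul_add, add_mul, Complex.add_re] at h1 ⊢
      linarith
    | px =>
      have e3 : sf3 sf n = Slot.px := by simp [sf3, hsf]
      rw [hsf] at hn
      simp only [SlotOK] at hn
      rw [e3]
      simp only [Acc.push, SZ.toC_add, hn]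
      simp only [mul_add, add_mul, Complex.add_re] at h1 ⊢
      linarith
    | pz =>
      have e3 : sf3 sf n = Slot.pz := by simp [sf3, hsf]
      rw [hsf] at hn
      simp only [SlotOK] at hn
      rw [e3]
      simp only [Acc.push, SZ.toC_add, hn]
      simp only [mul_add, add_mul, Complex.add_re] at h1 ⊢
      linarith
    | pu =>
      have e3 : sf3 sf n = Slot.pu := by simp [sf3, hsf]
      rw [hsf] at hn
      simp only [SlotOK] at hn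
      rw [e3]
      simp only [Acc.push, SZ.toC_add, hn]
      simp only [mul_add, add_mul, Complex.add_re] at h1 ⊢
      linarith
    | pv =>
      have e3 : sf3 sf n = Slot.unk 0 := by simp [sf3, hsf]
      rw [hsf] at hn
      simp only [SlotOK] at hn
      rw [e3]
      have h2 := key 0 (by rw [hn, pow_zero]; exact hv)
      simp only [Acc.push]
      push_cast
      simp only [mul_add, add_mul, Complex.add_re] at h1 ⊢
      have e4 : ((A.k : ℝ) - (bp T 0 : ℝ) * (gabs w : ℝ)) / 10 ^ 8 * ‖ζ‖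
          = (A.k : ℝ) / 10 ^ 8 * ‖ζ‖ - (bp T 0 : ℝ) / 10 ^ 8 * (gabs w : ℝ) * ‖ζ‖ := by ring
      rw [e4]
      linarith
    | py =>
      have e3 : sf3 sf n = Slot.unk 0 := by simp [sf3, hsf]
      rw [hsf] at hn
      simp only [SlotOK] at hn
      rw [e3]
      have h2 := key 0 (by rw [hn, pow_zero]; exact hy)
      simp only [Acc.push]
      push_cast
      simp only [mul_add, add_mul, Complex.add_re] at h1 ⊢
      have e4 : ((A.k : ℝ) - (bp T 0 : ℝ) * (gabs w : ℝ)) / 10 ^ 8 * ‖ζ‖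
          = (A.k : ℝ) / 10 ^ 8 * ‖ζ‖ - (bp T 0 : ℝ) / 10 ^ 8 * (gabs w : ℝ) * ‖ζ‖ := by ring
      rw [e4]
      linarith
    | unk e =>
      have e3 : sf3 sf n = Slot.unk e := by simp [sf3, hsf]
      rw [hsf] at hn
      simp only [SlotOK] at hn
      rw [e3]
      have h2 := key e hn
      simp only [Acc.push]
      push_cast
      simp only [mul_add, add_mul, Complex.add_re] at h1 ⊢
      have e4 : ((A.k : ℝ) - (bp T e : ℝ) * (gabs w : ℝ)) / 10 ^ 8 * ‖ζ‖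
          = (A.k : ℝ) / 10 ^ 8 * ‖ζ‖ - (bp T e : ℝ) / 10 ^ 8 * (gabs w : ℝ) * ‖ζ‖ := by ring
      rw [e4]
      linarith

theorem SZ.neg_le_re {g w : ℂ} {N M : ℝ} (hg : ‖g‖ ≤ M) (hw : ‖w‖ ≤ N) : -(N * M) ≤ (w * g).re := by
  have h1 : ‖w * g‖ ≤ N * M := by
    rw [norm_mul]
    exact mul_le_mul hw hg (norm_nonneg _) ((norm_nonneg _).trans hw)
  have h2 := (abs_le.1 (Complex.abs_re_le_norm (w * g))).1
  linarith

/-- **Z3.** a point certificate with `z`-part. -/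
theorem cornerZ_sound {F : Fam} {K2 t : ℝ} {G : ℤ → ℂ} {x v u y z : ℂ}
    (hG : GOK F K2 G t x v u y z) (hwf : F.wf = fun _ => 1) (hl : 0 ≤ F.l2R) {T : ℕ}
    (ht : t ≤ T / 10 ^ 4) (c : PCZ) (hlen : c.Q.length = c.R.length)
    (hE : enr F.wf G c.P F.t0 c.Q.length ≤ K2 * (nrmP c.P : ℝ)) (X1 X2 dg : ℤ)
    (hd : ‖x - ⟨(X1 : ℝ) / 100, (X2 : ℝ) / 100⟩‖ ≤ (dg : ℝ) / 100) :
    ((cornerZ F T dg X1 X2 c).1 : ℝ) / 10 ^ 18
      + ((cornerZ F T dg X1 X2 c).2.1.toC * (x - ⟨(X1 : ℝ) / 100, (X2 : ℝ) / 100⟩)).re / 10 ^ 10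
      + ((cornerZ F T dg X1 X2 c).2.2.1 : ℝ) / 10 ^ 18 * ‖z‖ ^ 2
      - ((cornerZ F T dg X1 X2 c).2.2.2 : ℝ) / 10 ^ 18 * ‖z‖
      ≤ linZ F ⟨(X1 : ℝ) / 100, (X2 : ℝ) / 100⟩ v u y z := by
  set a := walk F.sf T F.t0 (lconv c.P c.Q) with ha
  set b := walk (sf3 F.sf) T F.t0 (lconv c.P c.R) with hb
  set xc : ℂ := ⟨(X1 : ℝ) / 100, (X2 : ℝ) / 100⟩ with hxc
  have f1 := walk_sound (T := T) hG.t0 ht F.t0 (lconv c.P c.Q) (fun m _ => hG.slot m)
  have f2 := walk3_sound (T := T) hG.t0 ht hG.hv hG.hy F.t0 (lconv c.P c.R)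
    (fun m _ => hG.slot m) (conj z)
  have f3 := ev_lconvZ_le G c.P c.Q c.R hlen F.t0 z
  rw [hwf] at hE
  rw [← ha] at f1
  rw [← hb, RCLike.norm_conj] at f2
  set EQ := (ev G F.t0 (lconv c.P c.Q)).re
  set ER := (conj z * ev G F.t0 (lconv c.P c.R)).re
  have hP : (0 : ℝ) ≤ (nrmP c.P : ℝ) := by exact_mod_cast SZ.nq_one_nonneg 0 c.P
  have f4 : K2 * (nrmP c.P : ℝ) ≤ 2.92127 * (nrmP c.P : ℝ) :=
    mul_le_mul_of_nonneg_right hG.hK hP
  have f5 := SZ.neg_le_re hG.hv (le_gabs ⟨a.v.r - 10 ^ 8 * F.l1R, a.v.i⟩)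
  have hbu := hG.hu.trans (le_bp hG.t0 ht F.eu)
  have f6 := SZ.neg_le_re hbu (le_gabs ⟨a.u.r - 10 ^ 8 * F.l2L, a.u.i⟩)
  have f7 := SZ.neg_le_re hG.hy
    (le_gabs ⟨a.y.r + 10 ^ 6 * F.l1L * X1, a.y.i + 10 ^ 6 * F.l1L * X2⟩)
  have hcz : ‖(conj z : ℂ)‖ ≤ ‖z‖ := by rw [RCLike.norm_conj]
  set kap : GI := (((a.z.conj.add b.v).add (cr c.Q c.R).neg).sm 100).add (GI.mul ⟨X1, X2⟩ b.x)
    with hkap
  have f8 := SZ.neg_le_re hcz (le_gabs kap)
  have f9 := SZ.neg_le_re (g := conj z * (x - xc)) (M := ‖z‖ * ((dg : ℝ) / 100))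
    (by rw [norm_mul, RCLike.norm_conj]; exact mul_le_mul_of_nonneg_left hd (norm_nonneg _))
    (le_gabs b.x)
  have f10 := SZ.neg_le_re (g := conj z * u) (M := ‖z‖ * ((bp T F.eu : ℝ) / 10 ^ 8))
    (by rw [norm_mul, RCLike.norm_conj]; exact mul_le_mul_of_nonneg_left hbu (norm_nonneg _))
    (le_gabs b.u)
  have f11 : -((F.l2R : ℝ) * (‖z‖ * ((bp T F.eu : ℝ) / 10 ^ 8))) ≤ (F.l2R : ℝ) * (z * u).re := by
    have h1 : ‖z * u‖ ≤ ‖z‖ * ((bp T F.eu : ℝ) / 10 ^ 8) := by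
      rw [norm_mul]; exact mul_le_mul_of_nonneg_left hbu (norm_nonneg _)
    have h2 := (abs_le.1 (Complex.abs_re_le_norm (z * u))).1
    have h3 : (0 : ℝ) ≤ (F.l2R : ℝ) := by exact_mod_cast hl
    nlinarith
  have hzz : ‖z‖ ^ 2 = z.re * z.re + z.im * z.im := by
    rw [← Complex.normSq_eq_norm_sq, Complex.normSq_apply]
  have hcr : (cornerZ F T dg X1 X2 c) =
      (a.k - 10 ^ 8 * gabs ⟨a.v.r - 10 ^ 8 * F.l1R, a.v.i⟩
        - bp T F.eu * gabs ⟨a.u.r - 10 ^ 8 * F.l2L, a.u.i⟩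
        - 10 ^ 8 * gabs ⟨a.y.r + 10 ^ 6 * F.l1L * X1, a.y.i + 10 ^ 6 * F.l1L * X2⟩
        - 5 * 10 ^ 7 * nq F.wf F.t0 c.Q - 146063500 * nq (fun _ => 1) 0 c.P
        + 10 ^ 6 * (a.x.r * X1 - a.x.i * X2), a.x,
        10 ^ 8 * b.z.r - 5 * 10 ^ 7 * nq (fun _ => 1) 0 c.R,
        10 ^ 8 * F.l2R * bp T F.eu + bp T F.eu * gabs b.u - b.k + 10 ^ 6 * gabs kap
          + 10 ^ 6 * dg * gabs b.x) := rfl
  rw [hcr, hwf]
  rw [SZ.nq_one F.t0 c.R] at f3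
  have hnP : nrmP c.P = nq (fun _ => 1) 0 c.P := rfl
  rw [hnP] at f4 hE
  set gev := gabs ⟨a.v.r - 10 ^ 8 * F.l1R, a.v.i⟩
  set geu := gabs ⟨a.u.r - 10 ^ 8 * F.l2L, a.u.i⟩
  set gey := gabs ⟨a.y.r + 10 ^ 6 * F.l1L * X1, a.y.i + 10 ^ 6 * F.l1L * X2⟩
  have hk : (kap.toC : ℂ) = 100 * (conj a.z.toC + b.v.toC - (cr c.Q c.R).toC)
      + 100 * xc * b.x.toC := by
    rw [hkap]
    simp only [SZ.toC_add, SZ.toC_mul, SZ.toC_sm, SZ.toC_neg, SZ.toC_conj]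
    have : (⟨X1, X2⟩ : GI).toC = 100 * xc := by
      apply Complex.ext
      · simp [GI.toC, hxc]
        ring
      · simp [GI.toC, hxc]
        ring
    rw [this]
    push_cast
    ring
  rw [hk] at f8
  clear_value kap
  clear_value gev geu gey
  clear hcr hkap hk ha hb hl hlen ht hG hwf hcz hbu hP hd hnP
  clear_value a b EQ ER
  generalize gabs kap = gk at *
  generalize gabs b.x = gbx at *
  generalize gabs b.u = gbu at *
  generalize bp T F.eu = B at *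
  generalize nq (fun _ => 1) 0 c.R = nR at *
  generalize nq (fun _ => 1) 0 c.P = nP at *
  generalize nq (fun _ => 1) F.t0 c.Q = nQ at *
  generalize enr (fun _ => 1) G c.P F.t0 c.Q.length = en at *
  generalize cr c.Q c.R = C at *
  generalize ‖z‖ = Z at *
  simp only [linZ, GI.toC, Complex.mul_re, Complex.mul_im, Complex.conj_re, Complex.conj_im,
    Complex.add_re, Complex.add_im, Complex.sub_re, Complex.sub_im, hxc, Complex.re_ofNat,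
    Complex.im_ofNat] at *
  push_cast at *
  have h12 : (b.z.r : ℝ) * Z ^ 2 = (b.z.r : ℝ) * (z.re * z.re + z.im * z.im) := by rw [hzz]
  linarith

def CellZ.good (a : ℕ) (F : Fam) (C : CellZ) : Bool :=
  C.ok F && C.okT a && (C.c00.Q.length == C.c00.R.length) && (C.c10.Q.length == C.c10.R.length) &&
    (C.c01.Q.length == C.c01.R.length) && (C.c11.Q.length == C.c11.R.length) &&
    decide (0 ≤ C.a1) && decide (0 ≤ C.a2)

theorem SZ.le_T {t : ℝ} {x : ℂ} {a : ℕ} (ha : 0 < a) (t0 : 0 ≤ t) (t1 : t ≤ 1)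
    (hx : ‖x‖ = t ^ a) (C : CellZ) (hT : C.okT a = true) (h1 : 0 ≤ C.a1) (h2 : 0 ≤ C.a2)
    (hin : InBox C.a1 C.b1 C.a2 C.b2 x) : t ≤ C.T / 10 ^ 4 := by
  obtain ⟨i1, i2, i3, i4⟩ := hin
  unfold CellZ.okT at hT
  rw [Bool.or_eq_true, decide_eq_true_eq, decide_eq_true_eq] at hT
  rcases hT with hT | hT
  · have : (10 ^ 4 : ℝ) ≤ (C.T : ℝ) := by exact_mod_cast hT
    rw [le_div_iff₀ (by positivity)]
    nlinarith
  · have h1' : (0 : ℝ) ≤ (C.a1 : ℝ) := by exact_mod_cast h1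
    have h2' : (0 : ℝ) ≤ (C.a2 : ℝ) := by exact_mod_cast h2
    have hT' : ((C.b1 : ℝ) * C.b1 + (C.b2 : ℝ) * C.b2) * 10 ^ (8 * a - 4) ≤ (C.T : ℝ) ^ (2 * a) := by
      exact_mod_cast hT
    have hxx : ‖x‖ ^ 2 = x.re * x.re + x.im * x.im := by
      rw [← Complex.normSq_eq_norm_sq, Complex.normSq_apply]
    have hre : 0 ≤ x.re := le_trans (by positivity) i1
    have him : 0 ≤ x.im := le_trans (by positivity) i3
    have hb : ‖x‖ ^ 2 ≤ ((C.b1 : ℝ) * C.b1 + (C.b2 : ℝ) * C.b2) / 10 ^ 4 := by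
      rw [hxx]
      have e1 : x.re * x.re ≤ ((C.b1 : ℝ) / 100) * ((C.b1 : ℝ) / 100) :=
        mul_self_le_mul_self hre i2
      have e2 : x.im * x.im ≤ ((C.b2 : ℝ) / 100) * ((C.b2 : ℝ) / 100) :=
        mul_self_le_mul_self him i4
      have e3 : ((C.b1 : ℝ) * C.b1 + (C.b2 : ℝ) * C.b2) / 10 ^ 4
          = ((C.b1 : ℝ) / 100) * ((C.b1 : ℝ) / 100) + ((C.b2 : ℝ) / 100) * ((C.b2 : ℝ) / 100) := by
        ring
      rw [e3]
      linarith
    have hpow : t ^ (2 * a) ≤ ((C.T : ℝ) / 10 ^ 4) ^ (2 * a) := by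
      have e1 : t ^ (2 * a) = ‖x‖ ^ 2 := by rw [hx, ← pow_mul, mul_comm]
      rw [e1]
      refine hb.trans ?_
      rw [div_pow, le_div_iff₀ (by positivity), div_mul_eq_mul_div, div_le_iff₀ (by positivity)]
      have e2 : ((10 : ℝ) ^ 4) ^ (2 * a) = 10 ^ (8 * a - 4) * 10 ^ 4 := by
        rw [← pow_mul, ← pow_add]
        congr 1
        omega
      rw [e2]
      calc ((C.b1 : ℝ) * C.b1 + (C.b2 : ℝ) * C.b2) * (10 ^ (8 * a - 4) * 10 ^ 4)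
          = (((C.b1 : ℝ) * C.b1 + (C.b2 : ℝ) * C.b2) * 10 ^ (8 * a - 4)) * 10 ^ 4 := by ring
        _ ≤ (C.T : ℝ) ^ (2 * a) * 10 ^ 4 := mul_le_mul_of_nonneg_right hT' (by positivity)
    exact le_of_pow_le_pow_left₀ (by omega) (by positivity) hpow

theorem SZ.okZ_le {L J e tot : ℤ} {w : GI} (h : okZ L (J, w, e, tot) = true) (Z : ℝ) :
    ((L : ℝ) + 10 ^ 15) / 10 ^ 18
      ≤ (J : ℝ) / 10 ^ 18 + (e : ℝ) / 10 ^ 18 * Z ^ 2 - (tot : ℝ) / 10 ^ 18 * Z := by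
  unfold okZ at h
  simp only [Bool.and_eq_true, decide_eq_true_eq] at h
  obtain ⟨⟨he, ht⟩, hd⟩ := h
  have he' : (0 : ℝ) < (e : ℝ) := by exact_mod_cast he
  have hd' : (tot : ℝ) * tot ≤ 4 * e * ((J : ℝ) - L - 10 ^ 15) := by exact_mod_cast hd
  have key : 0 ≤ (J : ℝ) - L - 10 ^ 15 + e * Z ^ 2 - tot * Z := by
    have h1 : 0 ≤ 4 * (e : ℝ) * ((J : ℝ) - L - 10 ^ 15 + e * Z ^ 2 - tot * Z) := by
      nlinarith [sq_nonneg (2 * (e : ℝ) * Z - tot)]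
    exact nonneg_of_mul_nonneg_right h1 (by positivity)
  have e1 : (J : ℝ) / 10 ^ 18 + (e : ℝ) / 10 ^ 18 * Z ^ 2 - (tot : ℝ) / 10 ^ 18 * Z
      - ((L : ℝ) + 10 ^ 15) / 10 ^ 18
      = ((J : ℝ) - L - 10 ^ 15 + e * Z ^ 2 - tot * Z) / 10 ^ 18 := by ring
  have : 0 ≤ ((J : ℝ) - L - 10 ^ 15 + e * Z ^ 2 - tot * Z) / 10 ^ 18 := by positivity
  linarith

theorem SZ.dist_le {a1 b1 a2 b2 dg p q : ℤ} {x : ℂ} (hin : InBox a1 b1 a2 b2 x)
    (hp : p = a1 ∨ p = b1) (hq : q = a2 ∨ q = b2) (h0 : 0 ≤ dg)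
    (hd : (b1 - a1) * (b1 - a1) + (b2 - a2) * (b2 - a2) ≤ dg * dg) :
    ‖x - ⟨(p : ℝ) / 100, (q : ℝ) / 100⟩‖ ≤ (dg : ℝ) / 100 := by
  obtain ⟨i1, i2, i3, i4⟩ := hin
  have h0' : (0 : ℝ) ≤ (dg : ℝ) := by exact_mod_cast h0
  have hd' : ((b1 : ℝ) - a1) * (b1 - a1) + ((b2 : ℝ) - a2) * (b2 - a2) ≤ (dg : ℝ) * dg := by
    exact_mod_cast hd
  have e1 : (x.re - (p : ℝ) / 100) ^ 2 ≤ (((b1 : ℝ) - a1) / 100) ^ 2 := by
    apply sq_le_sq'
    · rcases hp with rfl | rfl <;> linarith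
    · rcases hp with rfl | rfl <;> linarith
  have e2 : (x.im - (q : ℝ) / 100) ^ 2 ≤ (((b2 : ℝ) - a2) / 100) ^ 2 := by
    apply sq_le_sq'
    · rcases hq with rfl | rfl <;> linarith
    · rcases hq with rfl | rfl <;> linarith
  have e3 : ‖x - ⟨(p : ℝ) / 100, (q : ℝ) / 100⟩‖ ^ 2 ≤ ((dg : ℝ) / 100) ^ 2 := by
    rw [← Complex.normSq_eq_norm_sq, Complex.normSq_apply]
    simp only [Complex.sub_re, Complex.sub_im]
    nlinarith
  exact le_of_pow_le_pow_left₀ two_ne_zero (by positivity) e3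

/-- **Z4.** -/
theorem CellZ.sound {F : Fam} {K2 t : ℝ} {G : ℤ → ℂ} {x v u y z : ℂ} {a : ℕ} (ha : 0 < a)
    (hG : GOK F K2 G t x v u y z) (hwf : F.wf = fun _ => 1) (hl : 0 ≤ F.l2R)
    (hx : ‖x‖ = t ^ a) (C : CellZ)
    (hC : C.good a F = true)
    (hE : ∀ c ∈ [C.c00, C.c10, C.c01, C.c11],
      enr F.wf G c.P F.t0 c.Q.length ≤ K2 * (nrmP c.P : ℝ))
    (hin : InBox C.a1 C.b1 C.a2 C.b2 x) : 1 / 1000 ≤ linZ F x v u y z := by
  unfold CellZ.good at hC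
  simp only [Bool.and_eq_true, decide_eq_true_eq, beq_iff_eq] at hC
  obtain ⟨⟨⟨⟨⟨⟨⟨hok, hT⟩, l00⟩, l10⟩, l01⟩, l11⟩, ha1⟩, ha2⟩ := hC
  have ht := SZ.le_T ha hG.t0 hG.t1 hx C hT ha1 ha2 hin
  unfold CellZ.ok at hok
  simp only [Bool.and_eq_true, decide_eq_true_eq] at hok
  obtain ⟨⟨⟨⟨⟨o00, o10⟩, o01⟩, o11⟩, hdd⟩, hd0⟩ := hok
  have c00 := cornerZ_sound hG hwf hl ht C.c00 l00 (hE _ (by simp)) C.a1 C.a2 C.dg
    (SZ.dist_le hin (Or.inl rfl) (Or.inl rfl) hd0 hdd)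
  have c10 := cornerZ_sound hG hwf hl ht C.c10 l10 (hE _ (by simp)) C.b1 C.a2 C.dg
    (SZ.dist_le hin (Or.inr rfl) (Or.inl rfl) hd0 hdd)
  have c01 := cornerZ_sound hG hwf hl ht C.c01 l01 (hE _ (by simp)) C.a1 C.b2 C.dg
    (SZ.dist_le hin (Or.inl rfl) (Or.inr rfl) hd0 hdd)
  have c11 := cornerZ_sound hG hwf hl ht C.c11 l11 (hE _ (by simp)) C.b1 C.b2 C.dg
    (SZ.dist_le hin (Or.inr rfl) (Or.inr rfl) hd0 hdd)
  generalize cornerZ F C.T C.dg C.a1 C.a2 C.c00 = r00 at *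
  generalize cornerZ F C.T C.dg C.b1 C.a2 C.c10 = r10 at *
  generalize cornerZ F C.T C.dg C.a1 C.b2 C.c01 = r01 at *
  generalize cornerZ F C.T C.dg C.b1 C.b2 C.c11 = r11 at *
  obtain ⟨J00, w00, e00, t00⟩ := r00
  obtain ⟨J10, w10, e10, t10⟩ := r10
  obtain ⟨J01, w01, e01, t01⟩ := r01
  obtain ⟨J11, w11, e11, t11⟩ := r11
  have z00 := SZ.okZ_le o00 ‖z‖
  have z10 := SZ.okZ_le o10 ‖z‖
  have z01 := SZ.okZ_le o01 ‖z‖
  have z11 := SZ.okZ_le o11 ‖z‖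
  simp only at c00 c10 c01 c11 z00 z10 z01 z11
  set L := mixLoss (C.b1 - C.a1) (C.b2 - C.a2) w00 w10 w01 w11 with hL
  set M1 : ℤ := max 0 (max (w10.r - w00.r) (w11.r - w01.r)) with hM1
  set M2 : ℤ := max 0 (max (w00.i - w01.i) (w10.i - w11.i)) with hM2
  have hL' : (L : ℝ) = 250000 * (((C.b1 : ℝ) - C.a1) * (M1 : ℝ) + ((C.b2 : ℝ) - C.a2) * (M2 : ℝ)) := by
    have : L = 250000 * ((C.b1 - C.a1) * M1 + (C.b2 - C.a2) * M2) := rfl
    rw [this]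
    push_cast
    ring
  have m1 : w10.r - w00.r ≤ M1 := (le_max_left _ _).trans (le_max_right _ _)
  have m1' : w11.r - w01.r ≤ M1 := (le_max_right _ _).trans (le_max_right _ _)
  have m2 : w00.i - w01.i ≤ M2 := (le_max_left _ _).trans (le_max_right _ _)
  have m2' : w10.i - w11.i ≤ M2 := (le_max_right _ _).trans (le_max_right _ _)
  have n1 : 0 ≤ M1 := le_max_left _ _
  have n2 : 0 ≤ M2 := le_max_left _ _
  clear_value L M1 M2
  have m1r : (w10.r : ℝ) - w00.r ≤ M1 := by exact_mod_cast m1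
  have m1r' : (w11.r : ℝ) - w01.r ≤ M1 := by exact_mod_cast m1'
  have m2r : (w00.i : ℝ) - w01.i ≤ M2 := by exact_mod_cast m2
  have m2r' : (w10.i : ℝ) - w11.i ≤ M2 := by exact_mod_cast m2'
  have n1r : (0 : ℝ) ≤ M1 := by exact_mod_cast n1
  have n2r : (0 : ℝ) ≤ M2 := by exact_mod_cast n2
  obtain ⟨i1, i2, i3, i4⟩ := hin
  set A0 : ℝ := -((F.l1R : ℝ) / 100) * v.re - (F.l2L : ℝ) / 100 * u.re
    + (F.l2R : ℝ) / 100 * (z * u).re with hA0
  have hlin : ∀ p q : ℝ, linZ F ⟨p, q⟩ v u y z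
      = A0 + ((F.l1L : ℝ) / 100 * y.re) * p + (-((F.l1L : ℝ) / 100 * y.im)) * q := by
    intro p q
    simp only [linZ, hA0, Complex.mul_re]
    ring
  rw [hlin] at c00 c10 c01 c11
  have hgoal : linZ F x v u y z
      = A0 + ((F.l1L : ℝ) / 100 * y.re) * x.re + (-((F.l1L : ℝ) / 100 * y.im)) * x.im := by
    rw [← hlin]
  rw [hgoal]
  clear_value A0
  simp only [GI.toC, Complex.mul_re, Complex.sub_re, Complex.sub_im] at c00 c10 c01 c11
  refine mix (a1 := (C.a1 : ℝ) / 100) (b1 := (C.b1 : ℝ) / 100) (a2 := (C.a2 : ℝ) / 100)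
    (b2 := (C.b2 : ℝ) / 100) i1 i2 i3 i4
    (J00 := ((L : ℝ) + 10 ^ 15) / 10 ^ 18) (J10 := ((L : ℝ) + 10 ^ 15) / 10 ^ 18)
    (J01 := ((L : ℝ) + 10 ^ 15) / 10 ^ 18) (J11 := ((L : ℝ) + 10 ^ 15) / 10 ^ 18)
    (r00 := (w00.r : ℝ) / 10 ^ 10) (r10 := (w10.r : ℝ) / 10 ^ 10)
    (r01 := (w01.r : ℝ) / 10 ^ 10) (r11 := (w11.r : ℝ) / 10 ^ 10)
    (i00 := (w00.i : ℝ) / 10 ^ 10) (i10 := (w10.i : ℝ) / 10 ^ 10)
    (i01 := (w01.i : ℝ) / 10 ^ 10) (i11 := (w11.i : ℝ) / 10 ^ 10)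
    (M1 := (M1 : ℝ) / 10 ^ 10) (M2 := (M2 : ℝ) / 10 ^ 10)
    ?_ ?_ ?_ ?_ (by positivity) ?_ ?_ (by positivity) ?_ ?_ ?_ ?_ ?_ ?_
  · linarith
  · linarith
  · linarith
  · linarith
  · linarith
  · linarith
  · linarith
  · linarith
  · rw [hL']; apply le_of_eq; ring
  · rw [hL']; apply le_of_eq; ring
  · rw [hL']; apply le_of_eq; ring
  · rw [hL']; apply le_of_eq; ring

end MaxTerm.Inc
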