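import Pool.Agent.MaxTerm.Inc.Sound
import Pool.Agent.MaxTerm.Inc.SoundZ
import Pool.Agent.MaxTerm.Inc.Energy

/-! # Circle families `(1,2,3)`, `(1,3,4)`, `(2,3,5)`, `(1,2,4)`: normalisation and reduction to cells -/

open scoped ComplexConjugate

namespace MaxTerm.Inc

/-- **C1.** rotation of a window. -/
theorem IsLeft.rotate {K : ℝ} {a k : ℕ} {c : ℤ → ℂ} {t : ℝ} (h : IsLeft K a k c t) {ω : ℂ}
    (hω : ‖ω‖ = 1) (hk : ω ^ k = 1) : IsLeft K a k (fun n => ω ^ n * c n) t := by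
  have hn : ∀ n : ℤ, ‖ω ^ n * c n‖ = ‖c n‖ := by
    intro n
    rw [norm_mul, norm_zpow, hω, one_zpow, one_mul]
  refine ⟨⟨?_, ?_, ?_, ?_, ?_⟩, h.t_pos, h.t_le, ?_, ?_⟩
  · simp only [zpow_zero, one_mul]
    exact h.win.c_zero
  · simp only [zpow_natCast, hk, one_mul]
    exact h.win.c_edge
  · intro n
    rw [hn n]
    exact h.win.norm_le n
  · refine h.win.summable.congr fun n => ?_
    exact (hn n).symm
  · intro z hz
    have h1 := h.win.bound (ω * z) (by rw [norm_mul, hω, hz, one_mul])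
    have h2 : (fun n : ℤ => ω ^ n * c n * z ^ n) = fun n : ℤ => c n * (ω * z) ^ n := by
      funext n
      rw [mul_zpow]
      ring
    simp only [h2]
    exact h1
  · rw [hn]
    exact h.norm_x
  · intro n
    rw [hn]
    exact h.newton n

/-- **C2.** complex conjugation. -/
theorem IsLeft.conj {K : ℝ} {a k : ℕ} {c : ℤ → ℂ} {t : ℝ} (h : IsLeft K a k c t) :
    IsLeft K a k (fun n => conj (c n)) t := by
  have hn : ∀ n : ℤ, ‖conj (c n)‖ = ‖c n‖ := fun n => Complex.norm_conj _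
  refine ⟨⟨?_, ?_, ?_, ?_, ?_⟩, h.t_pos, h.t_le, ?_, ?_⟩
  · simp only [h.win.c_zero, map_one]
  · simp only [h.win.c_edge, map_one]
  · intro n
    rw [hn n]
    exact h.win.norm_le n
  · refine h.win.summable.congr fun n => ?_
    exact (hn n).symm
  · intro z hz
    have h1 := h.win.bound (conj z) (by rw [Complex.norm_conj, hz])
    have h2 : (fun n : ℤ => conj (c n) * z ^ n) = fun n : ℤ => conj (c n * (conj z) ^ n) := by
      funext n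
      rw [map_mul, map_zpow₀, Complex.conj_conj]
    have h3 : ∑' n : ℤ, conj (c n * (conj z) ^ n) = conj (∑' n : ℤ, c n * (conj z) ^ n) :=
      (Complex.conj_tsum _).symm
    simp only [h2, h3, Complex.norm_conj]
    exact h1
  · rw [hn]
    exact h.norm_x
  · intro n
    rw [hn]
    exact h.newton n

/-- **C3.** -/
theorem Pot_rotate (a k b : ℕ) (c : ℤ → ℂ) {ω : ℂ} (hω : ‖ω‖ = 1) (hk : ω ^ k = 1) :
    Pot a k b (fun n => ω ^ n * c n) = Pot a k b c := by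
  have h0 : ω ≠ 0 := by
    intro h0
    rw [h0, norm_zero] at hω
    exact zero_ne_one hω
  have hk' : ω ^ (k : ℤ) = 1 := by rw [zpow_natCast]; exact hk
  have h1 : ω ^ ((k : ℤ) - b) * c ((k : ℤ) - b) * (ω ^ ((k : ℤ) + b) * c ((k : ℤ) + b)) =
      c ((k : ℤ) - b) * c ((k : ℤ) + b) := by
    have e : ω ^ ((k : ℤ) - b) * ω ^ ((k : ℤ) + b) = 1 := by
      rw [← zpow_add₀ h0]
      have e2 : (k : ℤ) - b + (k + b) = k + k := by ring
      rw [e2, zpow_add₀ h0, hk', one_mul]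
    calc _ = (ω ^ ((k : ℤ) - b) * ω ^ ((k : ℤ) + b)) * (c ((k : ℤ) - b) * c ((k : ℤ) + b)) := by
          ring
      _ = _ := by rw [e, one_mul]
  have h2 : ω ^ (2 * (k : ℤ)) * c (2 * (k : ℤ)) = c (2 * (k : ℤ)) := by
    rw [two_mul, zpow_add₀ h0, hk', one_mul, one_mul]
  have h3 : ω ^ (-(a : ℤ)) * c (-(a : ℤ)) * (ω ^ (a : ℤ) * c (a : ℤ)) =
      c (-(a : ℤ)) * c (a : ℤ) := by
    have e : ω ^ (-(a : ℤ)) * ω ^ (a : ℤ) = 1 := by
      rw [← zpow_add₀ h0, neg_add_cancel, zpow_zero]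
    calc _ = (ω ^ (-(a : ℤ)) * ω ^ (a : ℤ)) * (c (-(a : ℤ)) * c (a : ℤ)) := by ring
      _ = _ := by rw [e, one_mul]
  have h4 : ω ^ (-(k : ℤ)) * c (-(k : ℤ)) = c (-(k : ℤ)) := by
    rw [zpow_neg, hk', inv_one, one_mul]
  unfold Pot
  simp only [h1, h2, h3, h4]

/-- **C4.** -/
theorem Pot_conj (a k b : ℕ) (c : ℤ → ℂ) : Pot a k b (fun n => conj (c n)) = Pot a k b c := by
  unfold Pot
  simp only [← map_mul, Complex.conj_re]

/-- a root of modulus one. -/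
theorem exists_root {g : ℕ} (hg : 0 < g) {ζ : ℂ} (hζ : ‖ζ‖ = 1) : ∃ ω : ℂ, ‖ω‖ = 1 ∧ ω ^ g = ζ := by
  obtain ⟨ω, hω⟩ := IsAlgClosed.exists_pow_nat_eq ζ hg
  refine ⟨ω, ?_, hω⟩
  have h1 : ‖ω‖ ^ g = 1 := by rw [← norm_pow, hω, hζ]
  exact (pow_eq_one_iff_of_nonneg (norm_nonneg _) hg.ne').1 h1

/-- final conjugation of the normalisations. -/
theorem wlog_conj {K : ℝ} {a k b : ℕ} {c : ℤ → ℂ} {t : ℝ} (h : IsLeft K a k c t)
    (h0 : 0 ≤ (c (-(a : ℤ))).re) :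
    ∃ c' : ℤ → ℂ, IsLeft K a k c' t ∧ Pot a k b c' = Pot a k b c ∧
      (c' (-(a : ℤ))).re = (c (-(a : ℤ))).re ∧ 0 ≤ (c' (-(a : ℤ))).im ∧
      (c' (-(a : ℤ))).im ^ 2 = (c (-(a : ℤ))).im ^ 2 := by
  rcases le_total 0 (c (-(a : ℤ))).im with h1 | h1
  · exact ⟨c, h, rfl, rfl, h1, rfl⟩
  · refine ⟨fun n => conj (c n), h.conj, Pot_conj a k b c, ?_, ?_, ?_⟩
    · simp only [Complex.conj_re]
    · simp only [Complex.conj_im]
      linarith
    · simp only [Complex.conj_im]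
      ring

/-- **C5.** normalisation for gaps `(g, 2g)`. -/
theorem wlog2 {K : ℝ} {g b : ℕ} (hg : 0 < g) {c : ℤ → ℂ} {t : ℝ} (h : IsLeft K g (2 * g) c t) :
    ∃ c' : ℤ → ℂ, IsLeft K g (2 * g) c' t ∧ Pot g (2 * g) b c' = Pot g (2 * g) b c ∧
      0 ≤ (c' (-(g : ℤ))).re ∧ 0 ≤ (c' (-(g : ℤ))).im := by
  have key : ∃ c' : ℤ → ℂ, IsLeft K g (2 * g) c' t ∧ Pot g (2 * g) b c' = Pot g (2 * g) b c ∧
      0 ≤ (c' (-(g : ℤ))).re := by
    rcases le_total 0 (c (-(g : ℤ))).re with h1 | h1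
    · exact ⟨c, h, rfl, h1⟩
    · obtain ⟨ω, hω, hωg⟩ := exists_root hg (ζ := -1) (by simp)
      have hk : ω ^ (2 * g) = 1 := by
        rw [mul_comm, pow_mul, hωg]
        norm_num
      refine ⟨fun n => ω ^ n * c n, h.rotate hω hk, Pot_rotate g (2 * g) b c hω hk, ?_⟩
      have e : ω ^ (-(g : ℤ)) = -1 := by
        rw [zpow_neg, zpow_natCast, hωg]
        norm_num
      simp only [e]
      rw [neg_one_mul, Complex.neg_re]
      linarith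
  obtain ⟨c₁, h1, h2, h3⟩ := key
  obtain ⟨c₂, h4, h5, h6, h7, -⟩ := wlog_conj (b := b) h1 h3
  exact ⟨c₂, h4, h5.trans h2, by rw [h6]; exact h3, h7⟩

/-- Some rotation by a cube root of unity has argument in `[-π/3, π/3]`. -/
theorem exists_cube (x : ℂ) : ∃ ζ : ℂ, ‖ζ‖ = 1 ∧ ζ ^ 3 = 1 ∧ 0 ≤ (ζ * x).re ∧
    (ζ * x).im ^ 2 ≤ 3 * (ζ * x).re ^ 2 := by
  set w : ℂ := ⟨-1 / 2, Real.sqrt 3 / 2⟩ with hw
  have hs : Real.sqrt 3 ^ 2 = 3 := Real.sq_sqrt (by norm_num)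
  have hs' : Real.sqrt 3 * Real.sqrt 3 = 3 := Real.mul_self_sqrt (by norm_num)
  have hspos : 0 < Real.sqrt 3 := Real.sqrt_pos.2 (by norm_num)
  have hw3 : w ^ 3 = 1 := by
    apply Complex.ext
    · simp only [hw, pow_succ, pow_zero, one_mul, Complex.mul_re, Complex.mul_im, Complex.one_re]
      nlinarith
    · simp only [hw, pow_succ, pow_zero, one_mul, Complex.mul_re, Complex.mul_im, Complex.one_im]
      linear_combination (-(Real.sqrt 3) / 8) * hs'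
  have hwn : ‖w‖ = 1 := by
    have h1 : ‖w‖ ^ 3 = 1 := by rw [← norm_pow, hw3, norm_one]
    exact (pow_eq_one_iff_of_nonneg (norm_nonneg _) (by norm_num)).1 h1
  obtain ⟨i, -, hi⟩ := Finset.exists_max_image (Finset.univ : Finset (Fin 3))
    (fun i => (w ^ (i : ℕ) * x).re) ⟨0, Finset.mem_univ _⟩
  set ζ := w ^ (i : ℕ) with hζ
  have hζ3 : ζ ^ 3 = 1 := by rw [hζ, ← pow_mul, mul_comm, pow_mul, hw3, one_pow]
  have hζn : ‖ζ‖ = 1 := by rw [hζ, norm_pow, hwn, one_pow]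
  have hmul : ∀ j : Fin 3, ∃ j' : Fin 3, w ^ (j : ℕ) * ζ = w ^ (j' : ℕ) := by
    intro j
    refine ⟨⟨(j + i : ℕ) % 3, Nat.mod_lt _ (by norm_num)⟩, ?_⟩
    simp only [hζ, ← pow_add]
    conv_lhs => rw [← Nat.div_add_mod ((j : ℕ) + i) 3]
    rw [pow_add, pow_mul, hw3, one_pow, one_mul]
  have hle : ∀ j : Fin 3, (w ^ (j : ℕ) * (ζ * x)).re ≤ (ζ * x).re := by
    intro j
    obtain ⟨j', hj'⟩ := hmul j
    rw [← mul_assoc, hj']
    exact hi j' (Finset.mem_univ _)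
  have h1 := hle 1
  have h2 := hle 2
  have e1 : ((1 : Fin 3) : ℕ) = 1 := rfl
  have e2 : ((2 : Fin 3) : ℕ) = 2 := rfl
  rw [e1, pow_one] at h1
  rw [e2, pow_two] at h2
  set y := ζ * x with hy
  simp only [hw, Complex.mul_re, Complex.mul_im] at h1 h2
  refine ⟨ζ, hζn, hζ3, ?_, ?_⟩
  · rw [← hy]
    nlinarith
  · rw [← hy]
    have h3 : Real.sqrt 3 * y.im ≤ 3 * y.re := by nlinarith
    have h4 : -(Real.sqrt 3 * y.im) ≤ 3 * y.re := by nlinarith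
    have h5 : (Real.sqrt 3 * y.im) ^ 2 ≤ (3 * y.re) ^ 2 := sq_le_sq' (by linarith) h3
    nlinarith

/-- **C6.** normalisation for gaps `(a₀ g, 3g)`, `a₀ = 1, 2`. -/
theorem wlog3 {K : ℝ} {g b a₀ : ℕ} (hg : 0 < g) (ha : a₀ = 1 ∨ a₀ = 2) {c : ℤ → ℂ} {t : ℝ}
    (h : IsLeft K (a₀ * g) (3 * g) c t) :
    ∃ c' : ℤ → ℂ, IsLeft K (a₀ * g) (3 * g) c' t ∧
      Pot (a₀ * g) (3 * g) b c' = Pot (a₀ * g) (3 * g) b c ∧
      0 ≤ (c' (-((a₀ * g : ℕ) : ℤ))).re ∧ 0 ≤ (c' (-((a₀ * g : ℕ) : ℤ))).im ∧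
      (c' (-((a₀ * g : ℕ) : ℤ))).im ^ 2 ≤ 3 * (c' (-((a₀ * g : ℕ) : ℤ))).re ^ 2 := by
  obtain ⟨ζ, hζ, hζ3, hre, him⟩ := exists_cube (c (-((a₀ * g : ℕ) : ℤ)))
  have hζ0 : ζ ≠ 0 := by
    intro h0
    rw [h0, norm_zero] at hζ
    exact zero_ne_one hζ
  have key : ∃ ω : ℂ, ‖ω‖ = 1 ∧ ω ^ (3 * g) = 1 ∧ ω ^ (-((a₀ * g : ℕ) : ℤ)) = ζ := by
    rcases ha with rfl | rfl
    · obtain ⟨ω, hω, hωg⟩ := exists_root hg (ζ := ζ⁻¹) (by rw [norm_inv, hζ, inv_one])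
      refine ⟨ω, hω, ?_, ?_⟩
      · rw [mul_comm, pow_mul, hωg, inv_pow, hζ3, inv_one]
      · rw [zpow_neg, zpow_natCast, one_mul, hωg, inv_inv]
    · obtain ⟨ω, hω, hωg⟩ := exists_root hg (ζ := ζ) hζ
      refine ⟨ω, hω, ?_, ?_⟩
      · rw [mul_comm, pow_mul, hωg, hζ3]
      · rw [zpow_neg, zpow_natCast, mul_comm, pow_mul, hωg]
        rw [inv_eq_iff_eq_inv]
        refine (eq_inv_of_mul_eq_one_left ?_)
        rw [← pow_succ]
        exact hζ3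
  obtain ⟨ω, hω, hk, hωx⟩ := key
  have h1 := h.rotate hω hk
  have h2 : 0 ≤ ((fun n : ℤ => ω ^ n * c n) (-((a₀ * g : ℕ) : ℤ))).re := by
    simp only [hωx]
    exact hre
  obtain ⟨c₂, h4, h5, h6, h7, h8⟩ := wlog_conj (b := b) h1 h2
  refine ⟨c₂, h4, h5.trans (Pot_rotate _ _ _ c hω hk), by rw [h6]; exact h2, h7, ?_⟩
  rw [h6, h8]
  simp only [hωx]
  exact him

/-- the values of `G(n) = c(g n)` fit to `circSlot`. -/
theorem slot_circ {K : ℝ} {g a₀ k₀ : ℕ} {c : ℤ → ℂ} {t : ℝ}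
    (h : IsLeft K (a₀ * g) (k₀ * g) c t) (n : ℤ) :
    SlotOK (fun n => c ((g : ℤ) * n)) (t ^ g) (c (-((a₀ * g : ℕ) : ℤ))) (c (2 * ((k₀ * g : ℕ) : ℤ)))
      (c (-((k₀ * g : ℕ) : ℤ))) (c ((a₀ * g : ℕ) : ℤ))
      (c (((k₀ * g : ℕ) : ℤ) + (((a₀ + k₀) * g : ℕ) : ℤ))) n (circSlot a₀ k₀ n) := by
  unfold circSlot
  split_ifs with h1 h2 h3 h4 h5 h6 h7
  · simp only [SlotOK]
    rcases h1 with rfl | rfl
    · rw [mul_zero]
      exact h.win.c_zero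
    · have e : (g : ℤ) * (k₀ : ℤ) = ((k₀ * g : ℕ) : ℤ) := by push_cast; ring
      rw [e]
      exact h.win.c_edge
  · simp only [SlotOK, h2]
    congr 1
    push_cast
    ring
  · simp only [SlotOK, h3]
    congr 1
    push_cast
    ring
  · simp only [SlotOK, h4]
    congr 1
    push_cast
    ring
  · simp only [SlotOK, h5]
    congr 1
    push_cast
    ring
  · simp only [SlotOK, h6]
    congr 1
    push_cast
    ring
  · simp only [SlotOK]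
    have e : (g : ℤ) * n = -((g * (-n).toNat : ℕ) : ℤ) := by
      push_cast
      rw [Int.toNat_of_nonneg (by omega)]
      ring
    rw [e, ← pow_mul]
    exact h.newton _
  · simp only [SlotOK, pow_zero]
    exact h.win.norm_le _

/-- **C7.** a cell of a circle family with `b = a + k`. -/
theorem circ_pot {K : ℝ} {g a₀ k₀ : ℕ} (hg : 0 < g) (ha : 0 < a₀) (hak : a₀ < k₀) {c : ℤ → ℂ} {t : ℝ}
    (h : IsLeft K (a₀ * g) (k₀ * g) c t) (hK : K ^ 2 ≤ 2.92127) {F : Fam}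
    (hsf : F.sf = circSlot a₀ k₀) (hwf : F.wf = fun _ => 1) (heu : F.eu = k₀)
    (h1R : (F.l1R : ℝ) / 100 = 1) (h2R : (F.l2R : ℝ) / 100 = 1)
    (h1L : (F.l1L : ℝ) / 100 = if k₀ = 2 * a₀ then 0.76 else 1)
    (h2L : (F.l2L : ℝ) / 100 = if k₀ = 2 * a₀ then 1.2 else 1)
    (C : Cell) (hC : C.good a₀ F = true)
    (hin : InBox C.a1 C.b1 C.a2 C.b2 (c (-((a₀ * g : ℕ) : ℤ)))) :
    1 / 1000 ≤ Pot (a₀ * g) (k₀ * g) ((a₀ + k₀) * g) c := by
  have hG : GOK F (K ^ 2) (fun n => c ((g : ℤ) * n)) (t ^ g) (c (-((a₀ * g : ℕ) : ℤ)))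
      (c (2 * ((k₀ * g : ℕ) : ℤ))) (c (-((k₀ * g : ℕ) : ℤ))) (c ((a₀ * g : ℕ) : ℤ))
      (c (((k₀ * g : ℕ) : ℤ) + (((a₀ + k₀) * g : ℕ) : ℤ))) := by
    refine ⟨?_, pow_nonneg h.t_pos.le _, pow_le_one₀ h.t_pos.le h.t_le, h.win.norm_le _, ?_,
      h.win.norm_le _, h.win.norm_le _, hK⟩
    · intro n
      rw [hsf]
      exact slot_circ h n
    · rw [heu, ← pow_mul, mul_comm g k₀]
      exact h.newton _
  have hx : ‖c (-((a₀ * g : ℕ) : ℤ))‖ = (t ^ g) ^ a₀ := by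
    rw [h.norm_x, ← pow_mul, mul_comm g a₀]
  have hE : ∀ C' ∈ [C.c00, C.c10, C.c01, C.c11],
      enr F.wf (fun n => c ((g : ℤ) * n)) C'.P F.t0 C'.Q.length ≤ K ^ 2 * (nrmP C'.P : ℝ) := by
    intro C' _
    rw [hwf]
    exact enr_circle h.win hg _ _ _
  have h1 := Cell.sound ha hG hx C hC hE hin
  unfold lin at h1
  rw [h1R, h2R, h1L, h2L] at h1
  have e1 : ¬ (a₀ + k₀) * g = 2 * (k₀ * g) := by
    intro e
    have : (a₀ + k₀) * g = (2 * k₀) * g := by rw [e]; ring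
    have := Nat.eq_of_mul_eq_mul_right hg this
    omega
  have e2 : k₀ * g = 2 * (a₀ * g) ↔ k₀ = 2 * a₀ := by
    constructor
    · intro e
      have : k₀ * g = (2 * a₀) * g := by rw [e]; ring
      exact Nat.eq_of_mul_eq_mul_right hg this
    · rintro rfl
      ring
  have e3 : ((k₀ * g : ℕ) : ℤ) - (((a₀ + k₀) * g : ℕ) : ℤ) = -((a₀ * g : ℕ) : ℤ) := by
    push_cast
    ring
  unfold Pot lam1 lam2
  simp only [e1, e2, if_false, e3]
  linarith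

/-- **C8.** a cell of the family `(g, 2g, 4g)`. -/
theorem circZ_pot {K : ℝ} {g : ℕ} (hg : 0 < g) {c : ℤ → ℂ} {t : ℝ}
    (h : IsLeft K g (2 * g) c t) (hK : K ^ 2 ≤ 2.92127)
    (C : CellZ) (hC : C.good 1 fam124 = true)
    (hin : InBox C.a1 C.b1 C.a2 C.b2 (c (-(g : ℤ)))) :
    1 / 1000 ≤ Pot g (2 * g) (4 * g) c := by
  have hslot : ∀ n : ℤ, SlotOK (fun n => c ((g : ℤ) * n)) (t ^ g) (c (-(g : ℤ)))
      (c (2 * ((2 * g : ℕ) : ℤ))) (c (-((2 * g : ℕ) : ℤ))) (c (g : ℤ))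
      (c (((2 * g : ℕ) : ℤ) + ((4 * g : ℕ) : ℤ))) n (slot124 n) := by
    intro n
    unfold slot124
    split_ifs with h1 h2 h3 h4 h5 h6 h7
    · simp only [SlotOK]
      rcases h1 with rfl | rfl
      · rw [mul_zero]
        exact h.win.c_zero
      · have e : (g : ℤ) * 2 = ((2 * g : ℕ) : ℤ) := by push_cast; ring
        rw [e]
        exact h.win.c_edge
    · simp only [SlotOK, h2]
      congr 1
      ring
    · simp only [SlotOK, h3]
      congr 1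
      push_cast
      ring
    · simp only [SlotOK, h4]
      congr 1
      push_cast
      ring
    · simp only [SlotOK, h5]
      congr 1
      ring
    · simp only [SlotOK, h6]
      congr 1
      push_cast
      ring
    · simp only [SlotOK]
      have e : (g : ℤ) * n = -((g * (-n).toNat : ℕ) : ℤ) := by
        push_cast
        rw [Int.toNat_of_nonneg (by omega)]
        ring
      rw [e, ← pow_mul]
      exact h.newton _
    · simp only [SlotOK, pow_zero]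
      exact h.win.norm_le _
  have hG : GOK fam124 (K ^ 2) (fun n => c ((g : ℤ) * n)) (t ^ g) (c (-(g : ℤ)))
      (c (2 * ((2 * g : ℕ) : ℤ))) (c (-((2 * g : ℕ) : ℤ))) (c (g : ℤ))
      (c (((2 * g : ℕ) : ℤ) + ((4 * g : ℕ) : ℤ))) := by
    refine ⟨hslot, pow_nonneg h.t_pos.le _, pow_le_one₀ h.t_pos.le h.t_le, h.win.norm_le _, ?_,
      h.win.norm_le _, h.win.norm_le _, hK⟩
    have e : fam124.eu = 2 := rfl
    rw [e, ← pow_mul, mul_comm g 2]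
    exact h.newton _
  have hx : ‖c (-(g : ℤ))‖ = (t ^ g) ^ 1 := by
    rw [h.norm_x, pow_one]
  have hE : ∀ C' ∈ [C.c00, C.c10, C.c01, C.c11],
      enr fam124.wf (fun n => c ((g : ℤ) * n)) C'.P fam124.t0 C'.Q.length
        ≤ K ^ 2 * (nrmP C'.P : ℝ) := by
    intro C' _
    exact enr_circle h.win hg _ _ _
  have h1 := CellZ.sound (F := fam124) one_pos hG rfl (by decide) hx C hC hE hin
  unfold linZ at h1
  have l1 : fam124.l1R = 76 := rfl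
  have l2 : fam124.l2R = 120 := rfl
  have l3 : fam124.l1L = 76 := rfl
  have l4 : fam124.l2L = 120 := rfl
  rw [l1, l2, l3, l4] at h1
  have e1 : 4 * g = 2 * (2 * g) := by ring
  have e3 : ((2 * g : ℕ) : ℤ) - ((4 * g : ℕ) : ℤ) = -((2 * g : ℕ) : ℤ) := by
    push_cast
    ring
  unfold Pot lam1 lam2
  rw [if_pos e1, if_pos e1, if_pos rfl, if_pos rfl, e3,
    mul_comm (c (-((2 * g : ℕ) : ℤ))) (c (((2 * g : ℕ) : ℤ) + ((4 * g : ℕ) : ℤ)))]
  push_cast at h1 ⊢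
  linarith

end MaxTerm.Inc
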