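import Pool.Agent.MaxTerm.Inc.Circle

/-! # Auxiliary lemmas for the covers -/

namespace MaxTerm.Inc

theorem absurd1 {x : ℂ} {a1 a2 : ℤ} (h : (10000 : ℝ) < (a1 : ℝ) ^ 2 + (a2 : ℝ) ^ 2)
    (h1 : (0 : ℝ) ≤ a1) (h2 : (0 : ℝ) ≤ a2) (hx1 : (a1 : ℝ) / 100 ≤ x.re)
    (hx2 : (a2 : ℝ) / 100 ≤ x.im) (hn : x.re ^ 2 + x.im ^ 2 ≤ 1) : False := by
  have e1 : ((a1 : ℝ) / 100) ^ 2 ≤ x.re ^ 2 := pow_le_pow_left₀ (by positivity) hx1 2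
  have e2 : ((a2 : ℝ) / 100) ^ 2 ≤ x.im ^ 2 := pow_le_pow_left₀ (by positivity) hx2 2
  have e3 : ((a1 : ℝ) / 100) ^ 2 + ((a2 : ℝ) / 100) ^ 2 = ((a1 : ℝ) ^ 2 + (a2 : ℝ) ^ 2) / 10000 := by
    ring
  linarith

theorem absurd2 {x : ℂ} {b1 a2 : ℤ} (h : 3 * (b1 : ℝ) ^ 2 < (a2 : ℝ) ^ 2) (h2 : (0 : ℝ) ≤ a2)
    (hx1 : x.re ≤ (b1 : ℝ) / 100) (hx2 : (a2 : ℝ) / 100 ≤ x.im) (h0 : 0 ≤ x.re)
    (hs : x.im ^ 2 ≤ 3 * x.re ^ 2) : False := by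
  have e1 : x.re ^ 2 ≤ ((b1 : ℝ) / 100) ^ 2 := pow_le_pow_left₀ h0 hx1 2
  have e2 : ((a2 : ℝ) / 100) ^ 2 ≤ x.im ^ 2 := pow_le_pow_left₀ (by positivity) hx2 2
  have e3 : ((b1 : ℝ) / 100) ^ 2 = (b1 : ℝ) ^ 2 / 10000 := by ring
  have e4 : ((a2 : ℝ) / 100) ^ 2 = (a2 : ℝ) ^ 2 / 10000 := by ring
  rw [e3] at e1
  rw [e4] at e2
  linarith

theorem sq_add_sq_le_one {K : ℝ} {a k : ℕ} {c : ℤ → ℂ} {t : ℝ} (h : IsLeft K a k c t) (x : ℂ)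
    (hx : x = c (-(a : ℤ))) : x.re ^ 2 + x.im ^ 2 ≤ 1 := by
  have h1 : ‖x‖ ≤ 1 := hx ▸ h.win.norm_le _
  have h2 : ‖x‖ ^ 2 = x.re ^ 2 + x.im ^ 2 := by
    rw [← Complex.normSq_eq_norm_sq, Complex.normSq_apply]; ring
  rw [← h2]
  exact pow_le_one₀ (norm_nonneg _) h1

theorem upper_of_sq {x : ℂ} (hn : x.re ^ 2 + x.im ^ 2 ≤ 1) :
    x.re ≤ (((100 : ℤ) : ℝ)) / 100 ∧ x.im ≤ (((100 : ℤ) : ℝ)) / 100 := by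
  constructor
  · push_cast
    nlinarith [sq_nonneg x.im, sq_nonneg (x.re - 1)]
  · push_cast
    nlinarith [sq_nonneg x.re, sq_nonneg (x.im - 1)]

end MaxTerm.Inc
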