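import Pool.Agent.MaxTerm.Inc.Circle
import Pool.Agent.MaxTerm.Inc.D123_0
import Pool.Agent.MaxTerm.Inc.D123_1
import Pool.Agent.MaxTerm.Inc.D123_2
import Pool.Agent.MaxTerm.Inc.CovBase

/-! # Cover of the family `(1,2,3)` (generated) -/

open scoped ComplexConjugate

namespace MaxTerm.Inc

theorem pot_123 {K : ℝ} {g : ℕ} (hg : 0 < g) {c : ℤ → ℂ} {t : ℝ} (h : IsLeft K g (2 * g) c t)
    (hK : K ^ 2 ≤ 2.92127) : 1 / 1000 ≤ Pot g (2 * g) (3 * g) c := by
  obtain ⟨c', h', hP, hx0, hy0⟩ := wlog2 (b := 3 * g) hg h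
  rw [← hP]
  have key : ∀ C : Cell, C.good 1 fam123 = true → InBox C.a1 C.b1 C.a2 C.b2 (c' (-(g : ℤ))) →
      1 / 1000 ≤ Pot g (2 * g) (3 * g) c' := by
    intro C hC hin
    have h1 : IsLeft K (1 * g) (2 * g) c' t := by rwa [one_mul]
    have e := circ_pot (a₀ := 1) (k₀ := 2) hg one_pos (by norm_num) h1 hK (F := fam123) rfl rfl rfl
      (by norm_num [fam123]) (by norm_num [fam123]) (by norm_num [fam123]) (by norm_num [fam123]) C hC
      (by rwa [one_mul])
    rwa [one_mul] at e
  have hn := sq_add_sq_le_one h' _ rfl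
  generalize c' (-(g : ℤ)) = x at key hx0 hy0 hn
  obtain ⟨hu1, hu2⟩ := upper_of_sq hn
  have hx1 : (((0 : ℤ) : ℝ)) / 100 ≤ x.re := by push_cast; linarith
  have hx2 : (((0 : ℤ) : ℝ)) / 100 ≤ x.im := by push_cast; linarith
  rcases le_total x.re (((50 : ℤ) : ℝ) / 100) with s1 | s1
  · rcases le_total x.im (((50 : ℤ) : ℝ) / 100) with s2 | s2
    · rcases le_total x.re (((26 : ℤ) : ℝ) / 100) with s3 | s3
      · exact key c123_0 c123_0_good ⟨hx1, s3, hx2, s2⟩
      · rcases le_total x.im (((14 : ℤ) : ℝ) / 100) with s4 | s4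
        · rcases le_total x.re (((38 : ℤ) : ℝ) / 100) with s5 | s5
          · exact key c123_1 c123_1_good ⟨s3, s5, hx2, s4⟩
          · rcases le_total x.im (((8 : ℤ) : ℝ) / 100) with s6 | s6
            · rcases le_total x.re (((44 : ℤ) : ℝ) / 100) with s7 | s7
              · exact key c123_2 c123_2_good ⟨s5, s7, hx2, s6⟩
              · rcases le_total x.im (((4 : ℤ) : ℝ) / 100) with s8 | s8
                · rcases le_total x.re (((48 : ℤ) : ℝ) / 100) with s9 | s9
                  · exact key c123_3 c123_3_good ⟨s7, s9, hx2, s8⟩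
                  · exact key c123_4 c123_4_good ⟨s9, s1, hx2, s8⟩
                · exact key c123_5 c123_5_good ⟨s7, s1, s8, s6⟩
            · exact key c123_6 c123_6_good ⟨s5, s1, s6, s4⟩
        · rcases le_total x.im (((26 : ℤ) : ℝ) / 100) with s10 | s10
          · exact key c123_7 c123_7_good ⟨s3, s1, s4, s10⟩
          · exact key c123_8 c123_8_good ⟨s3, s1, s10, s2⟩
    · exact key c123_9 c123_9_good ⟨hx1, s1, s2, hu2⟩
  · rcases le_total x.im (((50 : ℤ) : ℝ) / 100) with s11 | s11
    · rcases le_total x.re (((76 : ℤ) : ℝ) / 100) with s12 | s12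
      · rcases le_total x.im (((26 : ℤ) : ℝ) / 100) with s13 | s13
        · rcases le_total x.re (((64 : ℤ) : ℝ) / 100) with s14 | s14
          · rcases le_total x.im (((14 : ℤ) : ℝ) / 100) with s15 | s15
            · rcases le_total x.re (((58 : ℤ) : ℝ) / 100) with s16 | s16
              · rcases le_total x.im (((4 : ℤ) : ℝ) / 100) with s17 | s17
                · rcases le_total x.re (((54 : ℤ) : ℝ) / 100) with s18 | s18
                  · exact key c123_10 c123_10_good ⟨s1, s18, hx2, s17⟩
                  · exact key c123_11 c123_11_good ⟨s18, s16, hx2, s17⟩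
                · rcases le_total x.im (((8 : ℤ) : ℝ) / 100) with s19 | s19
                  · exact key c123_12 c123_12_good ⟨s1, s16, s17, s19⟩
                  · exact key c123_13 c123_13_good ⟨s1, s16, s19, s15⟩
              · exact key c123_14 c123_14_good ⟨s16, s14, hx2, s15⟩
            · exact key c123_15 c123_15_good ⟨s1, s14, s15, s13⟩
          · exact key c123_16 c123_16_good ⟨s14, s12, hx2, s13⟩
        · exact key c123_17 c123_17_good ⟨s1, s12, s13, s11⟩
      · exact key c123_18 c123_18_good ⟨s12, hu1, hx2, s11⟩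
    · exact key c123_19 c123_19_good ⟨s1, hu1, s11, hu2⟩

end MaxTerm.Inc
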