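import Pool.Agent.MaxTerm.Inc.Circle
import Pool.Agent.MaxTerm.Inc.D124_0
import Pool.Agent.MaxTerm.Inc.D124_1
import Pool.Agent.MaxTerm.Inc.D124_2
import Pool.Agent.MaxTerm.Inc.D124_3
import Pool.Agent.MaxTerm.Inc.D124_4
import Pool.Agent.MaxTerm.Inc.CovBase

/-! # Cover of the family `(1,2,4)` (generated) -/

open scoped ComplexConjugate

namespace MaxTerm.Inc

theorem pot_124 {K : ℝ} {g : ℕ} (hg : 0 < g) {c : ℤ → ℂ} {t : ℝ} (h : IsLeft K g (2 * g) c t)
    (hK : K ^ 2 ≤ 2.92127) : 1 / 1000 ≤ Pot g (2 * g) (4 * g) c := by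
  obtain ⟨c', h', hP, hx0, hy0⟩ := wlog2 (b := 4 * g) hg h
  rw [← hP]
  have key : ∀ C : CellZ, C.good 1 fam124 = true → InBox C.a1 C.b1 C.a2 C.b2 (c' (-(g : ℤ))) →
      1 / 1000 ≤ Pot g (2 * g) (4 * g) c' := fun C hC hin => circZ_pot hg h' hK C hC hin
  have hn := sq_add_sq_le_one h' _ rfl
  generalize c' (-(g : ℤ)) = x at key hx0 hy0 hn
  obtain ⟨hu1, hu2⟩ := upper_of_sq hn
  have hx1 : (((0 : ℤ) : ℝ)) / 100 ≤ x.re := by push_cast; linarith
  have hx2 : (((0 : ℤ) : ℝ)) / 100 ≤ x.im := by push_cast; linarith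
  rcases le_total x.re (((50 : ℤ) : ℝ) / 100) with s1 | s1
  · rcases le_total x.im (((26 : ℤ) : ℝ) / 100) with s2 | s2
    · rcases le_total x.re (((26 : ℤ) : ℝ) / 100) with s3 | s3
      · exact key c124_0 c124_0_good ⟨hx1, s3, hx2, s2⟩
      · rcases le_total x.im (((14 : ℤ) : ℝ) / 100) with s4 | s4
        · exact key c124_2 c124_2_good ⟨s3, s1, hx2, s4⟩
        · rcases le_total x.re (((38 : ℤ) : ℝ) / 100) with s5 | s5
          · exact key c124_3 c124_3_good ⟨s3, s5, s4, s2⟩
          · rcases le_total x.re (((44 : ℤ) : ℝ) / 100) with s6 | s6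
            · exact key c124_4 c124_4_good ⟨s5, s6, s4, s2⟩
            · exact key c124_5 c124_5_good ⟨s6, s1, s4, s2⟩
    · rcases le_total x.im (((50 : ℤ) : ℝ) / 100) with s7 | s7
      · rcases le_total x.re (((38 : ℤ) : ℝ) / 100) with s8 | s8
        · rcases le_total x.re (((26 : ℤ) : ℝ) / 100) with s9 | s9
          · exact key c124_1 c124_1_good ⟨hx1, s9, s2, s7⟩
          · rcases le_total x.im (((38 : ℤ) : ℝ) / 100) with s10 | s10
            · exact key c124_6 c124_6_good ⟨s9, s8, s2, s10⟩
            · exact key c124_7 c124_7_good ⟨s9, s8, s10, s7⟩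
        · rcases le_total x.im (((38 : ℤ) : ℝ) / 100) with s11 | s11
          · exact key c124_8 c124_8_good ⟨s8, s1, s2, s11⟩
          · exact key c124_9 c124_9_good ⟨s8, s1, s11, s7⟩
      · rcases le_total x.re (((26 : ℤ) : ℝ) / 100) with s12 | s12
        · rcases le_total x.im (((76 : ℤ) : ℝ) / 100) with s13 | s13
          · exact key c124_10 c124_10_good ⟨hx1, s12, s7, s13⟩
          · exact key c124_11 c124_11_good ⟨hx1, s12, s13, hu2⟩
        · rcases le_total x.im (((76 : ℤ) : ℝ) / 100) with s14 | s14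
          · exact key c124_12 c124_12_good ⟨s12, s1, s7, s14⟩
          · exact key c124_13 c124_13_good ⟨s12, s1, s14, hu2⟩
  · rcases le_total x.im (((50 : ℤ) : ℝ) / 100) with s15 | s15
    · rcases le_total x.re (((64 : ℤ) : ℝ) / 100) with s16 | s16
      · rcases le_total x.im (((14 : ℤ) : ℝ) / 100) with s17 | s17
        · rcases le_total x.re (((54 : ℤ) : ℝ) / 100) with s18 | s18
          · rcases le_total x.im (((4 : ℤ) : ℝ) / 100) with s19 | s19
            · exact key c124_14 c124_14_good ⟨s1, s18, hx2, s19⟩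
            · rcases le_total x.im (((8 : ℤ) : ℝ) / 100) with s20 | s20
              · exact key c124_16 c124_16_good ⟨s1, s18, s19, s20⟩
              · exact key c124_18 c124_18_good ⟨s1, s18, s20, s17⟩
          · rcases le_total x.re (((58 : ℤ) : ℝ) / 100) with s21 | s21
            · rcases le_total x.im (((4 : ℤ) : ℝ) / 100) with s22 | s22
              · exact key c124_15 c124_15_good ⟨s18, s21, hx2, s22⟩
              · rcases le_total x.im (((8 : ℤ) : ℝ) / 100) with s23 | s23
                · exact key c124_17 c124_17_good ⟨s18, s21, s22, s23⟩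
                · exact key c124_19 c124_19_good ⟨s18, s21, s23, s17⟩
            · rcases le_total x.im (((8 : ℤ) : ℝ) / 100) with s24 | s24
              · exact key c124_20 c124_20_good ⟨s21, s16, hx2, s24⟩
              · exact key c124_21 c124_21_good ⟨s21, s16, s24, s17⟩
        · rcases le_total x.im (((26 : ℤ) : ℝ) / 100) with s25 | s25
          · rcases le_total x.re (((58 : ℤ) : ℝ) / 100) with s26 | s26
            · rcases le_total x.im (((20 : ℤ) : ℝ) / 100) with s27 | s27
              · rcases le_total x.re (((54 : ℤ) : ℝ) / 100) with s28 | s28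
                · exact key c124_22 c124_22_good ⟨s1, s28, s17, s27⟩
                · exact key c124_23 c124_23_good ⟨s28, s26, s17, s27⟩
              · exact key c124_24 c124_24_good ⟨s1, s26, s27, s25⟩
            · exact key c124_25 c124_25_good ⟨s26, s16, s17, s25⟩
          · rcases le_total x.im (((38 : ℤ) : ℝ) / 100) with s29 | s29
            · rcases le_total x.re (((58 : ℤ) : ℝ) / 100) with s30 | s30
              · exact key c124_28 c124_28_good ⟨s1, s30, s25, s29⟩
              · exact key c124_29 c124_29_good ⟨s30, s16, s25, s29⟩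
            · exact key c124_30 c124_30_good ⟨s1, s16, s29, s15⟩
      · rcases le_total x.re (((76 : ℤ) : ℝ) / 100) with s31 | s31
        · rcases le_total x.im (((14 : ℤ) : ℝ) / 100) with s32 | s32
          · exact key c124_26 c124_26_good ⟨s16, s31, hx2, s32⟩
          · rcases le_total x.im (((26 : ℤ) : ℝ) / 100) with s33 | s33
            · exact key c124_27 c124_27_good ⟨s16, s31, s32, s33⟩
            · exact key c124_31 c124_31_good ⟨s16, s31, s33, s15⟩
        · exact key c124_32 c124_32_good ⟨s31, hu1, hx2, s15⟩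
    · exact key c124_33 c124_33_good ⟨s1, hu1, s15, hu2⟩

end MaxTerm.Inc
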