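import Pool.Agent.MaxTerm.Inc.Circle
import Pool.Agent.MaxTerm.Inc.D134_0
import Pool.Agent.MaxTerm.Inc.D134_1
import Pool.Agent.MaxTerm.Inc.CovBase

/-! # Cover of the family `(1,3,4)` (generated) -/

open scoped ComplexConjugate

namespace MaxTerm.Inc

theorem pot_134 {K : ℝ} {g : ℕ} (hg : 0 < g) {c : ℤ → ℂ} {t : ℝ}
    (h : IsLeft K (1 * g) (3 * g) c t) (hK : K ^ 2 ≤ 2.92127) :
    1 / 1000 ≤ Pot (1 * g) (3 * g) (4 * g) c := by
  obtain ⟨c', h', hP, hx0, hy0, hsec⟩ := wlog3 (b := 4 * g) (a₀ := 1) hg (by norm_num) h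
  rw [← hP]
  have key : ∀ C : Cell, C.good 1 fam134 = true →
      InBox C.a1 C.b1 C.a2 C.b2 (c' (-((1 * g : ℕ) : ℤ))) →
      1 / 1000 ≤ Pot (1 * g) (3 * g) (4 * g) c' := by
    intro C hC hin
    exact circ_pot (a₀ := 1) (k₀ := 3) hg (by norm_num) (by norm_num) h' hK (F := fam134) rfl rfl rfl
      (by norm_num [fam134]) (by norm_num [fam134]) (by norm_num [fam134]) (by norm_num [fam134]) C hC hin
  have hn := sq_add_sq_le_one h' _ rfl
  generalize c' (-((1 * g : ℕ) : ℤ)) = x at key hx0 hy0 hsec hn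
  obtain ⟨hu1, hu2⟩ := upper_of_sq hn
  have hx1 : (((0 : ℤ) : ℝ)) / 100 ≤ x.re := by push_cast; linarith
  have hx2 : (((0 : ℤ) : ℝ)) / 100 ≤ x.im := by push_cast; linarith
  rcases le_total x.im (((50 : ℤ) : ℝ) / 100) with s1 | s1
  · rcases le_total x.re (((26 : ℤ) : ℝ) / 100) with s2 | s2
    · rcases le_total x.im (((26 : ℤ) : ℝ) / 100) with s3 | s3
      · exact key c134_0 c134_0_good ⟨hx1, s2, hx2, s3⟩
      · exact key c134_1 c134_1_good ⟨hx1, s2, s3, s1⟩
    · rcases le_total x.re (((50 : ℤ) : ℝ) / 100) with s4 | s4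
      · rcases le_total x.im (((26 : ℤ) : ℝ) / 100) with s5 | s5
        · exact key c134_2 c134_2_good ⟨s2, s4, hx2, s5⟩
        · rcases le_total x.re (((38 : ℤ) : ℝ) / 100) with s6 | s6
          · exact key c134_3 c134_3_good ⟨s2, s6, s5, s1⟩
          · exact key c134_4 c134_4_good ⟨s6, s4, s5, s1⟩
      · rcases le_total x.re (((76 : ℤ) : ℝ) / 100) with s7 | s7
        · exact key c134_9 c134_9_good ⟨s4, s7, hx2, s1⟩
        · exact key c134_10 c134_10_good ⟨s7, hu1, hx2, s1⟩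
  · rcases le_total x.re (((50 : ℤ) : ℝ) / 100) with s8 | s8
    · rcases le_total x.im (((64 : ℤ) : ℝ) / 100) with s9 | s9
      · rcases le_total x.re (((38 : ℤ) : ℝ) / 100) with s10 | s10
        · rcases le_total x.re (((26 : ℤ) : ℝ) / 100) with s11 | s11
          · exact (absurd2 (b1 := 26) (a2 := 50) (by norm_num) (by norm_num) s11 s1 hx0 hsec).elim
          · exact key c134_5 c134_5_good ⟨s11, s10, s1, s9⟩
        · exact key c134_6 c134_6_good ⟨s10, s8, s1, s9⟩
      · rcases le_total x.im (((76 : ℤ) : ℝ) / 100) with s12 | s12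
        · rcases le_total x.re (((26 : ℤ) : ℝ) / 100) with s13 | s13
          · exact (absurd2 (b1 := 26) (a2 := 64) (by norm_num) (by norm_num) s13 s9 hx0 hsec).elim
          · exact key c134_7 c134_7_good ⟨s13, s8, s9, s12⟩
        · rcases le_total x.re (((26 : ℤ) : ℝ) / 100) with s14 | s14
          · exact (absurd2 (b1 := 26) (a2 := 76) (by norm_num) (by norm_num) s14 s12 hx0 hsec).elim
          · exact key c134_8 c134_8_good ⟨s14, s8, s12, hu2⟩
    · exact key c134_11 c134_11_good ⟨s8, hu1, s1, hu2⟩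

end MaxTerm.Inc
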