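import Pool.Agent.MaxTerm.Inc.Circle
import Pool.Agent.MaxTerm.Inc.D235_0
import Pool.Agent.MaxTerm.Inc.D235_1
import Pool.Agent.MaxTerm.Inc.CovBase

/-! # Cover of the family `(2,3,5)` (generated) -/

open scoped ComplexConjugate

namespace MaxTerm.Inc

theorem pot_235 {K : ℝ} {g : ℕ} (hg : 0 < g) {c : ℤ → ℂ} {t : ℝ}
    (h : IsLeft K (2 * g) (3 * g) c t) (hK : K ^ 2 ≤ 2.92127) :
    1 / 1000 ≤ Pot (2 * g) (3 * g) (5 * g) c := by
  obtain ⟨c', h', hP, hx0, hy0, hsec⟩ := wlog3 (b := 5 * g) (a₀ := 2) hg (by norm_num) h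
  rw [← hP]
  have key : ∀ C : Cell, C.good 2 fam235 = true →
      InBox C.a1 C.b1 C.a2 C.b2 (c' (-((2 * g : ℕ) : ℤ))) →
      1 / 1000 ≤ Pot (2 * g) (3 * g) (5 * g) c' := by
    intro C hC hin
    exact circ_pot (a₀ := 2) (k₀ := 3) hg (by norm_num) (by norm_num) h' hK (F := fam235) rfl rfl rfl
      (by norm_num [fam235]) (by norm_num [fam235]) (by norm_num [fam235]) (by norm_num [fam235]) C hC hin
  have hn := sq_add_sq_le_one h' _ rfl
  generalize c' (-((2 * g : ℕ) : ℤ)) = x at key hx0 hy0 hsec hn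
  obtain ⟨hu1, hu2⟩ := upper_of_sq hn
  have hx1 : (((0 : ℤ) : ℝ)) / 100 ≤ x.re := by push_cast; linarith
  have hx2 : (((0 : ℤ) : ℝ)) / 100 ≤ x.im := by push_cast; linarith
  rcases le_total x.re (((50 : ℤ) : ℝ) / 100) with s1 | s1
  · rcases le_total x.re (((26 : ℤ) : ℝ) / 100) with s2 | s2
    · rcases le_total x.im (((50 : ℤ) : ℝ) / 100) with s3 | s3
      · exact key c235_0 c235_0_good ⟨hx1, s2, hx2, s3⟩
      · exact (absurd2 (b1 := 26) (a2 := 50) (by norm_num) (by norm_num) s2 s3 hx0 hsec).elim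
    · rcases le_total x.im (((26 : ℤ) : ℝ) / 100) with s4 | s4
      · exact key c235_1 c235_1_good ⟨s2, s1, hx2, s4⟩
      · rcases le_total x.im (((50 : ℤ) : ℝ) / 100) with s5 | s5
        · exact key c235_2 c235_2_good ⟨s2, s1, s4, s5⟩
        · exact key c235_3 c235_3_good ⟨s2, s1, s5, hu2⟩
  · rcases le_total x.im (((50 : ℤ) : ℝ) / 100) with s6 | s6
    · rcases le_total x.re (((76 : ℤ) : ℝ) / 100) with s7 | s7
      · rcases le_total x.im (((26 : ℤ) : ℝ) / 100) with s8 | s8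
        · rcases le_total x.re (((64 : ℤ) : ℝ) / 100) with s9 | s9
          · rcases le_total x.im (((14 : ℤ) : ℝ) / 100) with s10 | s10
            · exact key c235_4 c235_4_good ⟨s1, s9, hx2, s10⟩
            · exact key c235_5 c235_5_good ⟨s1, s9, s10, s8⟩
          · exact key c235_6 c235_6_good ⟨s9, s7, hx2, s8⟩
        · exact key c235_7 c235_7_good ⟨s1, s7, s8, s6⟩
      · exact key c235_8 c235_8_good ⟨s7, hu1, hx2, s6⟩
    · exact key c235_9 c235_9_good ⟨s1, hu1, s6, hu2⟩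

end MaxTerm.Inc
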