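import Pool.Agent.MaxTerm.Inc.DLat

/-! # Cover of the lattice family (generated) -/

open scoped ComplexConjugate

namespace MaxTerm.Inc

theorem pot_lat {K : ℝ} {a k : ℕ} (ha : 0 < a) (hak : a < k) (h2 : 2 * a ≠ k) (h3 : 3 * a ≠ k)
    (h3' : 3 * a ≠ 2 * k) {c : ℤ → ℂ} {t : ℝ} (h : IsLeft K a k c t) (hK : K ^ 2 ≤ 2.92127) :
    1 / 1000 ≤ Pot a k (a + k) c := by
  have key : ∀ C : Cell, C.good1 famLat = true → latOkP 29 C.c00.P = true →
      latOkP 29 C.c10.P = true → (C.a1 : ℝ) / 100 ≤ ‖c (-(a : ℤ))‖ →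
      ‖c (-(a : ℤ))‖ ≤ (C.b1 : ℝ) / 100 → 1 / 1000 ≤ Pot a k (a + k) c :=
    fun C h1 h4 h5 h6 h7 => lat_pot ha hak h2 h3 h3' h hK C h1 h4 h5 h6 h7
  have l0 : (((0 : ℤ) : ℝ)) / 100 ≤ ‖c (-(a : ℤ))‖ := by
    have := norm_nonneg (c (-(a : ℤ)))
    push_cast
    linarith
  have u0 : ‖c (-(a : ℤ))‖ ≤ (((100 : ℤ) : ℝ)) / 100 := by
    have := h.win.norm_le (-(a : ℤ))
    push_cast
    linarith
  generalize ‖c (-(a : ℤ))‖ = r at key l0 u0
  rcases le_total r (((25 : ℤ) : ℝ) / 100) with s1 | s1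
  · exact key clat_0 clat_0_good clat_0_ok0 clat_0_ok1 l0 s1
  rcases le_total r (((36 : ℤ) : ℝ) / 100) with s2 | s2
  · exact key clat_1 clat_1_good clat_1_ok0 clat_1_ok1 s1 s2
  rcases le_total r (((42 : ℤ) : ℝ) / 100) with s3 | s3
  · exact key clat_2 clat_2_good clat_2_ok0 clat_2_ok1 s2 s3
  rcases le_total r (((46 : ℤ) : ℝ) / 100) with s4 | s4
  · exact key clat_3 clat_3_good clat_3_ok0 clat_3_ok1 s3 s4
  rcases le_total r (((50 : ℤ) : ℝ) / 100) with s5 | s5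
  · exact key clat_4 clat_4_good clat_4_ok0 clat_4_ok1 s4 s5
  rcases le_total r (((56 : ℤ) : ℝ) / 100) with s6 | s6
  · exact key clat_5 clat_5_good clat_5_ok0 clat_5_ok1 s5 s6
  rcases le_total r (((65 : ℤ) : ℝ) / 100) with s7 | s7
  · exact key clat_6 clat_6_good clat_6_ok0 clat_6_ok1 s6 s7
  rcases le_total r (((80 : ℤ) : ℝ) / 100) with s8 | s8
  · exact key clat_7 clat_7_good clat_7_ok0 clat_7_ok1 s7 s8
  exact key clat_8 clat_8_good clat_8_ok0 clat_8_ok1 s8 u0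

end MaxTerm.Inc
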