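import Pool.Agent.MaxTerm.Inc.Lattice

/-! Certificates of the lattice family (generated). -/

namespace MaxTerm.Inc

def clat_0 : Cell := ⟨0, 25, 0, 0, 2500, ⟨[⟨-774, 0⟩, ⟨819, 0⟩, ⟨-21, 0⟩, ⟨0, 0⟩, ⟨0, 0⟩, ⟨0, 0⟩,
    ⟨0, 0⟩, ⟨-3301, 0⟩, ⟨-6935, 0⟩, ⟨24, 0⟩, ⟨0, 0⟩, ⟨0, 0⟩, ⟨0, 0⟩, ⟨0, 0⟩, ⟨15882, 0⟩, ⟨35982,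
    0⟩, ⟨182, 0⟩, ⟨0, 0⟩, ⟨0, 0⟩, ⟨0, 0⟩, ⟨0, 0⟩, ⟨2158, 0⟩, ⟨100092, 0⟩, ⟨-1175, 0⟩, ⟨0, 0⟩, ⟨0,
    0⟩, ⟨0, 0⟩, ⟨0, 0⟩, ⟨514, 0⟩, ⟨75007, 0⟩, ⟨-930, 0⟩], [⟨0, 0⟩, ⟨0, 0⟩, ⟨-5, 0⟩, ⟨0, 0⟩, ⟨0,
    0⟩, ⟨0, 0⟩, ⟨0, 0⟩, ⟨0, 0⟩, ⟨-2, 0⟩, ⟨15, 0⟩, ⟨14, 0⟩, ⟨7, 0⟩, ⟨0, 0⟩, ⟨0, 0⟩, ⟨1, 0⟩, ⟨-26,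
    0⟩, ⟨-227, 0⟩, ⟨-60, 0⟩, ⟨16, 0⟩, ⟨0, 0⟩, ⟨0, 0⟩, ⟨27, 0⟩, ⟨245, 0⟩, ⟨796, 0⟩, ⟨-21, 0⟩, ⟨-35,
    0⟩, ⟨0, 0⟩, ⟨0, 0⟩, ⟨-85, 0⟩, ⟨-585, 0⟩, ⟨1515, 0⟩, ⟨276, 0⟩, ⟨50, 0⟩, ⟨0, 0⟩, ⟨0, 0⟩, ⟨-252,
    0⟩, ⟨-5644, 0⟩, ⟨-11458, 0⟩, ⟨-513, 0⟩, ⟨-51, 0⟩, ⟨0, 0⟩, ⟨0, 0⟩, ⟨43, 0⟩, ⟨23250, 0⟩, ⟨57880,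
    0⟩, ⟨325, 0⟩, ⟨25, 0⟩, ⟨0, 0⟩, ⟨0, 0⟩, ⟨19, 0⟩, ⟨162, 0⟩, ⟨168889, 0⟩, ⟨1274, 0⟩, ⟨25, 0⟩, ⟨0,
    0⟩, ⟨0, 0⟩, ⟨-94, 0⟩, ⟨-1769, 0⟩, ⟨133094, 0⟩, ⟨2104, 0⟩, ⟨-61, 0⟩, ⟨0, 0⟩, ⟨0, 0⟩, ⟨75, 0⟩,
    ⟨436, 0⟩, ⟨531, 0⟩, ⟨-39, 0⟩, ⟨177, 0⟩, ⟨0, 0⟩, ⟨0, 0⟩, ⟨-3, 0⟩, ⟨71, 0⟩, ⟨-480, 0⟩, ⟨-227,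
    0⟩, ⟨-245, 0⟩, ⟨0, 0⟩, ⟨0, 0⟩, ⟨-49, 0⟩, ⟨-353, 0⟩, ⟨211, 0⟩, ⟨234, 0⟩, ⟨231, 0⟩, ⟨0, 0⟩, ⟨0,
    0⟩, ⟨50, 0⟩, ⟨358, 0⟩, ⟨-17, 0⟩, ⟨-123, 0⟩, ⟨-143, 0⟩, ⟨0, 0⟩, ⟨0, 0⟩, ⟨-21, 0⟩, ⟨-184, 0⟩,
    ⟨-33, 0⟩, ⟨28, 0⟩, ⟨49, 0⟩]⟩, ⟨[⟨708, 0⟩, ⟨548, 0⟩, ⟨-1075, 0⟩, ⟨0, 0⟩, ⟨0, 0⟩, ⟨0, 0⟩, ⟨0,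
    0⟩, ⟨-184, 0⟩, ⟨-7075, 0⟩, ⟨1792, 0⟩, ⟨0, 0⟩, ⟨0, 0⟩, ⟨0, 0⟩, ⟨0, 0⟩, ⟨-4199, 0⟩, ⟨26706, 0⟩,
    ⟨-1286, 0⟩, ⟨0, 0⟩, ⟨0, 0⟩, ⟨0, 0⟩, ⟨0, 0⟩, ⟨10179, 0⟩, ⟨83552, 0⟩, ⟨-6582, 0⟩, ⟨0, 0⟩, ⟨0,
    0⟩, ⟨0, 0⟩, ⟨0, 0⟩, ⟨927, 0⟩, ⟨107449, 0⟩, ⟨-1447, 0⟩], [⟨-1, 0⟩, ⟨-6, 0⟩, ⟨20, 0⟩, ⟨-54, 0⟩,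
    ⟨-260, 0⟩, ⟨0, 0⟩, ⟨0, 0⟩, ⟨3, 0⟩, ⟨22, 0⟩, ⟨-75, 0⟩, ⟨-471, 0⟩, ⟨652, 0⟩, ⟨0, 0⟩, ⟨0, 0⟩,
    ⟨-11, 0⟩, ⟨-74, 0⟩, ⟨-486, 0⟩, ⟨1260, 0⟩, ⟨-1134, 0⟩, ⟨0, 0⟩, ⟨0, 0⟩, ⟨-58, 0⟩, ⟨-162, 0⟩,
    ⟨1232, 0⟩, ⟨-176, 0⟩, ⟨291, 0⟩, ⟨0, 0⟩, ⟨0, 0⟩, ⟨158, 0⟩, ⟨1495, 0⟩, ⟨-244, 0⟩, ⟨-7162, 0⟩,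
    ⟨816, 0⟩, ⟨0, 0⟩, ⟨0, 0⟩, ⟨-693, 0⟩, ⟨-5117, 0⟩, ⟨-16581, 0⟩, ⟨16497, 0⟩, ⟨-1656, 0⟩, ⟨0, 0⟩,
    ⟨0, 0⟩, ⟨592, 0⟩, ⟨21574, 0⟩, ⟨93143, 0⟩, ⟨-23438, 0⟩, ⟨1655, 0⟩, ⟨0, 0⟩, ⟨0, 0⟩, ⟨156, 0⟩,
    ⟨-9854, 0⟩, ⟨191294, 0⟩, ⟨25434, 0⟩, ⟨-775, 0⟩, ⟨0, 0⟩, ⟨0, 0⟩, ⟨7, 0⟩, ⟨-805, 0⟩, ⟨93246, 0⟩,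
    ⟨-22006, 0⟩, ⟨-296, 0⟩, ⟨0, 0⟩, ⟨0, 0⟩, ⟨0, 0⟩, ⟨0, 0⟩, ⟨1, 0⟩, ⟨-1, 0⟩, ⟨-1, 0⟩, ⟨0, 0⟩, ⟨0,
    0⟩, ⟨0, 0⟩, ⟨0, 0⟩, ⟨-1, 0⟩, ⟨0, 0⟩, ⟨1, 0⟩, ⟨0, 0⟩, ⟨0, 0⟩, ⟨0, 0⟩, ⟨0, 0⟩, ⟨0, 0⟩, ⟨1, 0⟩,
    ⟨0, 0⟩, ⟨0, 0⟩, ⟨0, 0⟩, ⟨0, 0⟩, ⟨0, 0⟩, ⟨0, 0⟩, ⟨-1, 0⟩, ⟨0, 0⟩, ⟨0, 0⟩, ⟨0, 0⟩, ⟨0, 0⟩, ⟨0,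
    0⟩, ⟨0, 0⟩, ⟨0, 0⟩, ⟨0, 0⟩]⟩, ⟨[], []⟩, ⟨[], []⟩⟩

theorem clat_0_good : clat_0.good1 famLat = true := by decide +kernel

theorem clat_0_ok0 : latOkP 29 clat_0.c00.P = true := by decide +kernel

theorem clat_0_ok1 : latOkP 29 clat_0.c10.P = true := by decide +kernel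

def clat_1 : Cell := ⟨25, 36, 0, 0, 3600, ⟨[⟨1233, 0⟩, ⟨2254, 0⟩, ⟨-1587, 0⟩, ⟨0, 0⟩, ⟨0, 0⟩, ⟨0,
    0⟩, ⟨0, 0⟩, ⟨-247, 0⟩, ⟨-6606, 0⟩, ⟨1836, 0⟩, ⟨0, 0⟩, ⟨0, 0⟩, ⟨0, 0⟩, ⟨0, 0⟩, ⟨-3970, 0⟩,
    ⟨22888, 0⟩, ⟨-93, 0⟩, ⟨0, 0⟩, ⟨0, 0⟩, ⟨0, 0⟩, ⟨0, 0⟩, ⟨14271, 0⟩, ⟨86572, 0⟩, ⟨-7025, 0⟩, ⟨0,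
    0⟩, ⟨0, 0⟩, ⟨0, 0⟩, ⟨0, 0⟩, ⟨-1104, 0⟩, ⟨115677, 0⟩, ⟨1426, 0⟩], [⟨-8, 0⟩, ⟨-60, 0⟩, ⟨186, 0⟩,
    ⟨513, 0⟩, ⟨-533, 0⟩, ⟨0, 0⟩, ⟨0, 0⟩, ⟨33, 0⟩, ⟨193, 0⟩, ⟨214, 0⟩, ⟨-1445, 0⟩, ⟨905, 0⟩, ⟨0,
    0⟩, ⟨0, 0⟩, ⟨-44, 0⟩, ⟨-540, 0⟩, ⟨-1622, 0⟩, ⟨2519, 0⟩, ⟨-524, 0⟩, ⟨0, 0⟩, ⟨0, 0⟩, ⟨-317, 0⟩,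
    ⟨-1174, 0⟩, ⟨3657, 0⟩, ⟨2524, 0⟩, ⟨-466, 0⟩, ⟨0, 0⟩, ⟨0, 0⟩, ⟨777, 0⟩, ⟨4094, 0⟩, ⟨724, 0⟩,
    ⟨-7834, 0⟩, ⟨1685, 0⟩, ⟨0, 0⟩, ⟨0, 0⟩, ⟨-2227, 0⟩, ⟨-10853, 0⟩, ⟨-16759, 0⟩, ⟨14329, 0⟩,
    ⟨-2670, 0⟩, ⟨0, 0⟩, ⟨0, 0⟩, ⟨1462, 0⟩, ⟨37453, 0⟩, ⟨97256, 0⟩, ⟨-20035, 0⟩, ⟨2711, 0⟩, ⟨0, 0⟩,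
    ⟨0, 0⟩, ⟨-168, 0⟩, ⟨-8843, 0⟩, ⟨207256, 0⟩, ⟨19528, 0⟩, ⟨-1819, 0⟩, ⟨0, 0⟩, ⟨0, 0⟩, ⟨21, 0⟩,
    ⟨631, 0⟩, ⟨86239, 0⟩, ⟨-22585, 0⟩, ⟨297, 0⟩, ⟨0, 0⟩, ⟨0, 0⟩, ⟨-19, 0⟩, ⟨31, 0⟩, ⟨30, 0⟩, ⟨-58,
    0⟩, ⟨-40, 0⟩, ⟨0, 0⟩, ⟨0, 0⟩, ⟨3, 0⟩, ⟨29, 0⟩, ⟨-33, 0⟩, ⟨12, 0⟩, ⟨45, 0⟩, ⟨0, 0⟩, ⟨0, 0⟩, ⟨7,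
    0⟩, ⟨-35, 0⟩, ⟨21, 0⟩, ⟨21, 0⟩, ⟨-29, 0⟩, ⟨0, 0⟩, ⟨0, 0⟩, ⟨-7, 0⟩, ⟨15, 0⟩, ⟨-7, 0⟩, ⟨-29, 0⟩,
    ⟨9, 0⟩, ⟨0, 0⟩, ⟨0, 0⟩, ⟨3, 0⟩, ⟨-4, 0⟩, ⟨-2, 0⟩, ⟨17, 0⟩, ⟨2, 0⟩]⟩, ⟨[⟨1153, 0⟩, ⟨1759, 0⟩,
    ⟨-1252, 0⟩, ⟨0, 0⟩, ⟨0, 0⟩, ⟨0, 0⟩, ⟨0, 0⟩, ⟨-45, 0⟩, ⟨-6831, 0⟩, ⟨2145, 0⟩, ⟨0, 0⟩, ⟨0, 0⟩,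
    ⟨0, 0⟩, ⟨0, 0⟩, ⟨-8036, 0⟩, ⟨22443, 0⟩, ⟨-1185, 0⟩, ⟨0, 0⟩, ⟨0, 0⟩, ⟨0, 0⟩, ⟨0, 0⟩, ⟨13884,
    0⟩, ⟨83716, 0⟩, ⟨-8359, 0⟩, ⟨0, 0⟩, ⟨0, 0⟩, ⟨0, 0⟩, ⟨0, 0⟩, ⟨1181, 0⟩, ⟨123204, 0⟩, ⟨-111,
    0⟩], [⟨-11, 0⟩, ⟨-110, 0⟩, ⟨172, 0⟩, ⟨279, 0⟩, ⟨-664, 0⟩, ⟨0, 0⟩, ⟨0, 0⟩, ⟨40, 0⟩, ⟨174, 0⟩,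
    ⟨50, 0⟩, ⟨-1730, 0⟩, ⟨1444, 0⟩, ⟨0, 0⟩, ⟨0, 0⟩, ⟨66, 0⟩, ⟨-558, 0⟩, ⟨-1919, 0⟩, ⟨4047, 0⟩,
    ⟨-1053, 0⟩, ⟨0, 0⟩, ⟨0, 0⟩, ⟨-302, 0⟩, ⟨-1752, 0⟩, ⟨3824, 0⟩, ⟨622, 0⟩, ⟨4, 0⟩, ⟨0, 0⟩, ⟨0,
    0⟩, ⟨822, 0⟩, ⟨4184, 0⟩, ⟨72, 0⟩, ⟨-8794, 0⟩, ⟨1359, 0⟩, ⟨0, 0⟩, ⟨0, 0⟩, ⟨-2383, 0⟩, ⟨-11873,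
    0⟩, ⟨-18436, 0⟩, ⟨18665, 0⟩, ⟨-2498, 0⟩, ⟨0, 0⟩, ⟨0, 0⟩, ⟨688, 0⟩, ⟨35078, 0⟩, ⟨106187, 0⟩,
    ⟨-25807, 0⟩, ⟨2749, 0⟩, ⟨0, 0⟩, ⟨0, 0⟩, ⟨185, 0⟩, ⟨-10679, 0⟩, ⟨212068, 0⟩, ⟨25541, 0⟩,
    ⟨-1937, 0⟩, ⟨0, 0⟩, ⟨0, 0⟩, ⟨7, 0⟩, ⟨-781, 0⟩, ⟨81445, 0⟩, ⟨-29144, 0⟩, ⟨-26, 0⟩, ⟨0, 0⟩, ⟨0,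
    0⟩, ⟨0, 0⟩, ⟨0, 0⟩, ⟨1, 0⟩, ⟨-1, 0⟩, ⟨-1, 0⟩, ⟨0, 0⟩, ⟨0, 0⟩, ⟨0, 0⟩, ⟨0, 0⟩, ⟨-1, 0⟩, ⟨0, 0⟩,
    ⟨1, 0⟩, ⟨0, 0⟩, ⟨0, 0⟩, ⟨0, 0⟩, ⟨0, 0⟩, ⟨0, 0⟩, ⟨0, 0⟩, ⟨0, 0⟩, ⟨0, 0⟩, ⟨0, 0⟩, ⟨0, 0⟩, ⟨0,
    0⟩, ⟨0, 0⟩, ⟨0, 0⟩, ⟨0, 0⟩, ⟨0, 0⟩, ⟨0, 0⟩, ⟨0, 0⟩, ⟨0, 0⟩, ⟨0, 0⟩, ⟨0, 0⟩, ⟨0, 0⟩]⟩, ⟨[],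
    []⟩, ⟨[], []⟩⟩

theorem clat_1_good : clat_1.good1 famLat = true := by decide +kernel

theorem clat_1_ok0 : latOkP 29 clat_1.c00.P = true := by decide +kernel

theorem clat_1_ok1 : latOkP 29 clat_1.c10.P = true := by decide +kernel

def clat_2 : Cell := ⟨36, 42, 0, 0, 4200, ⟨[⟨1304, 0⟩, ⟨2647, 0⟩, ⟨-1363, 0⟩, ⟨0, 0⟩, ⟨0, 0⟩, ⟨0,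
    0⟩, ⟨0, 0⟩, ⟨211, 0⟩, ⟨-6569, 0⟩, ⟨2325, 0⟩, ⟨0, 0⟩, ⟨0, 0⟩, ⟨0, 0⟩, ⟨0, 0⟩, ⟨-8543, 0⟩,
    ⟨20864, 0⟩, ⟨-1190, 0⟩, ⟨0, 0⟩, ⟨0, 0⟩, ⟨0, 0⟩, ⟨0, 0⟩, ⟨15428, 0⟩, ⟨84677, 0⟩, ⟨-9079, 0⟩,
    ⟨0, 0⟩, ⟨0, 0⟩, ⟨0, 0⟩, ⟨0, 0⟩, ⟨1890, 0⟩, ⟨127695, 0⟩, ⟨-44, 0⟩], [⟨-45, 0⟩, ⟨-215, 0⟩, ⟨476,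
    0⟩, ⟨1204, 0⟩, ⟨-1081, 0⟩, ⟨0, 0⟩, ⟨0, 0⟩, ⟨77, 0⟩, ⟨452, 0⟩, ⟨740, 0⟩, ⟨-2834, 0⟩, ⟨1372, 0⟩,
    ⟨0, 0⟩, ⟨0, 0⟩, ⟨361, 0⟩, ⟨-1247, 0⟩, ⟨-3196, 0⟩, ⟨3954, 0⟩, ⟨-875, 0⟩, ⟨0, 0⟩, ⟨0, 0⟩, ⟨-523,
    0⟩, ⟨-3260, 0⟩, ⟨5371, 0⟩, ⟨1423, 0⟩, ⟨-128, 0⟩, ⟨0, 0⟩, ⟨0, 0⟩, ⟨1544, 0⟩, ⟨6655, 0⟩, ⟨492,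
    0⟩, ⟨-9246, 0⟩, ⟨1356, 0⟩, ⟨0, 0⟩, ⟨0, 0⟩, ⟨-3741, 0⟩, ⟨-15922, 0⟩, ⟨-18909, 0⟩, ⟨17869, 0⟩,
    ⟨-2422, 0⟩, ⟨0, 0⟩, ⟨0, 0⟩, ⟨571, 0⟩, ⟨40028, 0⟩, ⟨109136, 0⟩, ⟨-23179, 0⟩, ⟨2782, 0⟩, ⟨0, 0⟩,
    ⟨0, 0⟩, ⟨307, 0⟩, ⟨-11986, 0⟩, ⟨219515, 0⟩, ⟨24379, 0⟩, ⟨-1988, 0⟩, ⟨0, 0⟩, ⟨0, 0⟩, ⟨17, 0⟩,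
    ⟨-1166, 0⟩, ⟨78728, 0⟩, ⟨-28164, 0⟩, ⟨-9, 0⟩, ⟨0, 0⟩, ⟨0, 0⟩, ⟨0, 0⟩, ⟨0, 0⟩, ⟨0, 0⟩, ⟨-1, 0⟩,
    ⟨-1, 0⟩, ⟨0, 0⟩, ⟨0, 0⟩, ⟨0, 0⟩, ⟨0, 0⟩, ⟨-1, 0⟩, ⟨0, 0⟩, ⟨1, 0⟩, ⟨0, 0⟩, ⟨0, 0⟩, ⟨0, 0⟩, ⟨0,
    0⟩, ⟨0, 0⟩, ⟨0, 0⟩, ⟨0, 0⟩, ⟨0, 0⟩, ⟨0, 0⟩, ⟨0, 0⟩, ⟨0, 0⟩, ⟨0, 0⟩, ⟨0, 0⟩, ⟨0, 0⟩, ⟨0, 0⟩,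
    ⟨0, 0⟩, ⟨0, 0⟩, ⟨0, 0⟩, ⟨0, 0⟩, ⟨0, 0⟩, ⟨0, 0⟩]⟩, ⟨[⟨1302, 0⟩, ⟨2722, 0⟩, ⟨-1324, 0⟩, ⟨0, 0⟩,
    ⟨0, 0⟩, ⟨0, 0⟩, ⟨0, 0⟩, ⟨323, 0⟩, ⟨-6735, 0⟩, ⟨2366, 0⟩, ⟨0, 0⟩, ⟨0, 0⟩, ⟨0, 0⟩, ⟨0, 0⟩,
    ⟨-10600, 0⟩, ⟨20571, 0⟩, ⟨-1256, 0⟩, ⟨0, 0⟩, ⟨0, 0⟩, ⟨0, 0⟩, ⟨0, 0⟩, ⟨14700, 0⟩, ⟨83946, 0⟩,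
    ⟨-9366, 0⟩, ⟨0, 0⟩, ⟨0, 0⟩, ⟨0, 0⟩, ⟨0, 0⟩, ⟨2074, 0⟩, ⟨131688, 0⟩, ⟨-21, 0⟩], [⟨-49, 0⟩,
    ⟨-223, 0⟩, ⟨499, 0⟩, ⟨1101, 0⟩, ⟨-1096, 0⟩, ⟨0, 0⟩, ⟨0, 0⟩, ⟨28, 0⟩, ⟨473, 0⟩, ⟨622, 0⟩,
    ⟨-3033, 0⟩, ⟨1497, 0⟩, ⟨0, 0⟩, ⟨0, 0⟩, ⟨352, 0⟩, ⟨-1312, 0⟩, ⟨-3389, 0⟩, ⟨4596, 0⟩, ⟨-1041,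
    0⟩, ⟨0, 0⟩, ⟨0, 0⟩, ⟨-546, 0⟩, ⟨-3516, 0⟩, ⟨6082, 0⟩, ⟨715, 0⟩, ⟨-54, 0⟩, ⟨0, 0⟩, ⟨0, 0⟩,
    ⟨1633, 0⟩, ⟨6777, 0⟩, ⟨74, 0⟩, ⟨-9394, 0⟩, ⟨1436, 0⟩, ⟨0, 0⟩, ⟨0, 0⟩, ⟨-3917, 0⟩, ⟨-16698, 0⟩,
    ⟨-19527, 0⟩, ⟨19586, 0⟩, ⟨-2607, 0⟩, ⟨0, 0⟩, ⟨0, 0⟩, ⟨338, 0⟩, ⟨39959, 0⟩, ⟨113087, 0⟩,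
    ⟨-26559, 0⟩, ⟨2970, 0⟩, ⟨0, 0⟩, ⟨0, 0⟩, ⟨300, 0⟩, ⟨-11276, 0⟩, ⟨223109, 0⟩, ⟨25830, 0⟩,
    ⟨-2260, 0⟩, ⟨0, 0⟩, ⟨0, 0⟩, ⟨19, 0⟩, ⟨-1204, 0⟩, ⟨76439, 0⟩, ⟨-31880, 0⟩, ⟨-5, 0⟩, ⟨0, 0⟩, ⟨0,
    0⟩, ⟨0, 0⟩, ⟨0, 0⟩, ⟨0, 0⟩, ⟨-1, 0⟩, ⟨-1, 0⟩, ⟨0, 0⟩, ⟨0, 0⟩, ⟨0, 0⟩, ⟨0, 0⟩, ⟨0, 0⟩, ⟨0, 0⟩,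
    ⟨1, 0⟩, ⟨0, 0⟩, ⟨0, 0⟩, ⟨0, 0⟩, ⟨0, 0⟩, ⟨0, 0⟩, ⟨0, 0⟩, ⟨0, 0⟩, ⟨0, 0⟩, ⟨0, 0⟩, ⟨0, 0⟩, ⟨0,
    0⟩, ⟨0, 0⟩, ⟨0, 0⟩, ⟨0, 0⟩, ⟨0, 0⟩, ⟨0, 0⟩, ⟨0, 0⟩, ⟨0, 0⟩, ⟨0, 0⟩, ⟨0, 0⟩, ⟨0, 0⟩]⟩, ⟨[],
    []⟩, ⟨[], []⟩⟩

theorem clat_2_good : clat_2.good1 famLat = true := by decide +kernel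

theorem clat_2_ok0 : latOkP 29 clat_2.c00.P = true := by decide +kernel

theorem clat_2_ok1 : latOkP 29 clat_2.c10.P = true := by decide +kernel

def clat_3 : Cell := ⟨42, 46, 0, 0, 4600, ⟨[⟨1275, 0⟩, ⟨2644, 0⟩, ⟨-1255, 0⟩, ⟨0, 0⟩, ⟨0, 0⟩, ⟨0,
    0⟩, ⟨0, 0⟩, ⟨749, 0⟩, ⟨-6571, 0⟩, ⟨2363, 0⟩, ⟨0, 0⟩, ⟨0, 0⟩, ⟨0, 0⟩, ⟨0, 0⟩, ⟨-10640, 0⟩,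
    ⟨20256, 0⟩, ⟨-1354, 0⟩, ⟨0, 0⟩, ⟨0, 0⟩, ⟨0, 0⟩, ⟨0, 0⟩, ⟨14288, 0⟩, ⟨83640, 0⟩, ⟨-9526, 0⟩,
    ⟨0, 0⟩, ⟨0, 0⟩, ⟨0, 0⟩, ⟨0, 0⟩, ⟨2682, 0⟩, ⟨133216, 0⟩, ⟨-10, 0⟩], [⟨-103, 0⟩, ⟨-338, 0⟩,
    ⟨859, 0⟩, ⟨1847, 0⟩, ⟨-1113, 0⟩, ⟨0, 0⟩, ⟨0, 0⟩, ⟨-95, 0⟩, ⟨810, 0⟩, ⟨1398, 0⟩, ⟨-4088, 0⟩,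
    ⟨1403, 0⟩, ⟨0, 0⟩, ⟨0, 0⟩, ⟨526, 0⟩, ⟨-1524, 0⟩, ⟨-4612, 0⟩, ⟨4402, 0⟩, ⟨-959, 0⟩, ⟨0, 0⟩, ⟨0,
    0⟩, ⟨-879, 0⟩, ⟨-4868, 0⟩, ⟨6158, 0⟩, ⟨758, 0⟩, ⟨-89, 0⟩, ⟨0, 0⟩, ⟨0, 0⟩, ⟨2330, 0⟩, ⟨8904,
    0⟩, ⟨58, 0⟩, ⟨-9400, 0⟩, ⟨1386, 0⟩, ⟨0, 0⟩, ⟨0, 0⟩, ⟨-5040, 0⟩, ⟨-18551, 0⟩, ⟨-19614, 0⟩,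
    ⟨19320, 0⟩, ⟨-2488, 0⟩, ⟨0, 0⟩, ⟨0, 0⟩, ⟨56, 0⟩, ⟨41307, 0⟩, ⟨114147, 0⟩, ⟨-25573, 0⟩, ⟨2897,
    0⟩, ⟨0, 0⟩, ⟨0, 0⟩, ⟨379, 0⟩, ⟨-11682, 0⟩, ⟨224639, 0⟩, ⟨25266, 0⟩, ⟨-2250, 0⟩, ⟨0, 0⟩, ⟨0,
    0⟩, ⟨30, 0⟩, ⟨-1525, 0⟩, ⟨75701, 0⟩, ⟨-31520, 0⟩, ⟨-2, 0⟩, ⟨0, 0⟩, ⟨0, 0⟩, ⟨0, 0⟩, ⟨0, 0⟩, ⟨0,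
    0⟩, ⟨-1, 0⟩, ⟨-1, 0⟩, ⟨0, 0⟩, ⟨0, 0⟩, ⟨0, 0⟩, ⟨0, 0⟩, ⟨0, 0⟩, ⟨0, 0⟩, ⟨1, 0⟩, ⟨0, 0⟩, ⟨0, 0⟩,
    ⟨0, 0⟩, ⟨0, 0⟩, ⟨0, 0⟩, ⟨0, 0⟩, ⟨0, 0⟩, ⟨0, 0⟩, ⟨0, 0⟩, ⟨0, 0⟩, ⟨0, 0⟩, ⟨0, 0⟩, ⟨0, 0⟩, ⟨0,
    0⟩, ⟨0, 0⟩, ⟨0, 0⟩, ⟨0, 0⟩, ⟨0, 0⟩, ⟨0, 0⟩, ⟨0, 0⟩, ⟨0, 0⟩]⟩, ⟨[⟨1086, 0⟩, ⟨2752, 0⟩, ⟨-1273,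
    0⟩, ⟨0, 0⟩, ⟨0, 0⟩, ⟨0, 0⟩, ⟨0, 0⟩, ⟨1188, 0⟩, ⟨-6664, 0⟩, ⟨2427, 0⟩, ⟨0, 0⟩, ⟨0, 0⟩, ⟨0, 0⟩,
    ⟨0, 0⟩, ⟨-10929, 0⟩, ⟨20013, 0⟩, ⟨-1474, 0⟩, ⟨0, 0⟩, ⟨0, 0⟩, ⟨0, 0⟩, ⟨0, 0⟩, ⟨14295, 0⟩,
    ⟨83382, 0⟩, ⟨-10614, 0⟩, ⟨0, 0⟩, ⟨0, 0⟩, ⟨0, 0⟩, ⟨0, 0⟩, ⟨3893, 0⟩, ⟨135701, 0⟩, ⟨-741, 0⟩],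
    [⟨-105, 0⟩, ⟨-369, 0⟩, ⟨828, 0⟩, ⟨1860, 0⟩, ⟨-1149, 0⟩, ⟨0, 0⟩, ⟨0, 0⟩, ⟨-207, 0⟩, ⟨811, 0⟩,
    ⟨1533, 0⟩, ⟨-4184, 0⟩, ⟨1464, 0⟩, ⟨0, 0⟩, ⟨0, 0⟩, ⟨472, 0⟩, ⟨-932, 0⟩, ⟨-4670, 0⟩, ⟨4694, 0⟩,
    ⟨-983, 0⟩, ⟨0, 0⟩, ⟨0, 0⟩, ⟨-933, 0⟩, ⟨-5210, 0⟩, ⟨6243, 0⟩, ⟨606, 0⟩, ⟨-128, 0⟩, ⟨0, 0⟩, ⟨0,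
    0⟩, ⟨2413, 0⟩, ⟨8855, 0⟩, ⟨355, 0⟩, ⟨-9734, 0⟩, ⟨1499, 0⟩, ⟨0, 0⟩, ⟨0, 0⟩, ⟨-4597, 0⟩,
    ⟨-16981, 0⟩, ⟨-20509, 0⟩, ⟨20370, 0⟩, ⟨-2658, 0⟩, ⟨0, 0⟩, ⟨0, 0⟩, ⟨-303, 0⟩, ⟨40141, 0⟩,
    ⟨117204, 0⟩, ⟨-26623, 0⟩, ⟨3134, 0⟩, ⟨0, 0⟩, ⟨0, 0⟩, ⟨563, 0⟩, ⟨-13063, 0⟩, ⟨227422, 0⟩,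
    ⟨27741, 0⟩, ⟨-2355, 0⟩, ⟨0, 0⟩, ⟨0, 0⟩, ⟨61, 0⟩, ⟨-2141, 0⟩, ⟨74641, 0⟩, ⟨-33484, 0⟩, ⟨-182,
    0⟩, ⟨0, 0⟩, ⟨0, 0⟩, ⟨0, 0⟩, ⟨0, 0⟩, ⟨0, 0⟩, ⟨-1, 0⟩, ⟨0, 0⟩, ⟨0, 0⟩, ⟨0, 0⟩, ⟨0, 0⟩, ⟨0, 0⟩,
    ⟨0, 0⟩, ⟨0, 0⟩, ⟨0, 0⟩, ⟨0, 0⟩, ⟨0, 0⟩, ⟨0, 0⟩, ⟨0, 0⟩, ⟨0, 0⟩, ⟨0, 0⟩, ⟨0, 0⟩, ⟨0, 0⟩, ⟨0,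
    0⟩, ⟨0, 0⟩, ⟨0, 0⟩, ⟨0, 0⟩, ⟨0, 0⟩, ⟨0, 0⟩, ⟨0, 0⟩, ⟨0, 0⟩, ⟨0, 0⟩, ⟨0, 0⟩, ⟨0, 0⟩, ⟨0, 0⟩,
    ⟨0, 0⟩]⟩, ⟨[], []⟩, ⟨[], []⟩⟩

theorem clat_3_good : clat_3.good1 famLat = true := by decide +kernel

theorem clat_3_ok0 : latOkP 29 clat_3.c00.P = true := by decide +kernel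

theorem clat_3_ok1 : latOkP 29 clat_3.c10.P = true := by decide +kernel

def clat_4 : Cell := ⟨46, 50, 0, 0, 5000, ⟨[⟨960, 0⟩, ⟨2761, 0⟩, ⟨-1369, 0⟩, ⟨0, 0⟩, ⟨0, 0⟩, ⟨0,
    0⟩, ⟨0, 0⟩, ⟨1723, 0⟩, ⟨-6399, 0⟩, ⟨2544, 0⟩, ⟨0, 0⟩, ⟨0, 0⟩, ⟨0, 0⟩, ⟨0, 0⟩, ⟨-11285, 0⟩,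
    ⟨19026, 0⟩, ⟨-1408, 0⟩, ⟨0, 0⟩, ⟨0, 0⟩, ⟨0, 0⟩, ⟨0, 0⟩, ⟨15588, 0⟩, ⟨83594, 0⟩, ⟨-10582, 0⟩,
    ⟨0, 0⟩, ⟨0, 0⟩, ⟨0, 0⟩, ⟨0, 0⟩, ⟨3837, 0⟩, ⟨140407, 0⟩, ⟨-5, 0⟩], [⟨-168, 0⟩, ⟨-613, 0⟩, ⟨699,
    0⟩, ⟨1923, 0⟩, ⟨-1096, 0⟩, ⟨0, 0⟩, ⟨0, 0⟩, ⟨-442, 0⟩, ⟨1417, 0⟩, ⟨2618, 0⟩, ⟨-4058, 0⟩, ⟨1347,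
    0⟩, ⟨0, 0⟩, ⟨0, 0⟩, ⟨727, 0⟩, ⟨-707, 0⟩, ⟨-6434, 0⟩, ⟨4188, 0⟩, ⟨-871, 0⟩, ⟨0, 0⟩, ⟨0, 0⟩,
    ⟨-1488, 0⟩, ⟨-6467, 0⟩, ⟨5952, 0⟩, ⟨1128, 0⟩, ⟨-164, 0⟩, ⟨0, 0⟩, ⟨0, 0⟩, ⟨3423, 0⟩, ⟨11978,
    0⟩, ⟨278, 0⟩, ⟨-9807, 0⟩, ⟨1401, 0⟩, ⟨0, 0⟩, ⟨0, 0⟩, ⟨-5615, 0⟩, ⟨-21628, 0⟩, ⟨-20554, 0⟩,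
    ⟨19452, 0⟩, ⟨-2483, 0⟩, ⟨0, 0⟩, ⟨0, 0⟩, ⟨-330, 0⟩, ⟨47708, 0⟩, ⟨120190, 0⟩, ⟨-24705, 0⟩,
    ⟨3024, 0⟩, ⟨0, 0⟩, ⟨0, 0⟩, ⟨548, 0⟩, ⟨-13206, 0⟩, ⟨233395, 0⟩, ⟨25015, 0⟩, ⟨-2467, 0⟩, ⟨0, 0⟩,
    ⟨0, 0⟩, ⟨54, 0⟩, ⟨-1971, 0⟩, ⟨72117, 0⟩, ⟨-32758, 0⟩, ⟨-1, 0⟩, ⟨0, 0⟩, ⟨0, 0⟩, ⟨0, 0⟩, ⟨0, 0⟩,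
    ⟨0, 0⟩, ⟨-1, 0⟩, ⟨0, 0⟩, ⟨0, 0⟩, ⟨0, 0⟩, ⟨0, 0⟩, ⟨0, 0⟩, ⟨0, 0⟩, ⟨0, 0⟩, ⟨0, 0⟩, ⟨0, 0⟩, ⟨0,
    0⟩, ⟨0, 0⟩, ⟨0, 0⟩, ⟨0, 0⟩, ⟨0, 0⟩, ⟨0, 0⟩, ⟨0, 0⟩, ⟨0, 0⟩, ⟨0, 0⟩, ⟨0, 0⟩, ⟨0, 0⟩, ⟨0, 0⟩,
    ⟨0, 0⟩, ⟨0, 0⟩, ⟨0, 0⟩, ⟨0, 0⟩, ⟨0, 0⟩, ⟨0, 0⟩, ⟨0, 0⟩, ⟨0, 0⟩]⟩, ⟨[⟨952, 0⟩, ⟨2999, 0⟩,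
    ⟨-1690, 0⟩, ⟨0, 0⟩, ⟨0, 0⟩, ⟨0, 0⟩, ⟨0, 0⟩, ⟨2313, 0⟩, ⟨-6678, 0⟩, ⟨2281, 0⟩, ⟨0, 0⟩, ⟨0, 0⟩,
    ⟨0, 0⟩, ⟨0, 0⟩, ⟨-11662, 0⟩, ⟨19004, 0⟩, ⟨-829, 0⟩, ⟨0, 0⟩, ⟨0, 0⟩, ⟨0, 0⟩, ⟨0, 0⟩, ⟨15073,
    0⟩, ⟨83690, 0⟩, ⟨-11960, 0⟩, ⟨0, 0⟩, ⟨0, 0⟩, ⟨0, 0⟩, ⟨0, 0⟩, ⟨4648, 0⟩, ⟨142102, 0⟩, ⟨-121,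
    0⟩], [⟨-90, 0⟩, ⟨-658, 0⟩, ⟨641, 0⟩, ⟨1928, 0⟩, ⟨-1055, 0⟩, ⟨0, 0⟩, ⟨0, 0⟩, ⟨-367, 0⟩, ⟨1457,
    0⟩, ⟨2581, 0⟩, ⟨-4142, 0⟩, ⟨1377, 0⟩, ⟨0, 0⟩, ⟨0, 0⟩, ⟨756, 0⟩, ⟨-641, 0⟩, ⟨-6474, 0⟩, ⟨4356,
    0⟩, ⟨-783, 0⟩, ⟨0, 0⟩, ⟨0, 0⟩, ⟨-1524, 0⟩, ⟨-6573, 0⟩, ⟨6159, 0⟩, ⟨1461, 0⟩, ⟨-416, 0⟩, ⟨0,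
    0⟩, ⟨0, 0⟩, ⟨3493, 0⟩, ⟨11935, 0⟩, ⟨229, 0⟩, ⟨-9567, 0⟩, ⟨1922, 0⟩, ⟨0, 0⟩, ⟨0, 0⟩, ⟨-5178,
    0⟩, ⟨-19991, 0⟩, ⟨-20846, 0⟩, ⟨19858, 0⟩, ⟨-3234, 0⟩, ⟨0, 0⟩, ⟨0, 0⟩, ⟨-627, 0⟩, ⟨46924, 0⟩,
    ⟨121953, 0⟩, ⟨-25785, 0⟩, ⟨3741, 0⟩, ⟨0, 0⟩, ⟨0, 0⟩, ⟨658, 0⟩, ⟨-13934, 0⟩, ⟨235887, 0⟩,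
    ⟨26963, 0⟩, ⟨-2906, 0⟩, ⟨0, 0⟩, ⟨0, 0⟩, ⟨73, 0⟩, ⟨-2349, 0⟩, ⟨71530, 0⟩, ⟨-35081, 0⟩, ⟨-20,
    0⟩, ⟨0, 0⟩, ⟨0, 0⟩, ⟨6, 0⟩, ⟨2, 0⟩, ⟨6, 0⟩, ⟨-21, 0⟩, ⟨-16, 0⟩, ⟨0, 0⟩, ⟨0, 0⟩, ⟨-3, 0⟩, ⟨0,
    0⟩, ⟨-8, 0⟩, ⟨5, 0⟩, ⟨12, 0⟩, ⟨0, 0⟩, ⟨0, 0⟩, ⟨1, 0⟩, ⟨-1, 0⟩, ⟨5, 0⟩, ⟨4, 0⟩, ⟨-5, 0⟩, ⟨0,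
    0⟩, ⟨0, 0⟩, ⟨-1, 0⟩, ⟨0, 0⟩, ⟨0, 0⟩, ⟨-4, 0⟩, ⟨0, 0⟩, ⟨0, 0⟩, ⟨0, 0⟩, ⟨3, 0⟩, ⟨-2, 0⟩, ⟨0, 0⟩,
    ⟨1, 0⟩, ⟨1, 0⟩]⟩, ⟨[], []⟩, ⟨[], []⟩⟩

theorem clat_4_good : clat_4.good1 famLat = true := by decide +kernel

theorem clat_4_ok0 : latOkP 29 clat_4.c00.P = true := by decide +kernel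

theorem clat_4_ok1 : latOkP 29 clat_4.c10.P = true := by decide +kernel

def clat_5 : Cell := ⟨50, 56, 0, 0, 5600, ⟨[⟨660, 0⟩, ⟨2515, 0⟩, ⟨-1400, 0⟩, ⟨0, 0⟩, ⟨0, 0⟩, ⟨0,
    0⟩, ⟨0, 0⟩, ⟨2225, 0⟩, ⟨-5925, 0⟩, ⟨2768, 0⟩, ⟨0, 0⟩, ⟨0, 0⟩, ⟨0, 0⟩, ⟨0, 0⟩, ⟨-11332, 0⟩,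
    ⟨17573, 0⟩, ⟨-1491, 0⟩, ⟨0, 0⟩, ⟨0, 0⟩, ⟨0, 0⟩, ⟨0, 0⟩, ⟨16450, 0⟩, ⟨83474, 0⟩, ⟨-11737, 0⟩,
    ⟨0, 0⟩, ⟨0, 0⟩, ⟨0, 0⟩, ⟨0, 0⟩, ⟨5563, 0⟩, ⟨149017, 0⟩, ⟨-5, 0⟩], [⟨-89, 0⟩, ⟨-1334, 0⟩, ⟨498,
    0⟩, ⟨1850, 0⟩, ⟨-1024, 0⟩, ⟨0, 0⟩, ⟨0, 0⟩, ⟨-935, 0⟩, ⟨2977, 0⟩, ⟨3075, 0⟩, ⟨-3789, 0⟩, ⟨1211,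
    0⟩, ⟨0, 0⟩, ⟨0, 0⟩, ⟨1460, 0⟩, ⟨-71, 0⟩, ⟨-7138, 0⟩, ⟨3752, 0⟩, ⟨-687, 0⟩, ⟨0, 0⟩, ⟨0, 0⟩,
    ⟨-2781, 0⟩, ⟨-7503, 0⟩, ⟨5697, 0⟩, ⟨1678, 0⟩, ⟨-321, 0⟩, ⟨0, 0⟩, ⟨0, 0⟩, ⟨5520, 0⟩, ⟨14843,
    0⟩, ⟨961, 0⟩, ⟨-10594, 0⟩, ⟨1404, 0⟩, ⟨0, 0⟩, ⟨0, 0⟩, ⟨-5775, 0⟩, ⟨-25199, 0⟩, ⟨-22381, 0⟩,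
    ⟨19631, 0⟩, ⟨-2360, 0⟩, ⟨0, 0⟩, ⟨0, 0⟩, ⟨-1036, 0⟩, ⟨55187, 0⟩, ⟨128503, 0⟩, ⟨-23205, 0⟩,
    ⟨3055, 0⟩, ⟨0, 0⟩, ⟨0, 0⟩, ⟨795, 0⟩, ⟨-15175, 0⟩, ⟨242867, 0⟩, ⟨24285, 0⟩, ⟨-2641, 0⟩, ⟨0, 0⟩,
    ⟨0, 0⟩, ⟨95, 0⟩, ⟨-2553, 0⟩, ⟨68359, 0⟩, ⟨-33550, 0⟩, ⟨-1, 0⟩, ⟨0, 0⟩, ⟨0, 0⟩, ⟨0, 0⟩, ⟨0, 0⟩,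
    ⟨0, 0⟩, ⟨-1, 0⟩, ⟨0, 0⟩, ⟨0, 0⟩, ⟨0, 0⟩, ⟨0, 0⟩, ⟨0, 0⟩, ⟨0, 0⟩, ⟨0, 0⟩, ⟨0, 0⟩, ⟨0, 0⟩, ⟨0,
    0⟩, ⟨0, 0⟩, ⟨0, 0⟩, ⟨0, 0⟩, ⟨0, 0⟩, ⟨0, 0⟩, ⟨0, 0⟩, ⟨0, 0⟩, ⟨0, 0⟩, ⟨0, 0⟩, ⟨0, 0⟩, ⟨0, 0⟩,
    ⟨0, 0⟩, ⟨0, 0⟩, ⟨0, 0⟩, ⟨0, 0⟩, ⟨0, 0⟩, ⟨0, 0⟩, ⟨0, 0⟩, ⟨0, 0⟩]⟩, ⟨[⟨614, 0⟩, ⟨3039, 0⟩,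
    ⟨-1962, 0⟩, ⟨0, 0⟩, ⟨0, 0⟩, ⟨0, 0⟩, ⟨0, 0⟩, ⟨2533, 0⟩, ⟨-6421, 0⟩, ⟨2222, 0⟩, ⟨0, 0⟩, ⟨0, 0⟩,
    ⟨0, 0⟩, ⟨0, 0⟩, ⟨-12221, 0⟩, ⟨17498, 0⟩, ⟨-344, 0⟩, ⟨0, 0⟩, ⟨0, 0⟩, ⟨0, 0⟩, ⟨0, 0⟩, ⟨15508,
    0⟩, ⟨84623, 0⟩, ⟨-14141, 0⟩, ⟨0, 0⟩, ⟨0, 0⟩, ⟨0, 0⟩, ⟨0, 0⟩, ⟨5984, 0⟩, ⟨150314, 0⟩, ⟨651,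
    0⟩], [⟨-132, 0⟩, ⟨-1392, 0⟩, ⟨417, 0⟩, ⟨2035, 0⟩, ⟨-1138, 0⟩, ⟨0, 0⟩, ⟨0, 0⟩, ⟨-601, 0⟩,
    ⟨2416, 0⟩, ⟨3214, 0⟩, ⟨-4175, 0⟩, ⟨1296, 0⟩, ⟨0, 0⟩, ⟨0, 0⟩, ⟨1493, 0⟩, ⟨-318, 0⟩, ⟨-7277, 0⟩,
    ⟨3985, 0⟩, ⟨-416, 0⟩, ⟨0, 0⟩, ⟨0, 0⟩, ⟨-2870, 0⟩, ⟨-6841, 0⟩, ⟨5618, 0⟩, ⟨2677, 0⟩, ⟨-943, 0⟩,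
    ⟨0, 0⟩, ⟨0, 0⟩, ⟨5547, 0⟩, ⟨13090, 0⟩, ⟨962, 0⟩, ⟨-10485, 0⟩, ⟨2516, 0⟩, ⟨0, 0⟩, ⟨0, 0⟩,
    ⟨-5054, 0⟩, ⟨-21822, 0⟩, ⟨-22290, 0⟩, ⟨20329, 0⟩, ⟨-3899, 0⟩, ⟨0, 0⟩, ⟨0, 0⟩, ⟨-1252, 0⟩,
    ⟨53438, 0⟩, ⟨129020, 0⟩, ⟨-24663, 0⟩, ⟨4555, 0⟩, ⟨0, 0⟩, ⟨0, 0⟩, ⟨804, 0⟩, ⟨-15284, 0⟩,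
    ⟨247467, 0⟩, ⟨26514, 0⟩, ⟨-3708, 0⟩, ⟨0, 0⟩, ⟨0, 0⟩, ⟨133, 0⟩, ⟨-2766, 0⟩, ⟨68060, 0⟩,
    ⟨-37451, 0⟩, ⟨172, 0⟩, ⟨0, 0⟩, ⟨0, 0⟩, ⟨-12, 0⟩, ⟨7, 0⟩, ⟨33, 0⟩, ⟨-62, 0⟩, ⟨-34, 0⟩, ⟨0, 0⟩,
    ⟨0, 0⟩, ⟨-1, 0⟩, ⟨21, 0⟩, ⟨-42, 0⟩, ⟨18, 0⟩, ⟨40, 0⟩, ⟨0, 0⟩, ⟨0, 0⟩, ⟨7, 0⟩, ⟨-29, 0⟩, ⟨27,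
    0⟩, ⟨13, 0⟩, ⟨-29, 0⟩, ⟨0, 0⟩, ⟨0, 0⟩, ⟨-3, 0⟩, ⟨16, 0⟩, ⟨-7, 0⟩, ⟨-21, 0⟩, ⟨12, 0⟩, ⟨0, 0⟩,
    ⟨0, 0⟩, ⟨-3, 0⟩, ⟨-2, 0⟩, ⟨-4, 0⟩, ⟨13, 0⟩, ⟨-1, 0⟩]⟩, ⟨[], []⟩, ⟨[], []⟩⟩

theorem clat_5_good : clat_5.good1 famLat = true := by decide +kernel

theorem clat_5_ok0 : latOkP 29 clat_5.c00.P = true := by decide +kernel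

theorem clat_5_ok1 : latOkP 29 clat_5.c10.P = true := by decide +kernel

def clat_6 : Cell := ⟨56, 65, 0, 0, 6500, ⟨[⟨951, 0⟩, ⟨1415, 0⟩, ⟨-1117, 0⟩, ⟨0, 0⟩, ⟨0, 0⟩, ⟨0,
    0⟩, ⟨0, 0⟩, ⟨1091, 0⟩, ⟨-4704, 0⟩, ⟨2665, 0⟩, ⟨0, 0⟩, ⟨0, 0⟩, ⟨0, 0⟩, ⟨0, 0⟩, ⟨-10147, 0⟩,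
    ⟨14984, 0⟩, ⟨-1335, 0⟩, ⟨0, 0⟩, ⟨0, 0⟩, ⟨0, 0⟩, ⟨0, 0⟩, ⟨18166, 0⟩, ⟨83336, 0⟩, ⟨-13480, 0⟩,
    ⟨0, 0⟩, ⟨0, 0⟩, ⟨0, 0⟩, ⟨0, 0⟩, ⟨8644, 0⟩, ⟨166052, 0⟩, ⟨13, 0⟩], [⟨-34, 0⟩, ⟨-2321, 0⟩, ⟨568,
    0⟩, ⟨1284, 0⟩, ⟨-724, 0⟩, ⟨0, 0⟩, ⟨0, 0⟩, ⟨-1722, 0⟩, ⟨2759, 0⟩, ⟨1977, 0⟩, ⟨-2731, 0⟩, ⟨771,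
    0⟩, ⟨0, 0⟩, ⟨0, 0⟩, ⟨4176, 0⟩, ⟨-288, 0⟩, ⟨-5603, 0⟩, ⟨2627, 0⟩, ⟨-169, 0⟩, ⟨0, 0⟩, ⟨0, 0⟩,
    ⟨-6629, 0⟩, ⟨-8184, 0⟩, ⟨5435, 0⟩, ⟨2409, 0⟩, ⟨-808, 0⟩, ⟨0, 0⟩, ⟨0, 0⟩, ⟨9624, 0⟩, ⟨18706,
    0⟩, ⟨2515, 0⟩, ⟨-11573, 0⟩, ⟨1577, 0⟩, ⟨0, 0⟩, ⟨0, 0⟩, ⟨-5926, 0⟩, ⟨-32549, 0⟩, ⟨-26687, 0⟩,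
    ⟨19680, 0⟩, ⟨-2111, 0⟩, ⟨0, 0⟩, ⟨0, 0⟩, ⟨-2405, 0⟩, ⟨69459, 0⟩, ⟨146305, 0⟩, ⟨-19973, 0⟩,
    ⟨2898, 0⟩, ⟨0, 0⟩, ⟨0, 0⟩, ⟨1243, 0⟩, ⟨-18711, 0⟩, ⟨260572, 0⟩, ⟨22081, 0⟩, ⟨-2741, 0⟩, ⟨0,
    0⟩, ⟨0, 0⟩, ⟨168, 0⟩, ⟨-3227, 0⟩, ⟨61978, 0⟩, ⟨-33728, 0⟩, ⟨3, 0⟩, ⟨0, 0⟩, ⟨0, 0⟩, ⟨0, 0⟩, ⟨0,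
    0⟩, ⟨0, 0⟩, ⟨0, 0⟩, ⟨0, 0⟩, ⟨0, 0⟩, ⟨0, 0⟩, ⟨0, 0⟩, ⟨0, 0⟩, ⟨0, 0⟩, ⟨0, 0⟩, ⟨0, 0⟩, ⟨0, 0⟩,
    ⟨0, 0⟩, ⟨0, 0⟩, ⟨0, 0⟩, ⟨0, 0⟩, ⟨0, 0⟩, ⟨0, 0⟩, ⟨0, 0⟩, ⟨0, 0⟩, ⟨0, 0⟩, ⟨0, 0⟩, ⟨0, 0⟩, ⟨0,
    0⟩, ⟨0, 0⟩, ⟨0, 0⟩, ⟨0, 0⟩, ⟨0, 0⟩, ⟨0, 0⟩, ⟨0, 0⟩, ⟨0, 0⟩, ⟨0, 0⟩]⟩, ⟨[⟨560, 0⟩, ⟨2791, 0⟩,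
    ⟨-1995, 0⟩, ⟨0, 0⟩, ⟨0, 0⟩, ⟨0, 0⟩, ⟨0, 0⟩, ⟨2326, 0⟩, ⟨-5766, 0⟩, ⟨1972, 0⟩, ⟨0, 0⟩, ⟨0, 0⟩,
    ⟨0, 0⟩, ⟨0, 0⟩, ⟨-12691, 0⟩, ⟨15087, 0⟩, ⟨493, 0⟩, ⟨0, 0⟩, ⟨0, 0⟩, ⟨0, 0⟩, ⟨0, 0⟩, ⟨16221, 0⟩,
    ⟨86531, 0⟩, ⟨-16276, 0⟩, ⟨0, 0⟩, ⟨0, 0⟩, ⟨0, 0⟩, ⟨0, 0⟩, ⟨7122, 0⟩, ⟨164919, 0⟩, ⟨2515, 0⟩],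
    [⟨-165, 0⟩, ⟨-1950, 0⟩, ⟨0, 0⟩, ⟨2125, 0⟩, ⟨-1007, 0⟩, ⟨0, 0⟩, ⟨0, 0⟩, ⟨-1123, 0⟩, ⟨2748, 0⟩,
    ⟨3504, 0⟩, ⟨-3921, 0⟩, ⟨875, 0⟩, ⟨0, 0⟩, ⟨0, 0⟩, ⟨3131, 0⟩, ⟨-356, 0⟩, ⟨-7262, 0⟩, ⟨2948, 0⟩,
    ⟨258, 0⟩, ⟨0, 0⟩, ⟨0, 0⟩, ⟨-6012, 0⟩, ⟨-7119, 0⟩, ⟨5065, 0⟩, ⟨4235, 0⟩, ⟨-1698, 0⟩, ⟨0, 0⟩,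
    ⟨0, 0⟩, ⟨8915, 0⟩, ⟨15342, 0⟩, ⟨2029, 0⟩, ⟨-11834, 0⟩, ⟨3122, 0⟩, ⟨0, 0⟩, ⟨0, 0⟩, ⟨-5181, 0⟩,
    ⟨-26035, 0⟩, ⟨-24926, 0⟩, ⟨20817, 0⟩, ⟨-4308, 0⟩, ⟨0, 0⟩, ⟨0, 0⟩, ⟨-1952, 0⟩, ⟨65713, 0⟩,
    ⟨141545, 0⟩, ⟨-23468, 0⟩, ⟨4974, 0⟩, ⟨0, 0⟩, ⟨0, 0⟩, ⟨827, 0⟩, ⟨-16084, 0⟩, ⟨266799, 0⟩,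
    ⟨23180, 0⟩, ⟨-4515, 0⟩, ⟨0, 0⟩, ⟨0, 0⟩, ⟨203, 0⟩, ⟨-2865, 0⟩, ⟨62514, 0⟩, ⟨-40056, 0⟩, ⟨581,
    0⟩, ⟨0, 0⟩, ⟨0, 0⟩, ⟨-55, 0⟩, ⟨33, 0⟩, ⟨79, 0⟩, ⟨-219, 0⟩, ⟨-59, 0⟩, ⟨0, 0⟩, ⟨0, 0⟩, ⟨15, 0⟩,
    ⟨45, 0⟩, ⟨-111, 0⟩, ⟨84, 0⟩, ⟨95, 0⟩, ⟨0, 0⟩, ⟨0, 0⟩, ⟨14, 0⟩, ⟨-72, 0⟩, ⟨79, 0⟩, ⟨19, 0⟩,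
    ⟨-76, 0⟩, ⟨0, 0⟩, ⟨0, 0⟩, ⟨-21, 0⟩, ⟨49, 0⟩, ⟨-21, 0⟩, ⟨-52, 0⟩, ⟨35, 0⟩, ⟨0, 0⟩, ⟨0, 0⟩, ⟨13,
    0⟩, ⟨-15, 0⟩, ⟨-10, 0⟩, ⟨32, 0⟩, ⟨-6, 0⟩]⟩, ⟨[], []⟩, ⟨[], []⟩⟩

theorem clat_6_good : clat_6.good1 famLat = true := by decide +kernel

theorem clat_6_ok0 : latOkP 29 clat_6.c00.P = true := by decide +kernel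

theorem clat_6_ok1 : latOkP 29 clat_6.c10.P = true := by decide +kernel

def clat_7 : Cell := ⟨65, 80, 0, 0, 8000, ⟨[⟨1536, 0⟩, ⟨-487, 0⟩, ⟨102, 0⟩, ⟨0, 0⟩, ⟨0, 0⟩, ⟨0,
    0⟩, ⟨0, 0⟩, ⟨118, 0⟩, ⟨-1560, 0⟩, ⟨1453, 0⟩, ⟨0, 0⟩, ⟨0, 0⟩, ⟨0, 0⟩, ⟨0, 0⟩, ⟨-8864, 0⟩,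
    ⟨4889, 0⟩, ⟨781, 0⟩, ⟨0, 0⟩, ⟨0, 0⟩, ⟨0, 0⟩, ⟨0, 0⟩, ⟨27074, 0⟩, ⟨96590, 0⟩, ⟨-17358, 0⟩, ⟨0,
    0⟩, ⟨0, 0⟩, ⟨0, 0⟩, ⟨0, 0⟩, ⟨15099, 0⟩, ⟨249285, 0⟩, ⟨7406, 0⟩], [⟨600, 0⟩, ⟨-650, 0⟩, ⟨-168,
    0⟩, ⟨283, 0⟩, ⟨17, 0⟩, ⟨0, 0⟩, ⟨0, 0⟩, ⟨-2169, 0⟩, ⟨410, 0⟩, ⟨1220, 0⟩, ⟨-422, 0⟩, ⟨-240, 0⟩,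
    ⟨0, 0⟩, ⟨0, 0⟩, ⟨5143, 0⟩, ⟨2540, 0⟩, ⟨-3103, 0⟩, ⟨-320, 0⟩, ⟨864, 0⟩, ⟨0, 0⟩, ⟨0, 0⟩, ⟨-9780,
    0⟩, ⟨-14008, 0⟩, ⟨3821, 0⟩, ⟨3587, 0⟩, ⟨-1854, 0⟩, ⟨0, 0⟩, ⟨0, 0⟩, ⟨13478, 0⟩, ⟨31860, 0⟩,
    ⟨7867, 0⟩, ⟨-13064, 0⟩, ⟨2217, 0⟩, ⟨0, 0⟩, ⟨0, 0⟩, ⟨-9579, 0⟩, ⟨-61615, 0⟩, ⟨-43410, 0⟩,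
    ⟨18478, 0⟩, ⟨-1452, 0⟩, ⟨0, 0⟩, ⟨0, 0⟩, ⟨-6252, 0⟩, ⟨136213, 0⟩, ⟨227021, 0⟩, ⟨-8083, 0⟩,
    ⟨1398, 0⟩, ⟨0, 0⟩, ⟨0, 0⟩, ⟨1763, 0⟩, ⟨-25543, 0⟩, ⟨362245, 0⟩, ⟨2808, 0⟩, ⟨-2304, 0⟩, ⟨0, 0⟩,
    ⟨0, 0⟩, ⟨154, 0⟩, ⟨-2539, 0⟩, ⟨41848, 0⟩, ⟨-27367, 0⟩, ⟨813, 0⟩, ⟨0, 0⟩, ⟨0, 0⟩, ⟨0, 0⟩, ⟨0,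
    0⟩, ⟨0, 0⟩, ⟨0, 0⟩, ⟨0, 0⟩, ⟨0, 0⟩, ⟨0, 0⟩, ⟨0, 0⟩, ⟨0, 0⟩, ⟨0, 0⟩, ⟨0, 0⟩, ⟨0, 0⟩, ⟨0, 0⟩,
    ⟨0, 0⟩, ⟨0, 0⟩, ⟨0, 0⟩, ⟨0, 0⟩, ⟨0, 0⟩, ⟨0, 0⟩, ⟨0, 0⟩, ⟨0, 0⟩, ⟨0, 0⟩, ⟨0, 0⟩, ⟨0, 0⟩, ⟨0,
    0⟩, ⟨0, 0⟩, ⟨0, 0⟩, ⟨0, 0⟩, ⟨0, 0⟩, ⟨0, 0⟩, ⟨0, 0⟩, ⟨0, 0⟩, ⟨0, 0⟩]⟩, ⟨[⟨3822, 0⟩, ⟨381, 0⟩,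
    ⟨-1787, 0⟩, ⟨0, 0⟩, ⟨0, 0⟩, ⟨0, 0⟩, ⟨0, 0⟩, ⟨468, 0⟩, ⟨-5877, 0⟩, ⟨3619, 0⟩, ⟨0, 0⟩, ⟨0, 0⟩,
    ⟨0, 0⟩, ⟨0, 0⟩, ⟨-15391, 0⟩, ⟨13146, 0⟩, ⟨-304, 0⟩, ⟨0, 0⟩, ⟨0, 0⟩, ⟨0, 0⟩, ⟨0, 0⟩, ⟨23758,
    0⟩, ⟨90440, 0⟩, ⟨-12123, 0⟩, ⟨0, 0⟩, ⟨0, 0⟩, ⟨0, 0⟩, ⟨0, 0⟩, ⟨1651, 0⟩, ⟨190010, 0⟩, ⟨13508,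
    0⟩], [⟨-980, 0⟩, ⟨-1236, 0⟩, ⟨1783, 0⟩, ⟨59, 0⟩, ⟨-263, 0⟩, ⟨0, 0⟩, ⟨0, 0⟩, ⟨-307, 0⟩, ⟨3808,
    0⟩, ⟨-1150, 0⟩, ⟨-1819, 0⟩, ⟨714, 0⟩, ⟨0, 0⟩, ⟨0, 0⟩, ⟨4910, 0⟩, ⟨-2865, 0⟩, ⟨-2765, 0⟩,
    ⟨2531, 0⟩, ⟨-314, 0⟩, ⟨0, 0⟩, ⟨0, 0⟩, ⟨-13155, 0⟩, ⟨-10702, 0⟩, ⟨8350, 0⟩, ⟨3710, 0⟩, ⟨-1698,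
    0⟩, ⟨0, 0⟩, ⟨0, 0⟩, ⟨19622, 0⟩, ⟨23553, 0⟩, ⟨1543, 0⟩, ⟨-14425, 0⟩, ⟨3354, 0⟩, ⟨0, 0⟩, ⟨0, 0⟩,
    ⟨-13302, 0⟩, ⟨-43421, 0⟩, ⟨-22932, 0⟩, ⟨22692, 0⟩, ⟨-4204, 0⟩, ⟨0, 0⟩, ⟨0, 0⟩, ⟨-169, 0⟩,
    ⟨108667, 0⟩, ⟨148487, 0⟩, ⟨-31011, 0⟩, ⟨3880, 0⟩, ⟨0, 0⟩, ⟨0, 0⟩, ⟨248, 0⟩, ⟨-8538, 0⟩,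
    ⟨304679, 0⟩, ⟨3021, 0⟩, ⟨-4605, 0⟩, ⟨0, 0⟩, ⟨0, 0⟩, ⟨113, 0⟩, ⟨-1082, 0⟩, ⟨53865, 0⟩, ⟨-45776,
    0⟩, ⟨3318, 0⟩, ⟨0, 0⟩, ⟨0, 0⟩, ⟨-62, 0⟩, ⟨165, 0⟩, ⟨105, 0⟩, ⟨-483, 0⟩, ⟨60, 0⟩, ⟨0, 0⟩, ⟨0,
    0⟩, ⟨-57, 0⟩, ⟨324, 0⟩, ⟨-300, 0⟩, ⟨718, 0⟩, ⟨95, 0⟩, ⟨0, 0⟩, ⟨0, 0⟩, ⟨-73, 0⟩, ⟨20, 0⟩, ⟨134,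
    0⟩, ⟨48, 0⟩, ⟨1, 0⟩, ⟨0, 0⟩, ⟨0, 0⟩, ⟨-93, 0⟩, ⟨-65, 0⟩, ⟨56, 0⟩, ⟨-29, 0⟩, ⟨-69, 0⟩, ⟨0, 0⟩,
    ⟨0, 0⟩, ⟨3, 0⟩, ⟨95, 0⟩, ⟨11, 0⟩, ⟨21, 0⟩, ⟨95, 0⟩]⟩, ⟨[], []⟩, ⟨[], []⟩⟩

theorem clat_7_good : clat_7.good1 famLat = true := by decide +kernel

theorem clat_7_ok0 : latOkP 29 clat_7.c00.P = true := by decide +kernel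

theorem clat_7_ok1 : latOkP 29 clat_7.c10.P = true := by decide +kernel

def clat_8 : Cell := ⟨80, 100, 0, 0, 10000, ⟨[⟨22427, 0⟩, ⟨-14167, 0⟩, ⟨4716, 0⟩, ⟨0, 0⟩, ⟨0, 0⟩,
    ⟨0, 0⟩, ⟨0, 0⟩, ⟨17690, 0⟩, ⟨14410, 0⟩, ⟨-4182, 0⟩, ⟨0, 0⟩, ⟨0, 0⟩, ⟨0, 0⟩, ⟨0, 0⟩, ⟨717, 0⟩,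
    ⟨-38779, 0⟩, ⟨6656, 0⟩, ⟨0, 0⟩, ⟨0, 0⟩, ⟨0, 0⟩, ⟨0, 0⟩, ⟨79027, 0⟩, ⟨210693, 0⟩, ⟨-40988, 0⟩,
    ⟨0, 0⟩, ⟨0, 0⟩, ⟨0, 0⟩, ⟨0, 0⟩, ⟨52718, 0⟩, ⟨809669, 0⟩, ⟨60511, 0⟩], [⟨1442, 0⟩, ⟨5696, 0⟩,
    ⟨-1352, 0⟩, ⟨-2414, 0⟩, ⟨1502, 0⟩, ⟨0, 0⟩, ⟨0, 0⟩, ⟨1326, 0⟩, ⟨-12877, 0⟩, ⟨579, 0⟩, ⟨5258,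
    0⟩, ⟨-2234, 0⟩, ⟨0, 0⟩, ⟨0, 0⟩, ⟨2545, 0⟩, ⟨19439, 0⟩, ⟨5601, 0⟩, ⟨-10597, 0⟩, ⟨2657, 0⟩, ⟨0,
    0⟩, ⟨0, 0⟩, ⟨-22926, 0⟩, ⟨-94637, 0⟩, ⟨6756, 0⟩, ⟨8504, 0⟩, ⟨-3008, 0⟩, ⟨0, 0⟩, ⟨0, 0⟩,
    ⟨28366, 0⟩, ⟨84274, 0⟩, ⟨34222, 0⟩, ⟨-23854, 0⟩, ⟨4414, 0⟩, ⟨0, 0⟩, ⟨0, 0⟩, ⟨-37753, 0⟩,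
    ⟨-256895, 0⟩, ⟨-129490, 0⟩, ⟨48991, 0⟩, ⟨-2540, 0⟩, ⟨0, 0⟩, ⟨0, 0⟩, ⟨-37715, 0⟩, ⟨662540, 0⟩,
    ⟨919172, 0⟩, ⟨-12425, 0⟩, ⟨-3716, 0⟩, ⟨0, 0⟩, ⟨0, 0⟩, ⟨4145, 0⟩, ⟨-64035, 0⟩, ⟨964620, 0⟩,
    ⟨-69096, 0⟩, ⟨4457, 0⟩, ⟨0, 0⟩, ⟨0, 0⟩, ⟨161, 0⟩, ⟨-1017, 0⟩, ⟨13012, 0⟩, ⟨-10434, 0⟩, ⟨865,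
    0⟩, ⟨0, 0⟩, ⟨0, 0⟩, ⟨-56, 0⟩, ⟨125, 0⟩, ⟨-68, 0⟩, ⟨75, 0⟩, ⟨5, 0⟩, ⟨0, 0⟩, ⟨0, 0⟩, ⟨-40, 0⟩,
    ⟨-143, 0⟩, ⟨133, 0⟩, ⟨64, 0⟩, ⟨-77, 0⟩, ⟨0, 0⟩, ⟨0, 0⟩, ⟨-137, 0⟩, ⟨281, 0⟩, ⟨-250, 0⟩, ⟨-61,
    0⟩, ⟨110, 0⟩, ⟨0, 0⟩, ⟨0, 0⟩, ⟨213, 0⟩, ⟨-286, 0⟩, ⟨-52, 0⟩, ⟨94, 0⟩, ⟨-112, 0⟩, ⟨0, 0⟩, ⟨0,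
    0⟩, ⟨-300, 0⟩, ⟨186, 0⟩, ⟨89, 0⟩, ⟨-38, 0⟩, ⟨79, 0⟩]⟩, ⟨[⟨-26358, 0⟩, ⟨12415, 0⟩, ⟨1431, 0⟩,
    ⟨0, 0⟩, ⟨0, 0⟩, ⟨0, 0⟩, ⟨0, 0⟩, ⟨-5953, 0⟩, ⟨6856, 0⟩, ⟨-13324, 0⟩, ⟨0, 0⟩, ⟨0, 0⟩, ⟨0, 0⟩,
    ⟨0, 0⟩, ⟨6812, 0⟩, ⟨11438, 0⟩, ⟨11003, 0⟩, ⟨0, 0⟩, ⟨0, 0⟩, ⟨0, 0⟩, ⟨0, 0⟩, ⟨41250, 0⟩, ⟨65355,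
    0⟩, ⟨-47152, 0⟩, ⟨0, 0⟩, ⟨0, 0⟩, ⟨0, 0⟩, ⟨0, 0⟩, ⟨65750, 0⟩, ⟨467826, 0⟩, ⟨47156, 0⟩], [⟨2530,
    0⟩, ⟨-7606, 0⟩, ⟨3845, 0⟩, ⟨1155, 0⟩, ⟨-628, 0⟩, ⟨0, 0⟩, ⟨0, 0⟩, ⟨-11748, 0⟩, ⟨5661, 0⟩,
    ⟨5281, 0⟩, ⟨-5007, 0⟩, ⟨484, 0⟩, ⟨0, 0⟩, ⟨0, 0⟩, ⟨25686, 0⟩, ⟨7849, 0⟩, ⟨-14081, 0⟩, ⟨91, 0⟩,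
    ⟨1446, 0⟩, ⟨0, 0⟩, ⟨0, 0⟩, ⟨-1108, 0⟩, ⟨32497, 0⟩, ⟨-604, 0⟩, ⟨4798, 0⟩, ⟨-957, 0⟩, ⟨0, 0⟩,
    ⟨0, 0⟩, ⟨4423, 0⟩, ⟨13056, 0⟩, ⟨-53903, 0⟩, ⟨6976, 0⟩, ⟨2442, 0⟩, ⟨0, 0⟩, ⟨0, 0⟩, ⟨-17567, 0⟩,
    ⟨-122382, 0⟩, ⟨10426, 0⟩, ⟨35937, 0⟩, ⟨-4150, 0⟩, ⟨0, 0⟩, ⟨0, 0⟩, ⟨-67125, 0⟩, ⟨516497, 0⟩,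
    ⟨438297, 0⟩, ⟨-9776, 0⟩, ⟨-2866, 0⟩, ⟨0, 0⟩, ⟨0, 0⟩, ⟨10229, 0⟩, ⟨-71466, 0⟩, ⟨487334, 0⟩,
    ⟨-43133, 0⟩, ⟨1465, 0⟩, ⟨0, 0⟩, ⟨0, 0⟩, ⟨332, 0⟩, ⟨-3413, 0⟩, ⟨25246, 0⟩, ⟨-24112, 0⟩, ⟨2271,
    0⟩, ⟨0, 0⟩, ⟨0, 0⟩, ⟨19, 0⟩, ⟨308, 0⟩, ⟨-96, 0⟩, ⟨-73, 0⟩, ⟨20, 0⟩, ⟨0, 0⟩, ⟨0, 0⟩, ⟨-65, 0⟩,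
    ⟨-29, 0⟩, ⟨83, 0⟩, ⟨-299, 0⟩, ⟨102, 0⟩, ⟨0, 0⟩, ⟨0, 0⟩, ⟨-56, 0⟩, ⟨219, 0⟩, ⟨-165, 0⟩, ⟨-25,
    0⟩, ⟨25, 0⟩, ⟨0, 0⟩, ⟨0, 0⟩, ⟨81, 0⟩, ⟨-107, 0⟩, ⟨-35, 0⟩, ⟨232, 0⟩, ⟨-46, 0⟩, ⟨0, 0⟩, ⟨0, 0⟩,
    ⟨-115, 0⟩, ⟨32, 0⟩, ⟨44, 0⟩, ⟨12, 0⟩, ⟨-51, 0⟩]⟩, ⟨[], []⟩, ⟨[], []⟩⟩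

theorem clat_8_good : clat_8.good1 famLat = true := by decide +kernel

theorem clat_8_ok0 : latOkP 29 clat_8.c00.P = true := by decide +kernel

theorem clat_8_ok1 : latOkP 29 clat_8.c10.P = true := by decide +kernel

end MaxTerm.Inc
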