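import Pool.Agent.MaxTerm.Basic
import Pool.Agent.MaxTerm.Inc.Check

/-!
# MP_4255df, strictly increasing gaps: definitions

Window `j` of a chain has gap `k`, the gap to the left is `a < k`, the gap to the right `b > k`.
`x = c(-a)`, `|x| = t^a`, `z = c(k+b)`.  The potential of the link `(k, b)` is
`Φ = λ₂ Re (c(k-b) c(k+b)) - λ₁ Re c(2k)` and `Pot = Φ_j - Φ_{j-1}`.
-/

namespace MaxTerm.Inc

open scoped ComplexConjugate

noncomputable def GI.toC (a : GI) : ℂ := ⟨(a.r : ℝ), (a.i : ℝ)⟩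

/-- `∑ P_i G(n+i)`. -/
noncomputable def ev (G : ℤ → ℂ) : ℤ → List GI → ℂ
  | _, [] => 0
  | n, a :: l => a.toC * G n + ev G (n + 1) l

/-- weighted energy `∑_{j<m} w(n+j)⁻¹ |∑ P_i G(n+j+i)|²`. -/
noncomputable def enr (wf : ℤ → ℕ) (G : ℤ → ℂ) (P : List GI) : ℤ → ℕ → ℝ
  | _, 0 => 0
  | n, m + 1 => ((wf n : ℝ))⁻¹ * ‖ev G n P‖ ^ 2 + enr wf G P (n + 1) m

/-- `∑ |P_i|²`. -/
def nrmP (P : List GI) : ℤ := nq (fun _ => 1) 0 P

/-- a window of gap `k`, with left gap `a`: `|c(-a)| = t^a` and the left Newton bounds. -/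
structure IsLeft (K : ℝ) (a k : ℕ) (c : ℤ → ℂ) (t : ℝ) : Prop where
  win : IsWindow K k c
  t_pos : 0 < t
  t_le : t ≤ 1
  norm_x : ‖c (-(a : ℤ))‖ = t ^ a
  newton : ∀ n : ℕ, ‖c (-(n : ℤ))‖ ≤ t ^ n

/-- `λ₁` of a link. -/
noncomputable def lam1 (k b : ℕ) : ℝ := if b = 2 * k then 0.76 else 1

/-- `λ₂` of a link. -/
noncomputable def lam2 (k b : ℕ) : ℝ := if b = 2 * k then 1.2 else 1

/-- the increment of the potential. -/
noncomputable def Pot (a k b : ℕ) (c : ℤ → ℂ) : ℝ :=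
  lam2 k b * (c ((k : ℤ) - b) * c ((k : ℤ) + b)).re - lam1 k b * (c (2 * (k : ℤ))).re
    + lam1 a k * (c (-(a : ℤ)) * c (a : ℤ)).re - lam2 a k * (c (-(k : ℤ))).re

/-- condition on the sequence `G` at a position of nature `s`. -/
def SlotOK (G : ℤ → ℂ) (t : ℝ) (x v u y z : ℂ) (n : ℤ) : Slot → Prop
  | Slot.one => G n = 1
  | Slot.px => G n = x
  | Slot.pv => G n = v
  | Slot.pu => G n = u
  | Slot.py => G n = y
  | Slot.pz => G n = z
  | Slot.unk e => ‖G n‖ ≤ t ^ e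

/-- the linear functional at `x_c`. -/
noncomputable def lin (F : Fam) (xc v u y z : ℂ) : ℝ :=
  -((F.l1R : ℝ) / 100) * v.re - (F.l2L : ℝ) / 100 * u.re + (F.l1L : ℝ) / 100 * (xc * y).re
    + (F.l2R : ℝ) / 100 * (xc * z).re

/-- the functional of the window `(1,2,4)`. -/
noncomputable def linZ (F : Fam) (xc v u y z : ℂ) : ℝ :=
  -((F.l1R : ℝ) / 100) * v.re - (F.l2L : ℝ) / 100 * u.re + (F.l1L : ℝ) / 100 * (xc * y).re
    + (F.l2R : ℝ) / 100 * (z * u).re

/-- everything the checker has to know about the sequence `G`. -/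
structure GOK (F : Fam) (K2 : ℝ) (G : ℤ → ℂ) (t : ℝ) (x v u y z : ℂ) : Prop where
  slot : ∀ n, SlotOK G t x v u y z n (F.sf n)
  t0 : 0 ≤ t
  t1 : t ≤ 1
  hv : ‖v‖ ≤ 1
  hu : ‖u‖ ≤ t ^ F.eu
  hy : ‖y‖ ≤ 1
  hz : ‖z‖ ≤ 1
  hK : K2 ≤ 2.92127

/-! ## the families -/

/-- circle families: positions are the integers, `c(g n) = G(n)`, gaps `(a, k, a+k)`. -/
def circSlot (a k : ℤ) (n : ℤ) : Slot :=
  if n = 0 ∨ n = k then Slot.one
  else if n = -a then Slot.px
  else if n = 2 * k then Slot.pv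
  else if n = -k then Slot.pu
  else if n = a then Slot.py
  else if n = 2 * k + a then Slot.pz
  else if n < 0 then Slot.unk (-n).toNat
  else Slot.unk 0

def fam123 : Fam := ⟨circSlot 1 2, fun _ => 1, -18, 2, 100, 100, 76, 120⟩
def fam134 : Fam := ⟨circSlot 1 3, fun _ => 1, -15, 3, 100, 100, 100, 100⟩
def fam235 : Fam := ⟨circSlot 2 3, fun _ => 1, -19, 3, 100, 100, 100, 100⟩

/-- gaps `(1, 2, 4)`: the special position is `6`. -/
def slot124 (n : ℤ) : Slot :=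
  if n = 0 ∨ n = 2 then Slot.one
  else if n = -1 then Slot.px
  else if n = 4 then Slot.pv
  else if n = -2 then Slot.pu
  else if n = 1 then Slot.py
  else if n = 6 then Slot.pz
  else if n < 0 then Slot.unk (-n).toNat
  else Slot.unk 0

def fam124 : Fam := ⟨slot124, fun _ => 1, -14, 2, 76, 120, 76, 120⟩

/-- lattice coordinates: position `N = 7 m + l`, `-3 ≤ l ≤ 3`. -/
def dm (N : ℤ) : ℤ := (N + 3) / 7
def dl (N : ℤ) : ℤ := N - 7 * ((N + 3) / 7)

/-- lattice family: `N = 7m + l` stands for the position `m k + l a`. -/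
def latSlot (N : ℤ) : Slot :=
  if N = 0 ∨ N = 7 then Slot.one
  else if N = -1 then Slot.px
  else if N = 14 then Slot.pv
  else if N = -7 then Slot.pu
  else if N = 1 then Slot.py
  else if N = 15 then Slot.pz
  else if dm N < 0 then Slot.unk (-(dm N) - dl N).toNat
  else if dm N = 0 ∧ dl N < 0 then Slot.unk (-(dl N)).toNat
  else Slot.unk 0

/-- inverse weights at the shifted positions `n = u - 29`. -/
def latW (n : ℤ) : ℕ :=
  if dl (n + 29) = 3 ∨ dl (n + 29) = -3 then 0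
  else if dl (n + 29) = 2 ∨ dl (n + 29) = -2 then 2
  else 1

def famLat : Fam := ⟨latSlot, latW, -73, 1, 100, 100, 100, 100⟩

/-- the allowed lists `P` of the lattice family: `P_i ≠ 0` only if `29 - i = 7 m + l`, `|l| ≤ 1`. -/
def latOkP : ℤ → List GI → Bool
  | _, [] => true
  | p, b :: Q => ((decide (dl p ≤ 1) && decide (-1 ≤ dl p)) || b.isZero) && latOkP (p - 1) Q

end MaxTerm.Inc
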