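import Pool.Agent.MaxTerm.Inc.Energy

/-! # The Gram inequality

`A(w) = ∑ α_i w^{ik}`, `B = ∑_p μ_p ∑_j β_j w^{p - jk}` with `α * β ≈ δ_0`. -/

open Finset
open scoped ComplexConjugate

namespace MaxTerm.Inc

/-- correlation of the profile. -/
noncomputable def rr (β : ℕ → ℝ) (nb m : ℕ) : ℝ := ∑ j ∈ range nb, β j * β (j + m)

/-- correlation as a function of the difference of the positions. -/
noncomputable def Rk (k : ℕ) (β : ℕ → ℝ) (nb : ℕ) (d : ℤ) : ℝ :=
  if (k : ℤ) ∣ d then rr β nb (d / k).natAbs else 0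

theorem Rk_eq {k : ℕ} (hk : 0 < k) (β : ℕ → ℝ) (nb : ℕ) (hβ : ∀ j, nb ≤ j → β j = 0) (d : ℤ) :
    ∑ j ∈ range nb, ∑ j' ∈ range nb,
      (if (j : ℤ) * k - (j' : ℤ) * k = d then β j * β j' else 0) = Rk k β nb d := by
  have hk' : (k : ℤ) ≠ 0 := by exact_mod_cast hk.ne'
  unfold Rk
  split_ifs with hd
  · obtain ⟨m, rfl⟩ := hd
    have hdiv : ((k : ℤ) * m / k) = m := Int.mul_ediv_cancel_left m hk'
    rw [hdiv]
    have hiff : ∀ j j' : ℕ, ((j : ℤ) * k - (j' : ℤ) * k = k * m) ↔ (j : ℤ) - j' = m := by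
      intro j j'
      constructor
      · intro h
        apply mul_left_cancel₀ hk'
        rw [← h]; ring
      · intro h
        rw [← h]; ring
    rcases le_total 0 m with hm | hm
    · obtain ⟨n, rfl⟩ := Int.eq_ofNat_of_zero_le hm
      rw [Int.natAbs_natCast, sum_comm]
      refine sum_congr rfl fun j' _ => ?_
      rw [show (∑ j ∈ range nb, (if (j : ℤ) * k - (j' : ℤ) * k = k * (n : ℤ) then β j * β j' else 0))
        = ∑ j ∈ range nb, (if j' + n = j then β j * β j' else 0) from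
        sum_congr rfl fun j _ => by
          congr 1
          rw [hiff]
          apply propext
          constructor
          · intro h; omega
          · intro h; omega]
      rw [sum_ite_eq]
      split_ifs with hmem
      · ring
      · rw [mem_range, not_lt] at hmem
        rw [hβ _ hmem, mul_zero]
    · obtain ⟨n, hn⟩ := Int.eq_ofNat_of_zero_le (neg_nonneg.2 hm)
      have hm' : m = -(n : ℤ) := by rw [← hn]; ring
      subst hm'
      rw [Int.natAbs_neg, Int.natAbs_natCast]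
      refine sum_congr rfl fun j _ => ?_
      rw [show (∑ j' ∈ range nb, (if (j : ℤ) * k - (j' : ℤ) * k = k * -(n : ℤ) then β j * β j' else 0))
        = ∑ j' ∈ range nb, (if j + n = j' then β j * β j' else 0) from
        sum_congr rfl fun j' _ => by
          congr 1
          rw [hiff]
          apply propext
          constructor
          · intro h; omega
          · intro h; omega]
      rw [sum_ite_eq]
      split_ifs with hmem
      · rfl
      · rw [mem_range, not_lt] at hmem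
        rw [hβ _ hmem, mul_zero]
  · refine sum_eq_zero fun j _ => sum_eq_zero fun j' _ => ?_
    rw [if_neg]
    intro h
    apply hd
    rw [← h, ← sub_mul]
    exact Dvd.intro_left _ rfl

/-- the convolution identity -/
theorem conv_eq (c : ℤ → ℂ) (k : ℕ) (α β : ℕ → ℝ) (na nb : ℕ) (hα : ∀ i, na ≤ i → α i = 0)
    (hβ : ∀ j, nb ≤ j → β j = 0) (p : ℤ) :
    ∑ j ∈ range nb, (β j : ℂ) * ∑ i ∈ range na, (α i : ℂ) * c (p - j * k - (i : ℤ) * k) =
      ∑ m ∈ range (na + nb), ((∑ i ∈ range (m + 1), α i * β (m - i) : ℝ) : ℂ) * c (p - m * k) := by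
  have h1 : ∀ m ∈ range (na + nb),
      ((∑ i ∈ range (m + 1), α i * β (m - i) : ℝ) : ℂ) * c (p - m * k) =
      ∑ i ∈ range (m + 1), (fun i j : ℕ => (α i : ℂ) * β j * c (p - j * k - (i : ℤ) * k)) i (m - i) := by
    intro m _
    rw [Complex.ofReal_sum, sum_mul]
    refine sum_congr rfl fun i hi => ?_
    have him : i ≤ m := Nat.lt_succ_iff.1 (mem_range.1 hi)
    have : p - (m : ℤ) * k = p - ((m - i : ℕ) : ℤ) * k - (i : ℤ) * k := by
      rw [Nat.cast_sub him]; ring
    simp only [this]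
    push_cast
    rfl
  rw [sum_congr rfl h1, sum_range_diag_flip (na + nb)
    (fun i j : ℕ => (α i : ℂ) * β j * c (p - j * k - (i : ℤ) * k))]
  rw [sum_congr rfl (fun j _ => mul_sum (range na) _ ((β j : ℝ) : ℂ)), sum_comm]
  have h2 : ∀ i ∈ range na, ∑ j ∈ range nb, ((β j : ℝ) : ℂ) * ((α i : ℂ) * c (p - j * k - (i : ℤ) * k)) =
      ∑ j ∈ range (na + nb - i), (α i : ℂ) * β j * c (p - j * k - (i : ℤ) * k) := by
    intro i hi
    rw [mem_range] at hi
    have hsub : range nb ⊆ range (na + nb - i) := by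
      intro x hx
      rw [mem_range] at hx ⊢
      omega
    rw [← sum_subset hsub]
    · exact sum_congr rfl fun j _ => by ring
    · intro j _ hj
      rw [mem_range, not_lt] at hj
      rw [hβ j hj]
      simp
  rw [sum_congr rfl h2]
  have hsub : range na ⊆ range (na + nb) := by
    intro x hx
    rw [mem_range] at hx ⊢
    omega
  refine sum_subset hsub ?_
  intro i _ hi
  rw [mem_range, not_lt] at hi
  refine sum_eq_zero fun j _ => ?_
  rw [hα i hi]
  simp

/-- the error term of the convolution -/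
theorem conv_err {K : ℝ} {k0 : ℕ} {c : ℤ → ℂ} (h : IsWindow K k0 c) (k : ℕ) (α β : ℕ → ℝ)
    (na nb : ℕ) (hα : ∀ i, na ≤ i → α i = 0)
    (hβ : ∀ j, nb ≤ j → β j = 0) (hn : 0 < na) (ε : ℝ)
    (hε : ∑ m ∈ range (na + nb), |(∑ i ∈ range (m + 1), α i * β (m - i)) - if m = 0 then 1 else 0|
      ≤ ε) (p : ℤ) :
    ‖∑ j ∈ range nb, (β j : ℂ) * ∑ i ∈ range na, (α i : ℂ) * c (p - j * k - (i : ℤ) * k) - c p‖ ≤
      ε := by
  have hpos : 0 < na + nb := by omega
  rw [conv_eq c k α β na nb hα hβ p]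
  have h1 : c p = ∑ m ∈ range (na + nb), ((if m = 0 then 1 else 0 : ℝ) : ℂ) * c (p - m * k) := by
    rw [sum_eq_single 0]
    · simp
    · intro b _ hb
      simp [hb]
    · intro hn
      exact absurd (mem_range.2 hpos) hn
  rw [h1, ← sum_sub_distrib]
  refine (norm_sum_le _ _).trans (le_trans (sum_le_sum fun m _ => ?_) hε)
  rw [← sub_mul, ← Complex.ofReal_sub, norm_mul, Complex.norm_real, Real.norm_eq_abs]
  exact mul_le_of_le_one_right (abs_nonneg _) (h.norm_le _)

/-- **G1.** -/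
theorem gram {K : ℝ} {k0 : ℕ} {c : ℤ → ℂ} (h : IsWindow K k0 c) {k : ℕ} (hk : 0 < k)
    (α β : ℕ → ℝ) (na nb : ℕ) (hα : ∀ i, na ≤ i → α i = 0) (hβ : ∀ j, nb ≤ j → β j = 0)
    (hn : 0 < na) (ε : ℝ)
    (hε : ∑ m ∈ range (na + nb), |(∑ i ∈ range (m + 1), α i * β (m - i)) - if m = 0 then 1 else 0|
      ≤ ε)
    {ι : Type*} (I : Finset ι) (p : ι → ℤ) (μ : ι → ℂ) :
    2 * ∑ i ∈ I, (conj (μ i) * c (p i)).re
      - ∑ i ∈ I, ∑ j ∈ I, (conj (μ i) * μ j).re * Rk k β nb (p i - p j)
      - 2 * ε * ∑ i ∈ I, ‖μ i‖ ≤ K ^ 2 * ∑ i ∈ range na, α i ^ 2 := by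
  classical
  -- notation
  set e : ℤ → ℂ := fun u => ∑ i ∈ range na, (α i : ℂ) * c (u - (i : ℤ) * k) with he
  set S : Finset ℤ := (I ×ˢ range nb).image (fun x => p x.1 - (x.2 : ℤ) * k) with hS
  set B : ℤ → ℂ := fun u => ∑ i ∈ I, ∑ j ∈ range nb,
    (if p i - (j : ℤ) * k = u then μ i * (β j : ℂ) else 0) with hB
  have hmemS : ∀ i ∈ I, ∀ j ∈ range nb, p i - (j : ℤ) * k ∈ S := by
    intro i hi j hj
    rw [hS, mem_image]
    exact ⟨(i, j), mem_product.2 ⟨hi, hj⟩, rfl⟩
  -- the energy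
  have hen : ∑ u ∈ S, ‖e u‖ ^ 2 ≤ K ^ 2 * ∑ i ∈ range na, α i ^ 2 := by
    have h1 := energy h (range na) (fun i : ℕ => (i : ℤ) * k) (by
      intro i _ i' _ hii
      have hk' : (k : ℤ) ≠ 0 := by exact_mod_cast hk.ne'
      have := mul_right_cancel₀ hk' hii
      exact_mod_cast this) (fun i => (α i : ℂ)) S
    have h2 : ∑ i ∈ range na, ‖((α i : ℝ) : ℂ)‖ ^ 2 = ∑ i ∈ range na, α i ^ 2 :=
      sum_congr rfl fun i _ => by rw [Complex.norm_real, Real.norm_eq_abs, sq_abs]
    rw [h2] at h1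
    exact h1
  -- the pointwise inequality
  have hpt : ∀ u, 2 * (e u * conj (B u)).re - (B u * conj (B u)).re ≤ ‖e u‖ ^ 2 := by
    intro u
    have h1 : 0 ≤ Complex.normSq (e u - B u) := Complex.normSq_nonneg _
    rw [← Complex.normSq_eq_norm_sq]
    simp only [Complex.normSq_apply, Complex.sub_re, Complex.sub_im, Complex.mul_re,
      Complex.conj_re, Complex.conj_im] at h1 ⊢
    nlinarith
  have hsum : 2 * (∑ u ∈ S, e u * conj (B u)).re - (∑ u ∈ S, B u * conj (B u)).re ≤
      K ^ 2 * ∑ i ∈ range na, α i ^ 2 := by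
    refine le_trans ?_ hen
    rw [Complex.re_sum, Complex.re_sum, mul_sum, ← sum_sub_distrib]
    exact sum_le_sum fun u _ => hpt u
  -- pairing with `B`
  have hpair : ∀ G : ℤ → ℂ, ∑ u ∈ S, G u * conj (B u) =
      ∑ i ∈ I, ∑ j ∈ range nb, conj (μ i) * (β j : ℂ) * G (p i - (j : ℤ) * k) := by
    intro G
    have h1 : ∀ u ∈ S, G u * conj (B u) = ∑ i ∈ I, ∑ j ∈ range nb,
        (if p i - (j : ℤ) * k = u then conj (μ i) * (β j : ℂ) * G u else 0) := by
      intro u _
      rw [hB]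
      simp only [map_sum, mul_sum]
      refine sum_congr rfl fun i _ => sum_congr rfl fun j _ => ?_
      split_ifs
      · rw [map_mul, Complex.conj_ofReal]; ring
      · rw [map_zero, mul_zero]
    rw [sum_congr rfl h1, sum_comm]
    refine sum_congr rfl fun i hi => ?_
    rw [sum_comm]
    refine sum_congr rfl fun j hj => ?_
    rw [sum_ite_eq, if_pos (hmemS i hi j hj)]
  -- first term
  have hfirst : ∑ i ∈ I, (conj (μ i) * c (p i)).re - ε * ∑ i ∈ I, ‖μ i‖ ≤
      (∑ u ∈ S, e u * conj (B u)).re := by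
    rw [hpair e, mul_sum, ← sum_sub_distrib, Complex.re_sum]
    refine sum_le_sum fun i _ => ?_
    have h1 := conv_err h k α β na nb hα hβ hn ε hε (p i)
    set V : ℂ := ∑ j ∈ range nb, (β j : ℂ) * ∑ i' ∈ range na,
      (α i' : ℂ) * c (p i - j * k - (i' : ℤ) * k) with hV
    have h2 : ∑ j ∈ range nb, conj (μ i) * (β j : ℂ) * e (p i - (j : ℤ) * k) = conj (μ i) * V := by
      rw [hV, mul_sum]
      exact sum_congr rfl fun j _ => by rw [he]; ring
    rw [h2]
    have h3 : (conj (μ i) * c (p i)).re - (conj (μ i) * V).re ≤ ‖μ i‖ * ε := by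
      rw [← Complex.sub_re, ← mul_sub]
      refine (Complex.re_le_norm _).trans ?_
      rw [norm_mul, Complex.norm_conj, norm_sub_rev]
      exact mul_le_mul_of_nonneg_left h1 (norm_nonneg _)
    linarith
  -- second term
  have hsecond : (∑ u ∈ S, B u * conj (B u)).re =
      ∑ i ∈ I, ∑ j ∈ I, (conj (μ i) * μ j).re * Rk k β nb (p i - p j) := by
    rw [hpair B, Complex.re_sum]
    refine sum_congr rfl fun i _ => ?_
    rw [hB]
    simp only [mul_sum]
    rw [sum_comm, Complex.re_sum]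
    refine sum_congr rfl fun i' _ => ?_
    rw [← Rk_eq hk β nb hβ, Complex.re_sum, mul_sum]
    refine sum_congr rfl fun j _ => ?_
    rw [Complex.re_sum, mul_sum]
    refine sum_congr rfl fun j' _ => ?_
    by_cases hc : p i' - (j' : ℤ) * k = p i - (j : ℤ) * k
    · rw [if_pos hc, if_pos (by linarith)]
      rw [show conj (μ i) * (β j : ℂ) * (μ i' * (β j' : ℂ)) =
        ((β j * β j' : ℝ) : ℂ) * (conj (μ i) * μ i') by push_cast; ring, Complex.re_ofReal_mul]
      ring
    · rw [if_neg hc, if_neg (by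
        intro h'
        apply hc
        linarith), mul_zero, mul_zero, Complex.zero_re]
  rw [hsecond] at hsum
  linarith

end MaxTerm.Inc
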