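import Pool.Agent.MaxTerm.Inc.Gram

/-! # The Gram inequality with eight atoms, in real form -/

open Finset
open scoped ComplexConjugate

namespace MaxTerm.Inc

/-- profile given by integers (scaled by `10^5`). -/
noncomputable def pf (L : List ℤ) (i : ℕ) : ℝ := ((L.getD i 0 : ℤ) : ℝ) / 10 ^ 5

theorem pf_zero (L : List ℤ) (i : ℕ) (hi : L.length ≤ i) : pf L i = 0 := by
  unfold pf
  rw [List.getD_eq_default _ _ hi]
  simp

/-- `10^10 ε`. -/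
def epsZ (A B : List ℤ) : ℤ :=
  ∑ m ∈ range (A.length + B.length),
    |(∑ i ∈ range (m + 1), A.getD i 0 * B.getD (m - i) 0) - if m = 0 then 10 ^ 10 else 0|

/-- `10^10 ∑ α²`. -/
def nrmZ (A : List ℤ) : ℤ := ∑ i ∈ range A.length, A.getD i 0 ^ 2

/-- `10^10 r(m)`. -/
def rrZ (B : List ℤ) (m : ℕ) : ℤ := ∑ j ∈ range B.length, B.getD j 0 * B.getD (j + m) 0

theorem rr_pf (B : List ℤ) (m : ℕ) : rr (pf B) B.length m = (rrZ B m : ℝ) / 10 ^ 10 := by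
  unfold rr rrZ pf
  push_cast
  rw [Finset.sum_div]
  refine Finset.sum_congr rfl fun j _ => ?_
  ring

theorem eps_pf (A B : List ℤ) :
    ∑ m ∈ range (A.length + B.length),
      |(∑ i ∈ range (m + 1), pf A i * pf B (m - i)) - if m = 0 then 1 else 0|
      = (epsZ A B : ℝ) / 10 ^ 10 := by
  unfold epsZ
  push_cast
  rw [Finset.sum_div]
  refine Finset.sum_congr rfl fun m _ => ?_
  rw [show ((10 : ℝ) ^ 10) = |(10 : ℝ) ^ 10| by rw [abs_of_pos (by positivity)], ← abs_div, sub_div,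
    Finset.sum_div]
  congr 2
  · refine Finset.sum_congr rfl fun i _ => ?_
    unfold pf
    ring
  · split_ifs
    · norm_num
    · simp

theorem nrm_pf (A : List ℤ) : ∑ i ∈ range A.length, pf A i ^ 2 = (nrmZ A : ℝ) / 10 ^ 10 := by
  unfold nrmZ pf
  push_cast
  rw [Finset.sum_div]
  refine Finset.sum_congr rfl fun j _ => ?_
  ring

/-- the correlation as a function of the position difference. -/
noncomputable def RB (k : ℕ) (B : List ℤ) (d : ℤ) : ℝ := Rk k (pf B) B.length d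

theorem RB_mul {k : ℕ} (hk : 0 < k) (B : List ℤ) {d : ℤ} (m : ℕ)
    (hd : d = m * k ∨ d = -(m * k)) : RB k B d = (rrZ B m : ℝ) / 10 ^ 10 := by
  have hk' : (k : ℤ) ≠ 0 := by exact_mod_cast hk.ne'
  unfold RB Rk
  rcases hd with rfl | rfl
  · rw [if_pos (Dvd.intro_left _ rfl), Int.mul_ediv_cancel _ hk', Int.natAbs_natCast, rr_pf]
  · rw [if_pos ((Dvd.intro_left _ rfl).neg_right), ← neg_mul, Int.mul_ediv_cancel _ hk', Int.natAbs_neg,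
      Int.natAbs_natCast, rr_pf]

theorem RB_neg {k : ℕ} (B : List ℤ) (d : ℤ) : RB k B (-d) = RB k B d := by
  unfold RB Rk
  by_cases h : (k : ℤ) ∣ d
  · rw [if_pos h, if_pos h.neg_right, Int.neg_ediv_of_dvd h, Int.natAbs_neg]
  · rw [if_neg h, if_neg (fun h' => h ((dvd_neg).1 h'))]

theorem RB_nd {k : ℕ} (B : List ℤ) {d : ℤ} (h : ¬ (k : ℤ) ∣ d) : RB k B d = 0 := by
  unfold RB Rk
  rw [if_neg h]

/-- for a profile of length `4`, only the differences `j k`, `|j| ≤ 3`, matter. -/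
theorem RB_far {k : ℕ} (hk : 0 < k) (B : List ℤ) (hB : B.length = 4) {d : ℤ}
    (h0 : d ≠ 0) (h1 : d ≠ k) (h2 : d ≠ -k) (h3 : d ≠ 2 * k) (h4 : d ≠ -(2 * k)) (h5 : d ≠ 3 * k)
    (h6 : d ≠ -(3 * k)) : RB k B d = 0 := by
  by_cases h : (k : ℤ) ∣ d
  · obtain ⟨m, rfl⟩ := h
    have hm : 4 ≤ m.natAbs := by
      by_contra hcon
      have hc : -3 ≤ m ∧ m ≤ 3 := by omega
      obtain ⟨hc1, hc2⟩ := hc
      interval_cases m
      · exact h6 (by ring)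
      · exact h4 (by ring)
      · exact h2 (by ring)
      · exact h0 (by ring)
      · exact h1 (by ring)
      · exact h3 (by ring)
      · exact h5 (by ring)
    have hk' : (k : ℤ) ≠ 0 := by exact_mod_cast hk.ne'
    unfold RB Rk
    rw [if_pos (Dvd.intro _ rfl), Int.mul_ediv_cancel_left _ hk']
    unfold rr
    refine Finset.sum_eq_zero fun j _ => ?_
    rw [pf_zero B (j + m.natAbs) (by omega), mul_zero]
  · exact RB_nd B h

theorem nd_of {k : ℕ} {r d : ℤ} (h : ¬ (k : ℤ) ∣ r) (m : ℤ) (hd : d = r + m * k ∨ d = -r + m * k) :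
    ¬ (k : ℤ) ∣ d := by
  intro h'
  apply h
  rcases hd with rfl | rfl
  · exact (Int.dvd_add_left (Dvd.intro_left _ rfl)).1 h'
  · have := (Int.dvd_add_left (Dvd.intro_left m rfl)).1 h'
    exact (dvd_neg).1 this

theorem nd_a {a k : ℕ} (ha : 0 < a) (hak : a < k) : ¬ (k : ℤ) ∣ (a : ℤ) := by
  intro h
  have h1 : k ∣ a := by exact_mod_cast h
  exact absurd (Nat.le_of_dvd ha h1) (by omega)

theorem nd_2a {a k : ℕ} (ha : 0 < a) (hak : a < k) (h2 : 2 * a ≠ k) : ¬ (k : ℤ) ∣ (2 * a : ℤ) := by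
  intro h
  have h1 : k ∣ 2 * a := by exact_mod_cast h
  obtain ⟨m, hm⟩ := h1
  have : m = 0 ∨ m = 1 ∨ 2 ≤ m := by omega
  rcases this with rfl | rfl | h3
  · omega
  · omega
  · nlinarith

/-- bound of a multiplier. -/
theorem norm_lin {x1 x2 z1 z2 : ℝ} (hx : x1 ^ 2 + x2 ^ 2 ≤ 1) (hz : z1 ^ 2 + z2 ^ 2 ≤ 1)
    (r rx rz ix iz X Z : ℝ) (h1 : |rx| ≤ X) (h2 : |ix| ≤ X) (h3 : |rz| ≤ Z) (h4 : |iz| ≤ Z) :
    ‖(⟨r + rx * x1 + rz * z1, ix * x2 + iz * z2⟩ : ℂ)‖ ≤ |r| + X + Z := by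
  have hX : 0 ≤ X := (abs_nonneg _).trans h1
  have hZ : 0 ≤ Z := (abs_nonneg _).trans h3
  have e : (⟨r + rx * x1 + rz * z1, ix * x2 + iz * z2⟩ : ℂ)
      = (r : ℂ) + ⟨rx * x1, ix * x2⟩ + ⟨rz * z1, iz * z2⟩ := by
    apply Complex.ext <;> simp
  have key : ∀ (p q P x y : ℝ), |p| ≤ P → |q| ≤ P → x ^ 2 + y ^ 2 ≤ 1 →
      ‖(⟨p * x, q * y⟩ : ℂ)‖ ≤ P := by
    intro p q P x y hp hq hxy
    have hP : 0 ≤ P := (abs_nonneg _).trans hp
    rw [← abs_of_nonneg hP, ← Real.sqrt_sq_eq_abs, Complex.norm_eq_sqrt_sq_add_sq]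
    apply Real.sqrt_le_sqrt
    have h1 : p ^ 2 ≤ P ^ 2 := by rw [← sq_abs p]; exact pow_le_pow_left₀ (abs_nonneg _) hp 2
    have h2 : q ^ 2 ≤ P ^ 2 := by rw [← sq_abs q]; exact pow_le_pow_left₀ (abs_nonneg _) hq 2
    show (p * x) ^ 2 + (q * y) ^ 2 ≤ P ^ 2
    nlinarith [mul_le_mul_of_nonneg_right h1 (sq_nonneg x), mul_le_mul_of_nonneg_right h2 (sq_nonneg y),
      mul_le_mul_of_nonneg_left hxy (sq_nonneg P)]
  rw [e]
  refine (norm_add_le _ _).trans (add_le_add ((norm_add_le _ _).trans (add_le_add ?_ ?_)) ?_)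
  · simp
  · exact key _ _ _ _ _ h1 h2 hx
  · exact key _ _ _ _ _ h3 h4 hz

theorem sq_le_of_norm {w : ℂ} (h : ‖w‖ ≤ 1) : w.re ^ 2 + w.im ^ 2 ≤ 1 := by
  have h2 : ‖w‖ ^ 2 = w.re ^ 2 + w.im ^ 2 := by
    rw [← Complex.normSq_eq_norm_sq, Complex.normSq_apply]; ring
  rw [← h2]
  exact pow_le_one₀ (norm_nonneg _) h

theorem gram8 {K : ℝ} {k0 : ℕ} {c : ℤ → ℂ} (h : IsWindow K k0 c) {k : ℕ} (hk : 0 < k)
    (A B : List ℤ) (hA : 0 < A.length) (E : ℤ) (hE : epsZ A B ≤ E) (hE0 : 0 ≤ E)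
    (p0 p1 p2 p3 p4 p5 p6 p7 : ℤ)
    (R0 I0 R1 I1 R2 I2 R3 I3 R4 I4 R5 I5 R6 I6 R7 I7 : ℝ)
    (r0 : ℝ) (r01 r02 r03 r04 r05 r06 r07 r12 r13 r14 r15 r16 r17 r23 r24 r25 r26 r27 r34 r35 r36 r37 r45 r46 r47 r56 r57 r67 : ℝ)
    (h0 : RB k B 0 = r0)
    (h01 : RB k B (p0 - p1) = r01)
    (h02 : RB k B (p0 - p2) = r02)
    (h03 : RB k B (p0 - p3) = r03)
    (h04 : RB k B (p0 - p4) = r04)
    (h05 : RB k B (p0 - p5) = r05)
    (h06 : RB k B (p0 - p6) = r06)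
    (h07 : RB k B (p0 - p7) = r07)
    (h12 : RB k B (p1 - p2) = r12)
    (h13 : RB k B (p1 - p3) = r13)
    (h14 : RB k B (p1 - p4) = r14)
    (h15 : RB k B (p1 - p5) = r15)
    (h16 : RB k B (p1 - p6) = r16)
    (h17 : RB k B (p1 - p7) = r17)
    (h23 : RB k B (p2 - p3) = r23)
    (h24 : RB k B (p2 - p4) = r24)
    (h25 : RB k B (p2 - p5) = r25)
    (h26 : RB k B (p2 - p6) = r26)
    (h27 : RB k B (p2 - p7) = r27)
    (h34 : RB k B (p3 - p4) = r34)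
    (h35 : RB k B (p3 - p5) = r35)
    (h36 : RB k B (p3 - p6) = r36)
    (h37 : RB k B (p3 - p7) = r37)
    (h45 : RB k B (p4 - p5) = r45)
    (h46 : RB k B (p4 - p6) = r46)
    (h47 : RB k B (p4 - p7) = r47)
    (h56 : RB k B (p5 - p6) = r56)
    (h57 : RB k B (p5 - p7) = r57)
    (h67 : RB k B (p6 - p7) = r67)
    (M : ℝ) (hM : ‖(⟨R0, I0⟩ : ℂ)‖ + ‖(⟨R1, I1⟩ : ℂ)‖ + ‖(⟨R2, I2⟩ : ℂ)‖ + ‖(⟨R3, I3⟩ : ℂ)‖ + ‖(⟨R4, I4⟩ : ℂ)‖ + ‖(⟨R5, I5⟩ : ℂ)‖ + ‖(⟨R6, I6⟩ : ℂ)‖ + ‖(⟨R7, I7⟩ : ℂ)‖ ≤ M) :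
    2 * ((R0 * (c p0).re + I0 * (c p0).im) + (R1 * (c p1).re + I1 * (c p1).im) + (R2 * (c p2).re + I2 * (c p2).im) + (R3 * (c p3).re + I3 * (c p3).im) + (R4 * (c p4).re + I4 * (c p4).im) + (R5 * (c p5).re + I5 * (c p5).im) + (R6 * (c p6).re + I6 * (c p6).im) + (R7 * (c p7).re + I7 * (c p7).im))
      - (r0 * ((R0 ^ 2 + I0 ^ 2) + (R1 ^ 2 + I1 ^ 2) + (R2 ^ 2 + I2 ^ 2) + (R3 ^ 2 + I3 ^ 2) + (R4 ^ 2 + I4 ^ 2) + (R5 ^ 2 + I5 ^ 2) + (R6 ^ 2 + I6 ^ 2) + (R7 ^ 2 + I7 ^ 2))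
        + 2 * (r01 * (R0 * R1 + I0 * I1) + r02 * (R0 * R2 + I0 * I2) + r03 * (R0 * R3 + I0 * I3) + r04 * (R0 * R4 + I0 * I4) + r05 * (R0 * R5 + I0 * I5) + r06 * (R0 * R6 + I0 * I6) + r07 * (R0 * R7 + I0 * I7) + r12 * (R1 * R2 + I1 * I2) + r13 * (R1 * R3 + I1 * I3) + r14 * (R1 * R4 + I1 * I4) + r15 * (R1 * R5 + I1 * I5) + r16 * (R1 * R6 + I1 * I6) + r17 * (R1 * R7 + I1 * I7) + r23 * (R2 * R3 + I2 * I3) + r24 * (R2 * R4 + I2 * I4) + r25 * (R2 * R5 + I2 * I5) + r26 * (R2 * R6 + I2 * I6) + r27 * (R2 * R7 + I2 * I7) + r34 * (R3 * R4 + I3 * I4) + r35 * (R3 * R5 + I3 * I5) + r36 * (R3 * R6 + I3 * I6) + r37 * (R3 * R7 + I3 * I7) + r45 * (R4 * R5 + I4 * I5) + r46 * (R4 * R6 + I4 * I6) + r47 * (R4 * R7 + I4 * I7) + r56 * (R5 * R6 + I5 * I6) + r57 * (R5 * R7 + I5 * I7) + r67 * (R6 * R7 + I6 * I7)))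
      - 2 * ((E : ℝ) / 10 ^ 10) * M ≤ K ^ 2 * ((nrmZ A : ℝ) / 10 ^ 10) := by
  have hEr : (epsZ A B : ℝ) / 10 ^ 10 ≤ (E : ℝ) / 10 ^ 10 :=
    div_le_div_of_nonneg_right (by exact_mod_cast hE) (by positivity)
  have g := gram h hk (pf A) (pf B) A.length B.length (pf_zero A) (pf_zero B) hA ((E : ℝ) / 10 ^ 10)
    (by rw [eps_pf]; exact hEr) (Finset.univ : Finset (Fin 8))
    ![p0, p1, p2, p3, p4, p5, p6, p7]
    ![⟨R0, I0⟩, ⟨R1, I1⟩, ⟨R2, I2⟩, ⟨R3, I3⟩, ⟨R4, I4⟩, ⟨R5, I5⟩, ⟨R6, I6⟩, ⟨R7, I7⟩]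
  rw [nrm_pf] at g
  have hsym : ∀ i j : ℤ, RB k B (j - i) = RB k B (i - j) := fun i j => by
    rw [← RB_neg, neg_sub]
  have g10 : RB k B (p1 - p0) = r01 := by rw [hsym, h01]
  have g20 : RB k B (p2 - p0) = r02 := by rw [hsym, h02]
  have g30 : RB k B (p3 - p0) = r03 := by rw [hsym, h03]
  have g40 : RB k B (p4 - p0) = r04 := by rw [hsym, h04]
  have g50 : RB k B (p5 - p0) = r05 := by rw [hsym, h05]
  have g60 : RB k B (p6 - p0) = r06 := by rw [hsym, h06]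
  have g70 : RB k B (p7 - p0) = r07 := by rw [hsym, h07]
  have g21 : RB k B (p2 - p1) = r12 := by rw [hsym, h12]
  have g31 : RB k B (p3 - p1) = r13 := by rw [hsym, h13]
  have g41 : RB k B (p4 - p1) = r14 := by rw [hsym, h14]
  have g51 : RB k B (p5 - p1) = r15 := by rw [hsym, h15]
  have g61 : RB k B (p6 - p1) = r16 := by rw [hsym, h16]
  have g71 : RB k B (p7 - p1) = r17 := by rw [hsym, h17]
  have g32 : RB k B (p3 - p2) = r23 := by rw [hsym, h23]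
  have g42 : RB k B (p4 - p2) = r24 := by rw [hsym, h24]
  have g52 : RB k B (p5 - p2) = r25 := by rw [hsym, h25]
  have g62 : RB k B (p6 - p2) = r26 := by rw [hsym, h26]
  have g72 : RB k B (p7 - p2) = r27 := by rw [hsym, h27]
  have g43 : RB k B (p4 - p3) = r34 := by rw [hsym, h34]
  have g53 : RB k B (p5 - p3) = r35 := by rw [hsym, h35]
  have g63 : RB k B (p6 - p3) = r36 := by rw [hsym, h36]
  have g73 : RB k B (p7 - p3) = r37 := by rw [hsym, h37]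
  have g54 : RB k B (p5 - p4) = r45 := by rw [hsym, h45]
  have g64 : RB k B (p6 - p4) = r46 := by rw [hsym, h46]
  have g74 : RB k B (p7 - p4) = r47 := by rw [hsym, h47]
  have g65 : RB k B (p6 - p5) = r56 := by rw [hsym, h56]
  have g75 : RB k B (p7 - p5) = r57 := by rw [hsym, h57]
  have g76 : RB k B (p7 - p6) = r67 := by rw [hsym, h67]
  have hE0r : (0 : ℝ) ≤ (E : ℝ) / 10 ^ 10 := by positivity
  have hM2 := mul_le_mul_of_nonneg_left hM (mul_nonneg (by norm_num : (0 : ℝ) ≤ 2) hE0r)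
  simp only [Fin.sum_univ_eight, Matrix.cons_val, Matrix.cons_val_zero, Matrix.cons_val_one] at g
  have hRB : ∀ d, Rk k (pf B) B.length d = RB k B d := fun _ => rfl
  simp only [hRB, sub_self, h0, h01, g10, h02, g20, h03, g30, h04, g40, h05, g50, h06, g60, h07, g70, h12, g21, h13, g31, h14, g41, h15, g51, h16, g61, h17, g71, h23, g32, h24, g42, h25, g52, h26, g62, h27, g72, h34, g43, h35, g53, h36, g63, h37, g73, h45, g54, h46, g64, h47, g74, h56, g65, h57, g75, h67, g76, Complex.mul_re, Complex.conj_re, Complex.conj_im] at g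
  clear hsym h01 g10 h02 g20 h03 g30 h04 g40 h05 g50 h06 g60 h07 g70 h12 g21 h13 g31 h14 g41 h15 g51 h16 g61 h17 g71 h23 g32 h24 g42 h25 g52 h26 g62 h27 g72 h34 g43 h35 g53 h36 g63 h37 g73 h45 g54 h46 g64 h47 g74 h56 g65 h57 g75 h67 g76
  generalize ((E : ℝ) / 10 ^ 10) = e at g hM2 ⊢
  linarith

end MaxTerm.Inc
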