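import Pool.Agent.MaxTerm.Inc.Sound
import Pool.Agent.MaxTerm.Inc.Energy

/-! # The lattice family `b = a + k`, `k ∤ 2a, 3a`

Position `N = 7m + l` (`|l| ≤ 3`) of the checker stands for the coefficient
`G(N) = c(m k + l a) ξ^l`, `ξ = x / |x|`, so that `G(-1) = |x|` is real. -/

open scoped ComplexConjugate

namespace MaxTerm.Inc

/-- the sequence seen by the checker. -/
noncomputable def latG (a k : ℕ) (c : ℤ → ℂ) (ξ : ℂ) (N : ℤ) : ℂ :=
  c (dm N * k + dl N * a) * ξ ^ dl N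

theorem enr_eq_sum (wf : ℤ → ℕ) (G : ℤ → ℂ) (P : List GI) (n : ℤ) (m : ℕ) :
    enr wf G P n m =
      ∑ j ∈ Finset.range m, ((wf (n + (j : ℕ)) : ℝ))⁻¹ * ‖ev G (n + (j : ℕ)) P‖ ^ 2 := by
  induction m generalizing n with
  | zero => simp [enr]
  | succ m ih =>
    rw [enr, ih, Finset.sum_range_succ', add_comm]
    congr 1
    · refine Finset.sum_congr rfl fun j _ => ?_
      have e : n + 1 + (j : ℤ) = n + ((j + 1 : ℕ) : ℤ) := by push_cast; ring
      rw [e]
    · simp

/-- distinct `(m,l)` with the same position satisfy `|l - l'| ≥ 4`. -/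
theorem lat_pos_eq {a k : ℕ} (ha : 0 < a) (hak : a < k) (h2 : 2 * a ≠ k) (h3 : 3 * a ≠ k)
    (h3' : 3 * a ≠ 2 * k) {m m' l l' : ℤ} (h : m * k + l * a = m' * k + l' * a)
    (hl : l - l' ≤ 3) (hl' : l' - l ≤ 3) : l = l' ∧ m = m' := by
  have hk : (0 : ℤ) < k := by omega
  have ha' : (0 : ℤ) < a := by omega
  have hak' : (a : ℤ) < k := by omega
  obtain ⟨e, he⟩ : ∃ e, e = m - m' := ⟨_, rfl⟩
  obtain ⟨d, hd⟩ : ∃ d, d = l' - l := ⟨_, rfl⟩
  have hed : e * k = d * a := by rw [he, hd]; linarith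
  have hd1 : -3 ≤ d := by omega
  have hd2 : d ≤ 3 := by omega
  have key : d = 0 := by
    by_contra hne
    have he1 : e < 3 := by nlinarith
    have he2 : -3 < e := by nlinarith
    interval_cases e <;> interval_cases d <;> omega
  have : e = 0 := by
    rw [key, zero_mul] at hed
    rcases mul_eq_zero.1 hed with h | h
    · exact h
    · omega
  omega

theorem latOkP_get (P : List GI) : ∀ (p : ℤ), latOkP p P = true → ∀ i : Fin P.length,
    ¬ (dl (p - (i : ℕ)) ≤ 1 ∧ -1 ≤ dl (p - (i : ℕ))) → (P.get i).toC = 0 := by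
  induction P with
  | nil => intro p _ i; exact i.elim0
  | cons b Q ih =>
    intro p hp i hi
    rw [latOkP, Bool.and_eq_true, Bool.or_eq_true, Bool.and_eq_true, decide_eq_true_eq,
      decide_eq_true_eq] at hp
    refine Fin.cases (motive := fun i => ¬ (dl (p - ((i : Fin (Q.length + 1)) : ℕ)) ≤ 1 ∧
      -1 ≤ dl (p - ((i : Fin (Q.length + 1)) : ℕ))) → ((b :: Q).get i).toC = 0) ?_ ?_ i hi
    · intro h0
      rcases hp.1 with h | h
      · exact absurd (by simpa using h) h0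
      · simp only [GI.isZero, Bool.and_eq_true, decide_eq_true_eq] at h
        change b.toC = 0
        unfold GI.toC
        rw [h.1, h.2]
        apply Complex.ext <;> simp
    · intro j hj
      have e : p - 1 - ((j : ℕ) : ℤ) = p - ((Fin.succ j : Fin (Q.length + 1)) : ℕ) := by
        rw [Fin.val_succ]; push_cast; ring
      have := ih (p - 1) hp.2 j
      rw [e] at this
      exact this hj

theorem latW_ne {n : ℤ} (h : latW n ≠ 0) :
    -2 ≤ dl (n + 29) ∧ dl (n + 29) ≤ 2 ∧ ((latW n = 2 ∧ (dl (n + 29) = 2 ∨ dl (n + 29) = -2)) ∨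
      (latW n = 1 ∧ -1 ≤ dl (n + 29) ∧ dl (n + 29) ≤ 1)) := by
  unfold latW at h ⊢
  split_ifs at h ⊢ with h1 h2
  · exact absurd rfl h
  · rcases h2 with h2 | h2 <;> rw [h2] <;> simp
  · have h3 : -3 ≤ dl (n + 29) := by unfold dl; omega
    have h4 : dl (n + 29) ≤ 3 := by unfold dl; omega
    refine ⟨by omega, by omega, Or.inr ⟨rfl, by omega, by omega⟩⟩

/-- **L1.** the energy inequality: distinct `(m,l)` with the same position satisfy `|l - l'| ≥ 4`. -/
theorem enr_lat {K : ℝ} {a k : ℕ} (ha : 0 < a) (hak : a < k) (h2 : 2 * a ≠ k) (h3 : 3 * a ≠ k)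
    (h3' : 3 * a ≠ 2 * k) {c : ℤ → ℂ} (h : IsWindow K k c) {ξ : ℂ} (hξ : ‖ξ‖ = 1) (P : List GI)
    (hP : latOkP 29 P = true) (n : ℤ) (m : ℕ) :
    enr latW (latG a k c ξ) P n m ≤ K ^ 2 * (nrmP P : ℝ) := by
  classical
  have hξ0 : ξ ≠ 0 := by
    intro h0
    rw [h0, norm_zero] at hξ
    exact zero_ne_one hξ
  set I : Finset (Fin P.length) := Finset.univ.filter
    (fun i => dl (29 - (i : ℕ)) ≤ 1 ∧ -1 ≤ dl (29 - (i : ℕ))) with hI
  set U : Finset ℕ := (Finset.range m).filter (fun j => latW (n + (j : ℕ)) ≠ 0) with hU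
  have inj : Set.InjOn (fun i : Fin P.length => dm (29 - (i : ℕ)) * (k : ℤ)
      + dl (29 - (i : ℕ)) * (a : ℤ)) I := by
    intro i hi i' hi' hii
    have hi := (Finset.mem_filter.1 hi).2
    have hi' := (Finset.mem_filter.1 hi').2
    obtain ⟨e1, e2⟩ := lat_pos_eq ha hak h2 h3 h3' hii (by omega) (by omega)
    apply Fin.ext
    unfold dl at e1
    unfold dm at e2
    omega
  have h1 := energy_weighted h I (fun i => dm (29 - (i : ℕ)) * (k : ℤ)
      + dl (29 - (i : ℕ)) * (a : ℤ)) inj (fun i => (P.get i).toC * ξ ^ (-dl (29 - (i : ℕ)))) U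
    (fun j => dm (n + (j : ℕ) + 29) * (k : ℤ) + dl (n + (j : ℕ) + 29) * (a : ℤ))
    (fun j => ((latW (n + (j : ℕ)) : ℝ))⁻¹) (fun j _ => by positivity) ?_
  · rw [enr_eq_sum]
    unfold nrmP
    rw [nq_one_eq_sum]
    have hR : ∑ i ∈ I, ‖(P.get i).toC * ξ ^ (-dl (29 - ((i : ℕ) : ℤ)))‖ ^ 2
        = ∑ i : Fin P.length, ‖(P.get i).toC‖ ^ 2 := by
      have e : ∀ i ∈ I, ‖(P.get i).toC * ξ ^ (-dl (29 - ((i : ℕ) : ℤ)))‖ ^ 2
          = ‖(P.get i).toC‖ ^ 2 := by
        intro i _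
        rw [norm_mul, norm_zpow, hξ, one_zpow, mul_one]
      rw [Finset.sum_congr rfl e]
      refine Finset.sum_subset (Finset.subset_univ _) fun i _ hi => ?_
      rw [latOkP_get P 29 hP i (fun hh => hi (Finset.mem_filter.2 ⟨Finset.mem_univ _, hh⟩))]
      simp
    rw [hR] at h1
    refine le_trans (le_of_eq ?_) h1
    symm
    rw [hU]
    have hfil : ∀ f : ℕ → ℝ, (∀ j, latW (n + (j : ℕ)) = 0 → f j = 0) →
        ∑ j ∈ (Finset.range m).filter (fun j => latW (n + (j : ℕ)) ≠ 0), f j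
          = ∑ j ∈ Finset.range m, f j := by
      intro f hf
      refine Finset.sum_subset (Finset.filter_subset _ _) fun j hj hj' => ?_
      apply hf
      by_contra hne
      exact hj' (Finset.mem_filter.2 ⟨hj, hne⟩)
    rw [← hfil (fun j => ((latW (n + (j : ℕ)) : ℝ))⁻¹ * ‖ev (latG a k c ξ) (n + (j : ℕ)) P‖ ^ 2)
      (fun j hj => by simp [hj])]
    refine Finset.sum_congr rfl fun j hj => ?_
    obtain ⟨w1, w2, -⟩ := latW_ne (Finset.mem_filter.1 hj).2
    congr 2
    rw [ev_eq_sum]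
    have hsub : ∑ i : Fin P.length, (P.get i).toC * latG a k c ξ (n + (j : ℕ) + (i : ℕ))
        = ∑ i ∈ I, (P.get i).toC * latG a k c ξ (n + (j : ℕ) + (i : ℕ)) := by
      symm
      refine Finset.sum_subset (Finset.subset_univ _) fun i _ hi => ?_
      rw [latOkP_get P 29 hP i (fun hh => hi (Finset.mem_filter.2 ⟨Finset.mem_univ _, hh⟩))]
      simp
    rw [hsub]
    have hmul : ∑ i ∈ I, (P.get i).toC * latG a k c ξ (n + (j : ℕ) + (i : ℕ))
        = ξ ^ dl (n + (j : ℕ) + 29) * ∑ i ∈ I, (P.get i).toC * ξ ^ (-dl (29 - ((i : ℕ) : ℤ))) *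
          c (dm (n + (j : ℕ) + 29) * (k : ℤ) + dl (n + (j : ℕ) + 29) * (a : ℤ) -
            (dm (29 - ((i : ℕ) : ℤ)) * (k : ℤ) + dl (29 - ((i : ℕ) : ℤ)) * (a : ℤ))) := by
      rw [Finset.mul_sum]
      refine Finset.sum_congr rfl fun i hi => ?_
      have hi' := (Finset.mem_filter.1 hi).2
      have d1 : dm (n + (j : ℕ) + (i : ℕ)) = dm (n + (j : ℕ) + 29) - dm (29 - ((i : ℕ) : ℤ)) := by
        unfold dl at w1 w2 hi'
        unfold dm
        omega
      have d2 : dl (n + (j : ℕ) + (i : ℕ)) = dl (n + (j : ℕ) + 29) - dl (29 - ((i : ℕ) : ℤ)) := by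
        unfold dl at w1 w2 hi'
        unfold dl
        omega
      unfold latG
      rw [d1, d2, sub_eq_add_neg (dl (n + (j : ℕ) + 29)), zpow_add₀ hξ0]
      have e : (dm (n + (j : ℕ) + 29) - dm (29 - ((i : ℕ) : ℤ))) * (k : ℤ)
          + (dl (n + (j : ℕ) + 29) + -dl (29 - ((i : ℕ) : ℤ))) * (a : ℤ)
          = dm (n + (j : ℕ) + 29) * (k : ℤ) + dl (n + (j : ℕ) + 29) * (a : ℤ) -
            (dm (29 - ((i : ℕ) : ℤ)) * (k : ℤ) + dl (29 - ((i : ℕ) : ℤ)) * (a : ℤ)) := by ring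
      rw [e]
      ring
    rw [hmul, norm_mul, norm_zpow, hξ, one_zpow, one_mul]
  · intro q
    have hdet : ∀ j ∈ U.filter (fun j => dm (n + (j : ℕ) + 29) * (k : ℤ)
          + dl (n + (j : ℕ) + 29) * (a : ℤ) = q),
        ∀ j' ∈ U.filter (fun j => dm (n + (j : ℕ) + 29) * (k : ℤ)
          + dl (n + (j : ℕ) + 29) * (a : ℤ) = q),
        dl (n + (j : ℕ) + 29) - dl (n + (j' : ℕ) + 29) ≤ 3 →
        dl (n + (j' : ℕ) + 29) - dl (n + (j : ℕ) + 29) ≤ 3 → j = j' := by
      intro j hj j' hj' g1 g2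
      obtain ⟨e1, e2⟩ := lat_pos_eq ha hak h2 h3 h3'
        ((Finset.mem_filter.1 hj).2.trans (Finset.mem_filter.1 hj').2.symm) g1 g2
      unfold dl at e1
      unfold dm at e2
      omega
    have hmem : ∀ j ∈ U.filter (fun j => dm (n + (j : ℕ) + 29) * (k : ℤ)
          + dl (n + (j : ℕ) + 29) * (a : ℤ) = q), latW (n + (j : ℕ)) ≠ 0 := by
      intro j hj
      exact (Finset.mem_filter.1 (Finset.mem_filter.1 hj).1).2
    generalize U.filter (fun j => dm (n + (j : ℕ) + 29) * (k : ℤ)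
          + dl (n + (j : ℕ) + 29) * (a : ℤ) = q) = S at hdet hmem
    by_cases hex : ∃ j ∈ S, -1 ≤ dl (n + (j : ℕ) + 29) ∧ dl (n + (j : ℕ) + 29) ≤ 1
    · obtain ⟨j, hj, w1, w2⟩ := hex
      have hS : S = {j} := by
        ext j'
        rw [Finset.mem_singleton]
        constructor
        · intro hj'
          obtain ⟨v1, v2, -⟩ := latW_ne (hmem j' hj')
          exact hdet j' hj' j hj (by omega) (by omega)
        · rintro rfl
          exact hj
      rw [hS, Finset.sum_singleton]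
      obtain ⟨-, -, hh | hh⟩ := latW_ne (hmem j hj)
      · omega
      · rw [hh.1]; simp
    · push Not at hex
      have hval : ∀ j ∈ S, latW (n + (j : ℕ)) = 2 ∧
          (dl (n + (j : ℕ) + 29) = 2 ∨ dl (n + (j : ℕ) + 29) = -2) := by
        intro j hj
        obtain ⟨-, -, hh | hh⟩ := latW_ne (hmem j hj)
        · exact hh
        · exact absurd hh.2.2 (not_le.2 (hex j hj hh.2.1))
      have hcard : S.card ≤ 2 := by
        have : S.card ≤ ({2, -2} : Finset ℤ).card := by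
          refine Finset.card_le_card_of_injOn (fun j : ℕ => dl (n + (j : ℕ) + 29)) ?_ ?_
          · intro j hj
            have := (hval j hj).2
            simpa using this
          · intro j hj j' hj' hjj
            have hjj' : dl (n + (j : ℕ) + 29) = dl (n + (j' : ℕ) + 29) := hjj
            exact hdet j hj j' hj' (by omega) (by omega)
        exact this.trans (by decide)
      have hs : ∑ j ∈ S, ((latW (n + (j : ℕ)) : ℝ))⁻¹ = S.card * (2 : ℝ)⁻¹ := by
        rw [Finset.sum_congr rfl (fun j hj => by rw [(hval j hj).1]), Finset.sum_const,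
          nsmul_eq_mul]
        simp
      rw [hs]
      have : (S.card : ℝ) ≤ 2 := by exact_mod_cast hcard
      linarith

/-- **L2.** a cell of the lattice family. -/
theorem lat_pot {K : ℝ} {a k : ℕ} (ha : 0 < a) (hak : a < k) (h2 : 2 * a ≠ k) (h3 : 3 * a ≠ k)
    (h3' : 3 * a ≠ 2 * k) {c : ℤ → ℂ} {t : ℝ} (h : IsLeft K a k c t) (hK : K ^ 2 ≤ 2.92127)
    (C : Cell) (hC : C.good1 famLat = true) (hP0 : latOkP 29 C.c00.P = true)
    (hP1 : latOkP 29 C.c10.P = true)
    (hin1 : (C.a1 : ℝ) / 100 ≤ ‖c (-(a : ℤ))‖) (hin2 : ‖c (-(a : ℤ))‖ ≤ (C.b1 : ℝ) / 100) :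
    1 / 1000 ≤ Pot a k (a + k) c := by
  set ρ : ℝ := ‖c (-(a : ℤ))‖ with hρ
  have hρt : ρ = t ^ a := h.norm_x
  have hρ0 : 0 < ρ := by rw [hρt]; exact pow_pos h.t_pos a
  have hρ1 : ρ ≤ 1 := h.win.norm_le _
  have hρC : (ρ : ℂ) ≠ 0 := by exact_mod_cast hρ0.ne'
  obtain ⟨ξ, hξ⟩ : ∃ ξ : ℂ, ξ = c (-(a : ℤ)) / ρ := ⟨_, rfl⟩
  have hx : c (-(a : ℤ)) = ρ * ξ := by
    rw [hξ, mul_div_cancel₀ _ hρC]
  have hξ1 : ‖ξ‖ = 1 := by
    rw [hξ, norm_div, Complex.norm_real, Real.norm_of_nonneg hρ0.le, ← hρ, div_self hρ0.ne']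
  have hξ0 : ξ ≠ 0 := by
    intro h0
    rw [h0, norm_zero] at hξ1
    exact zero_ne_one hξ1
  have hn : ∀ N : ℤ, ‖latG a k c ξ N‖ = ‖c (dm N * k + dl N * a)‖ := by
    intro N
    rw [latG, norm_mul, norm_zpow, hξ1, one_zpow, mul_one]
  have hG : GOK famLat (K ^ 2) (latG a k c ξ) ρ (ρ : ℂ) (c (2 * (k : ℤ))) (c (-(k : ℤ)))
      (c (a : ℤ) * ξ) (c (2 * (k : ℤ) + a) * ξ) := by
    refine ⟨?_, hρ0.le, hρ1, h.win.norm_le _, ?_, ?_, ?_, hK⟩
    · intro N
      change SlotOK _ _ _ _ _ _ _ N (latSlot N)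
      unfold latSlot
      split_ifs with c1 c2 c3 c4 c5 c6 c7 c8
      · change latG a k c ξ N = 1
        rcases c1 with c1 | c1
        · have : dm N = 0 ∧ dl N = 0 := by subst c1; decide
          rw [latG, this.1, this.2]
          simp [h.win.c_zero]
        · have : dm N = 1 ∧ dl N = 0 := by subst c1; decide
          rw [latG, this.1, this.2]
          simp [h.win.c_edge]
      · change latG a k c ξ N = ρ
        have : dm N = 0 ∧ dl N = -1 := by subst c2; decide
        rw [latG, this.1, this.2]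
        have e : (0 : ℤ) * (k : ℤ) + -1 * (a : ℤ) = -(a : ℤ) := by ring
        rw [e, hx, zpow_neg_one, mul_assoc, mul_inv_cancel₀ hξ0, mul_one]
      · change latG a k c ξ N = c (2 * (k : ℤ))
        have : dm N = 2 ∧ dl N = 0 := by subst c3; decide
        rw [latG, this.1, this.2]
        simp
      · change latG a k c ξ N = c (-(k : ℤ))
        have : dm N = -1 ∧ dl N = 0 := by subst c4; decide
        rw [latG, this.1, this.2]
        simp
      · change latG a k c ξ N = c (a : ℤ) * ξ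
        have : dm N = 0 ∧ dl N = 1 := by subst c5; decide
        rw [latG, this.1, this.2]
        simp
      · change latG a k c ξ N = c (2 * (k : ℤ) + a) * ξ
        have : dm N = 2 ∧ dl N = 1 := by subst c6; decide
        rw [latG, this.1, this.2]
        simp
      · change ‖latG a k c ξ N‖ ≤ ρ ^ (-(dm N) - dl N).toNat
        rw [hn]
        rcases le_or_gt 0 (-(dm N) - dl N) with hpos | hneg
        · obtain ⟨e, he⟩ : ∃ e : ℕ, (-(dm N) - dl N) = (e : ℤ) :=
            ⟨_, (Int.toNat_of_nonneg hpos).symm⟩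
          rw [he, Int.toNat_natCast, hρt, ← pow_mul]
          have hkk : (a : ℤ) < k := by exact_mod_cast hak
          have ha' : (0 : ℤ) < a := by exact_mod_cast ha
          have hge : (a : ℤ) * e ≤ -(dm N * k + dl N * a) := by
            rw [← he]
            nlinarith
          have hge0 : 0 ≤ -(dm N * k + dl N * a) := le_trans (by positivity) hge
          obtain ⟨p, hp⟩ : ∃ p : ℕ, -(dm N * k + dl N * a) = (p : ℤ) :=
            ⟨_, (Int.toNat_of_nonneg hge0).symm⟩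
          have e1 : dm N * k + dl N * a = -(p : ℤ) := by rw [← hp]; ring
          rw [e1]
          refine (h.newton p).trans ?_
          refine pow_le_pow_of_le_one h.t_pos.le h.t_le ?_
          rw [hp] at hge
          exact_mod_cast hge
        · rw [Int.toNat_of_nonpos hneg.le, pow_zero]
          exact h.win.norm_le _
      · change ‖latG a k c ξ N‖ ≤ ρ ^ (-(dl N)).toNat
        rw [hn, c8.1]
        obtain ⟨e, he⟩ : ∃ e : ℕ, (-(dl N)) = (e : ℤ) :=
          ⟨_, (Int.toNat_of_nonneg (by omega)).symm⟩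
        rw [he, Int.toNat_natCast, hρt, ← pow_mul]
        have e1 : (0 : ℤ) * k + dl N * a = -((a * e : ℕ) : ℤ) := by
          push_cast
          rw [← he]
          ring
        rw [e1]
        exact h.newton _
      · change ‖latG a k c ξ N‖ ≤ ρ ^ 0
        rw [hn, pow_zero]
        exact h.win.norm_le _
    · change ‖c (-(k : ℤ))‖ ≤ ρ ^ 1
      rw [pow_one, hρt]
      exact (h.newton k).trans (pow_le_pow_of_le_one h.t_pos.le h.t_le hak.le)
    · rw [norm_mul, hξ1, mul_one]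
      exact h.win.norm_le _
    · rw [norm_mul, hξ1, mul_one]
      exact h.win.norm_le _
  have hres := Cell.sound1 hG C hC (by
    intro p hp
    simp only [List.mem_cons, List.not_mem_nil, or_false] at hp
    rcases hp with rfl | rfl
    · exact enr_lat ha hak h2 h3 h3' h.win hξ1 _ hP0 _ _
    · exact enr_lat ha hak h2 h3 h3' h.win hξ1 _ hP1 _ _) hin1 hin2
  have hPot : Pot a k (a + k) c = lin famLat (ρ : ℂ) (c (2 * (k : ℤ))) (c (-(k : ℤ)))
      (c (a : ℤ) * ξ) (c (2 * (k : ℤ) + a) * ξ) := by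
    have l1 : lam2 k (a + k) = 1 := by unfold lam2; rw [if_neg (by omega)]
    have l2 : lam1 k (a + k) = 1 := by unfold lam1; rw [if_neg (by omega)]
    have l3 : lam2 a k = 1 := by unfold lam2; rw [if_neg (by omega)]
    have l4 : lam1 a k = 1 := by unfold lam1; rw [if_neg (by omega)]
    unfold Pot lin
    rw [l1, l2, l3, l4]
    have e1 : (k : ℤ) - ((a + k : ℕ) : ℤ) = -(a : ℤ) := by push_cast; ring
    have e2 : (k : ℤ) + ((a + k : ℕ) : ℤ) = 2 * (k : ℤ) + a := by push_cast; ring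
    rw [e1, e2, hx]
    have e3 : (ρ : ℂ) * ξ * c (2 * (k : ℤ) + a) = (ρ : ℂ) * (c (2 * (k : ℤ) + a) * ξ) := by ring
    have e4 : (ρ : ℂ) * ξ * c (a : ℤ) = (ρ : ℂ) * (c (a : ℤ) * ξ) := by ring
    rw [e3, e4]
    simp only [famLat]
    norm_num
    ring
  rw [hPot]
  exact hres

end MaxTerm.Inc
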