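import Pool.Agent.MaxTerm.Inc.Prof

/-! # Gram families, part 1 (generated) -/

namespace MaxTerm.Inc

/-- family `b2`, margin `0.0093`. -/
theorem psd_b2 {K : ℝ} {a k b : ℕ} {c : ℤ → ℂ} (ha : 0 < a) (hak : a < k) (hkb : k < b)
    (e0 : 2 * a ≠ k) (e1 : b = 2 * k)
    (hK : K ^ 2 ≤ 2.92127) (h : IsWindow K k c) : 1 / 1000 ≤ Pot a k b c := by
  have hk : 0 < k := by omega
  have q1 : lam1 k b = 0.76 := if_pos (by omega)
  have q2 : lam2 k b = 1.2 := if_pos (by omega)
  have q3 : lam1 a k = 1 := if_neg (by omega)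
  have q4 : lam2 a k = 1 := if_neg (by omega)
  have r01 : RB k P2B (0 - (k : ℤ)) = (-367369/500000) :=
    (RB_mul hk P2B 1 (by push_cast; omega)).trans P2_r1
  have r02 : RB k P2B (0 - (-(k : ℤ))) = (-367369/500000) :=
    (RB_mul hk P2B 1 (by push_cast; omega)).trans P2_r1
  have r03 : RB k P2B (0 - (2 * (k : ℤ))) = 24537/100000 :=
    (RB_mul hk P2B 2 (by push_cast; omega)).trans P2_r2
  have r04 : RB k P2B (0 - (-(a : ℤ))) = 0 :=
    RB_far hk _ rfl (by omega) (by omega) (by omega) (by omega) (by omega) (by omega) (by omega)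
  have r05 : RB k P2B (0 - (a : ℤ)) = 0 :=
    RB_far hk _ rfl (by omega) (by omega) (by omega) (by omega) (by omega) (by omega) (by omega)
  have r06 : RB k P2B (0 - ((k : ℤ) + b)) = (-23/500) :=
    (RB_mul hk P2B 3 (by push_cast; omega)).trans P2_r3
  have r07 : RB k P2B (0 - ((k : ℤ) - b)) = (-367369/500000) :=
    (RB_mul hk P2B 1 (by push_cast; omega)).trans P2_r1
  have r12 : RB k P2B ((k : ℤ) - (-(k : ℤ))) = 24537/100000 :=
    (RB_mul hk P2B 2 (by push_cast; omega)).trans P2_r2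
  have r13 : RB k P2B ((k : ℤ) - (2 * (k : ℤ))) = (-367369/500000) :=
    (RB_mul hk P2B 1 (by push_cast; omega)).trans P2_r1
  have r14 : RB k P2B ((k : ℤ) - (-(a : ℤ))) = 0 :=
    RB_far hk _ rfl (by omega) (by omega) (by omega) (by omega) (by omega) (by omega) (by omega)
  have r15 : RB k P2B ((k : ℤ) - (a : ℤ)) = 0 :=
    RB_far hk _ rfl (by omega) (by omega) (by omega) (by omega) (by omega) (by omega) (by omega)
  have r16 : RB k P2B ((k : ℤ) - ((k : ℤ) + b)) = 24537/100000 :=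
    (RB_mul hk P2B 2 (by push_cast; omega)).trans P2_r2
  have r17 : RB k P2B ((k : ℤ) - ((k : ℤ) - b)) = 24537/100000 :=
    (RB_mul hk P2B 2 (by push_cast; omega)).trans P2_r2
  have r23 : RB k P2B ((-(k : ℤ)) - (2 * (k : ℤ))) = (-23/500) :=
    (RB_mul hk P2B 3 (by push_cast; omega)).trans P2_r3
  have r24 : RB k P2B ((-(k : ℤ)) - (-(a : ℤ))) = 0 :=
    RB_far hk _ rfl (by omega) (by omega) (by omega) (by omega) (by omega) (by omega) (by omega)
  have r25 : RB k P2B ((-(k : ℤ)) - (a : ℤ)) = 0 :=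
    RB_far hk _ rfl (by omega) (by omega) (by omega) (by omega) (by omega) (by omega) (by omega)
  have r26 : RB k P2B ((-(k : ℤ)) - ((k : ℤ) + b)) = 0 :=
    RB_far hk _ rfl (by omega) (by omega) (by omega) (by omega) (by omega) (by omega) (by omega)
  have r27 : RB k P2B ((-(k : ℤ)) - ((k : ℤ) - b)) = 280733/200000 :=
    (RB_mul hk P2B 0 (by push_cast; omega)).trans P2_r0
  have r34 : RB k P2B ((2 * (k : ℤ)) - (-(a : ℤ))) = 0 :=
    RB_far hk _ rfl (by omega) (by omega) (by omega) (by omega) (by omega) (by omega) (by omega)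
  have r35 : RB k P2B ((2 * (k : ℤ)) - (a : ℤ)) = 0 :=
    RB_far hk _ rfl (by omega) (by omega) (by omega) (by omega) (by omega) (by omega) (by omega)
  have r36 : RB k P2B ((2 * (k : ℤ)) - ((k : ℤ) + b)) = (-367369/500000) :=
    (RB_mul hk P2B 1 (by push_cast; omega)).trans P2_r1
  have r37 : RB k P2B ((2 * (k : ℤ)) - ((k : ℤ) - b)) = (-23/500) :=
    (RB_mul hk P2B 3 (by push_cast; omega)).trans P2_r3
  have r45 : RB k P2B ((-(a : ℤ)) - (a : ℤ)) = 0 :=
    RB_far hk _ rfl (by omega) (by omega) (by omega) (by omega) (by omega) (by omega) (by omega)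
  have r46 : RB k P2B ((-(a : ℤ)) - ((k : ℤ) + b)) = 0 :=
    RB_far hk _ rfl (by omega) (by omega) (by omega) (by omega) (by omega) (by omega) (by omega)
  have r47 : RB k P2B ((-(a : ℤ)) - ((k : ℤ) - b)) = 0 :=
    RB_far hk _ rfl (by omega) (by omega) (by omega) (by omega) (by omega) (by omega) (by omega)
  have r56 : RB k P2B ((a : ℤ) - ((k : ℤ) + b)) = 0 :=
    RB_far hk _ rfl (by omega) (by omega) (by omega) (by omega) (by omega) (by omega) (by omega)
  have r57 : RB k P2B ((a : ℤ) - ((k : ℤ) - b)) = 0 :=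
    RB_far hk _ rfl (by omega) (by omega) (by omega) (by omega) (by omega) (by omega) (by omega)
  have r67 : RB k P2B (((k : ℤ) + b) - ((k : ℤ) - b)) = 0 :=
    RB_far hk _ rfl (by omega) (by omega) (by omega) (by omega) (by omega) (by omega) (by omega)
  have r00 : RB k P2B 0 = 280733/200000 := (RB_mul hk P2B 0 (by simp)).trans P2_r0
  have hx := h.norm_le (-(a : ℤ))
  have hz := h.norm_le ((k : ℤ) + b)
  have hx2 : (c (-(a : ℤ))).re ^ 2 + (c (-(a : ℤ))).im ^ 2 ≤ 1 := sq_le_of_norm hx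
  have hz2 : (c ((k : ℤ) + b)).re ^ 2 + (c ((k : ℤ) + b)).im ^ 2 ≤ 1 := sq_le_of_norm hz
  have n0 := norm_lin hx2 hz2 (1991/1000) (0) ((-569/1000)) (0) (449/1000) (0) (569/1000)
    (by norm_num [abs_le]) (by norm_num [abs_le]) (by norm_num [abs_le]) (by norm_num [abs_le])
  have n1 := norm_lin hx2 hz2 (1911/1000) (0) ((-139/500)) (0) ((-43/1000)) (0) (139/500)
    (by norm_num [abs_le]) (by norm_num [abs_le]) (by norm_num [abs_le]) (by norm_num [abs_le])
  have n2 := norm_lin hx2 hz2 (250/351) (0) (0) (0) (0) (0) (0)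
    (by norm_num [abs_le]) (by norm_num [abs_le]) (by norm_num [abs_le]) (by norm_num [abs_le])
  have n3 := norm_lin hx2 hz2 (190/351) (0) (0) (0) (0) (0) (0)
    (by norm_num [abs_le]) (by norm_num [abs_le]) (by norm_num [abs_le]) (by norm_num [abs_le])
  have n4 := norm_lin hx2 hz2 (0) (89/125) (0) (89/125) (0) (89/125) (0)
    (by norm_num [abs_le]) (by norm_num [abs_le]) (by norm_num [abs_le]) (by norm_num [abs_le])
  have n5 := norm_lin hx2 hz2 (0) ((-250/351)) (0) (250/351) (0) (250/351) (0)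
    (by norm_num [abs_le]) (by norm_num [abs_le]) (by norm_num [abs_le]) (by norm_num [abs_le])
  have n6 := norm_lin hx2 hz2 (3/200) (0) (371/500) (0) (147/200) (0) (371/500)
    (by norm_num [abs_le]) (by norm_num [abs_le]) (by norm_num [abs_le]) (by norm_num [abs_le])
  have n7 := norm_lin hx2 hz2 (0) (0) ((-100/117)) (0) (100/117) (0) (100/117)
    (by norm_num [abs_le]) (by norm_num [abs_le]) (by norm_num [abs_le]) (by norm_num [abs_le])
  have g := gram8 h hk P2A P2B P2_len 554200 P2_eps (by norm_num) 0 (k : ℤ) (-(k : ℤ)) (2 * (k : ℤ))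
    (-(a : ℤ)) (a : ℤ) ((k : ℤ) + b) ((k : ℤ) - b) _ _ _ _ _ _ _ _ _ _ _ _ _ _ _ _
    _ _ _ _ _ _ _ _ _ _ _ _ _ _ _ _ _ _ _ _ _ _ _ _ _ _ _ _ _ r00 r01 r02 r03 r04 r05 r06 r07 r12 r13 r14 r15 r16 r17 r23 r24 r25 r26 r27 r34 r35 r36 r37 r45 r46 r47 r56 r57 r67
    (176251/19500) ((add_le_add (add_le_add (add_le_add (add_le_add (add_le_add (add_le_add (add_le_add
      n0 n1) n2) n3) n4) n5) n6) n7).trans (by norm_num [abs_of_neg, abs_of_pos]))
  rw [h.c_zero, h.c_edge, P2_nrm] at g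
  simp only [Complex.one_re, Complex.one_im] at g
  unfold Pot
  rw [q1, q2, q3, q4]
  simp only [Complex.mul_re]
  clear n0 n1 n2 n3 n4 n5 n6 n7 q1 q2 q3 q4 r01 r02 r03 r04 r05 r06 r07 r12 r13 r14 r15 r16 r17 r23 r24 r25 r26 r27 r34 r35 r36 r37 r45 r46 r47 r56 r57 r67 r00 hx hz h
  generalize (c (-(a : ℤ))).re = x1 at g hx2 ⊢
  generalize (c (-(a : ℤ))).im = x2 at g hx2 ⊢
  generalize (c ((k : ℤ) + b)).re = z1 at g hz2 ⊢
  generalize (c ((k : ℤ) + b)).im = z2 at g hz2 ⊢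
  generalize (c ((k : ℤ) - b)).re = w1 at g ⊢
  generalize (c ((k : ℤ) - b)).im = w2 at g ⊢
  generalize (c (a : ℤ)).re = y1 at g ⊢
  generalize (c (a : ℤ)).im = y2 at g ⊢
  generalize (c (-(k : ℤ))).re = u1 at g ⊢
  generalize (c (-(k : ℤ))).im = u2 at g
  generalize (c (2 * (k : ℤ))).re = v1 at g ⊢
  generalize (c (2 * (k : ℤ))).im = v2 at g
  generalize K ^ 2 = KK at g hK
  linarith [sq_nonneg (x1 + 0 * z1 + 0),
    sq_nonneg (z1 + (-1309/10000)),
    sq_nonneg (x2 + 0 * z2),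
    sq_nonneg z2,
    sq_nonneg x2,
    sq_nonneg x1,
    sq_nonneg z1,
    sq_nonneg (x1 + z1),
    sq_nonneg (x1 - z1),
    sq_nonneg (x2 + z2),
    sq_nonneg (x2 - z2),
    sq_nonneg (x1 + 1),
    sq_nonneg (x1 - 1),
    sq_nonneg (z1 + 1),
    sq_nonneg (z1 - 1)]

/-- family `b3`, margin `0.0446`. -/
theorem psd_b3 {K : ℝ} {a k b : ℕ} {c : ℤ → ℂ} (ha : 0 < a) (hak : a < k) (hkb : k < b)
    (e0 : 2 * a ≠ k) (e1 : b = 3 * k)
    (hK : K ^ 2 ≤ 2.92127) (h : IsWindow K k c) : 1 / 1000 ≤ Pot a k b c := by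
  have hk : 0 < k := by omega
  have q1 : lam1 k b = 1 := if_neg (by omega)
  have q2 : lam2 k b = 1 := if_neg (by omega)
  have q3 : lam1 a k = 1 := if_neg (by omega)
  have q4 : lam2 a k = 1 := if_neg (by omega)
  have r01 : RB k P3B (0 - (k : ℤ)) = (-1757/2000) :=
    (RB_mul hk P3B 1 (by push_cast; omega)).trans P3_r1
  have r02 : RB k P3B (0 - (-(k : ℤ))) = (-1757/2000) :=
    (RB_mul hk P3B 1 (by push_cast; omega)).trans P3_r1
  have r03 : RB k P3B (0 - (2 * (k : ℤ))) = 7179/20000 :=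
    (RB_mul hk P3B 2 (by push_cast; omega)).trans P3_r2
  have r04 : RB k P3B (0 - (-(a : ℤ))) = 0 :=
    RB_far hk _ rfl (by omega) (by omega) (by omega) (by omega) (by omega) (by omega) (by omega)
  have r05 : RB k P3B (0 - (a : ℤ)) = 0 :=
    RB_far hk _ rfl (by omega) (by omega) (by omega) (by omega) (by omega) (by omega) (by omega)
  have r06 : RB k P3B (0 - ((k : ℤ) + b)) = 0 :=
    RB_far hk _ rfl (by omega) (by omega) (by omega) (by omega) (by omega) (by omega) (by omega)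
  have r07 : RB k P3B (0 - ((k : ℤ) - b)) = 7179/20000 :=
    (RB_mul hk P3B 2 (by push_cast; omega)).trans P3_r2
  have r12 : RB k P3B ((k : ℤ) - (-(k : ℤ))) = 7179/20000 :=
    (RB_mul hk P3B 2 (by push_cast; omega)).trans P3_r2
  have r13 : RB k P3B ((k : ℤ) - (2 * (k : ℤ))) = (-1757/2000) :=
    (RB_mul hk P3B 1 (by push_cast; omega)).trans P3_r1
  have r14 : RB k P3B ((k : ℤ) - (-(a : ℤ))) = 0 :=
    RB_far hk _ rfl (by omega) (by omega) (by omega) (by omega) (by omega) (by omega) (by omega)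
  have r15 : RB k P3B ((k : ℤ) - (a : ℤ)) = 0 :=
    RB_far hk _ rfl (by omega) (by omega) (by omega) (by omega) (by omega) (by omega) (by omega)
  have r16 : RB k P3B ((k : ℤ) - ((k : ℤ) + b)) = (-9/100) :=
    (RB_mul hk P3B 3 (by push_cast; omega)).trans P3_r3
  have r17 : RB k P3B ((k : ℤ) - ((k : ℤ) - b)) = (-9/100) :=
    (RB_mul hk P3B 3 (by push_cast; omega)).trans P3_r3
  have r23 : RB k P3B ((-(k : ℤ)) - (2 * (k : ℤ))) = (-9/100) :=
    (RB_mul hk P3B 3 (by push_cast; omega)).trans P3_r3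
  have r24 : RB k P3B ((-(k : ℤ)) - (-(a : ℤ))) = 0 :=
    RB_far hk _ rfl (by omega) (by omega) (by omega) (by omega) (by omega) (by omega) (by omega)
  have r25 : RB k P3B ((-(k : ℤ)) - (a : ℤ)) = 0 :=
    RB_far hk _ rfl (by omega) (by omega) (by omega) (by omega) (by omega) (by omega) (by omega)
  have r26 : RB k P3B ((-(k : ℤ)) - ((k : ℤ) + b)) = 0 :=
    RB_far hk _ rfl (by omega) (by omega) (by omega) (by omega) (by omega) (by omega) (by omega)
  have r27 : RB k P3B ((-(k : ℤ)) - ((k : ℤ) - b)) = (-1757/2000) :=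
    (RB_mul hk P3B 1 (by push_cast; omega)).trans P3_r1
  have r34 : RB k P3B ((2 * (k : ℤ)) - (-(a : ℤ))) = 0 :=
    RB_far hk _ rfl (by omega) (by omega) (by omega) (by omega) (by omega) (by omega) (by omega)
  have r35 : RB k P3B ((2 * (k : ℤ)) - (a : ℤ)) = 0 :=
    RB_far hk _ rfl (by omega) (by omega) (by omega) (by omega) (by omega) (by omega) (by omega)
  have r36 : RB k P3B ((2 * (k : ℤ)) - ((k : ℤ) + b)) = 7179/20000 :=
    (RB_mul hk P3B 2 (by push_cast; omega)).trans P3_r2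
  have r37 : RB k P3B ((2 * (k : ℤ)) - ((k : ℤ) - b)) = 0 :=
    RB_far hk _ rfl (by omega) (by omega) (by omega) (by omega) (by omega) (by omega) (by omega)
  have r45 : RB k P3B ((-(a : ℤ)) - (a : ℤ)) = 0 :=
    RB_far hk _ rfl (by omega) (by omega) (by omega) (by omega) (by omega) (by omega) (by omega)
  have r46 : RB k P3B ((-(a : ℤ)) - ((k : ℤ) + b)) = 0 :=
    RB_far hk _ rfl (by omega) (by omega) (by omega) (by omega) (by omega) (by omega) (by omega)
  have r47 : RB k P3B ((-(a : ℤ)) - ((k : ℤ) - b)) = 0 :=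
    RB_far hk _ rfl (by omega) (by omega) (by omega) (by omega) (by omega) (by omega) (by omega)
  have r56 : RB k P3B ((a : ℤ) - ((k : ℤ) + b)) = 0 :=
    RB_far hk _ rfl (by omega) (by omega) (by omega) (by omega) (by omega) (by omega) (by omega)
  have r57 : RB k P3B ((a : ℤ) - ((k : ℤ) - b)) = 0 :=
    RB_far hk _ rfl (by omega) (by omega) (by omega) (by omega) (by omega) (by omega) (by omega)
  have r67 : RB k P3B (((k : ℤ) + b) - ((k : ℤ) - b)) = 0 :=
    RB_far hk _ rfl (by omega) (by omega) (by omega) (by omega) (by omega) (by omega) (by omega)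
  have r00 : RB k P3B 0 = 12217/8000 := (RB_mul hk P3B 0 (by simp)).trans P3_r0
  have hx := h.norm_le (-(a : ℤ))
  have hz := h.norm_le ((k : ℤ) + b)
  have hx2 : (c (-(a : ℤ))).re ^ 2 + (c (-(a : ℤ))).im ^ 2 ≤ 1 := sq_le_of_norm hx
  have hz2 : (c ((k : ℤ) + b)).re ^ 2 + (c ((k : ℤ) + b)).im ^ 2 ≤ 1 := sq_le_of_norm hz
  have n0 := norm_lin hx2 hz2 (1023/500) (0) (223/1000) (0) ((-157/1000)) (0) (223/1000)
    (by norm_num [abs_le]) (by norm_num [abs_le]) (by norm_num [abs_le]) (by norm_num [abs_le])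
  have n1 := norm_lin hx2 hz2 (409/200) (0) (13/100) (0) ((-7/500)) (0) (13/100)
    (by norm_num [abs_le]) (by norm_num [abs_le]) (by norm_num [abs_le]) (by norm_num [abs_le])
  have n2 := norm_lin hx2 hz2 (125/198) (0) (0) (0) (0) (0) (0)
    (by norm_num [abs_le]) (by norm_num [abs_le]) (by norm_num [abs_le]) (by norm_num [abs_le])
  have n3 := norm_lin hx2 hz2 (125/198) (0) (0) (0) (0) (0) (0)
    (by norm_num [abs_le]) (by norm_num [abs_le]) (by norm_num [abs_le]) (by norm_num [abs_le])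
  have n4 := norm_lin hx2 hz2 (0) (131/200) (0) (131/200) (0) (131/200) (0)
    (by norm_num [abs_le]) (by norm_num [abs_le]) (by norm_num [abs_le]) (by norm_num [abs_le])
  have n5 := norm_lin hx2 hz2 (0) ((-125/198)) (0) (125/198) (0) (125/198) (0)
    (by norm_num [abs_le]) (by norm_num [abs_le]) (by norm_num [abs_le]) (by norm_num [abs_le])
  have n6 := norm_lin hx2 hz2 ((-7/250)) (0) (663/1000) (0) (327/500) (0) (663/1000)
    (by norm_num [abs_le]) (by norm_num [abs_le]) (by norm_num [abs_le]) (by norm_num [abs_le])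
  have n7 := norm_lin hx2 hz2 (0) (0) ((-125/198)) (0) (125/198) (0) (125/198)
    (by norm_num [abs_le]) (by norm_num [abs_le]) (by norm_num [abs_le]) (by norm_num [abs_le])
  have g := gram8 h hk P3A P3B P3_len 682000 P3_eps (by norm_num) 0 (k : ℤ) (-(k : ℤ)) (2 * (k : ℤ))
    (-(a : ℤ)) (a : ℤ) ((k : ℤ) + b) ((k : ℤ) - b) _ _ _ _ _ _ _ _ _ _ _ _ _ _ _ _
    _ _ _ _ _ _ _ _ _ _ _ _ _ _ _ _ _ _ _ _ _ _ _ _ _ _ _ _ _ r00 r01 r02 r03 r04 r05 r06 r07 r12 r13 r14 r15 r16 r17 r23 r24 r25 r26 r27 r34 r35 r36 r37 r45 r46 r47 r56 r57 r67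
    (82321/9900) ((add_le_add (add_le_add (add_le_add (add_le_add (add_le_add (add_le_add (add_le_add
      n0 n1) n2) n3) n4) n5) n6) n7).trans (by norm_num [abs_of_neg, abs_of_pos]))
  rw [h.c_zero, h.c_edge, P3_nrm] at g
  simp only [Complex.one_re, Complex.one_im] at g
  unfold Pot
  rw [q1, q2, q3, q4]
  simp only [Complex.mul_re]
  clear n0 n1 n2 n3 n4 n5 n6 n7 q1 q2 q3 q4 r01 r02 r03 r04 r05 r06 r07 r12 r13 r14 r15 r16 r17 r23 r24 r25 r26 r27 r34 r35 r36 r37 r45 r46 r47 r56 r57 r67 r00 hx hz h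
  generalize (c (-(a : ℤ))).re = x1 at g hx2 ⊢
  generalize (c (-(a : ℤ))).im = x2 at g hx2 ⊢
  generalize (c ((k : ℤ) + b)).re = z1 at g hz2 ⊢
  generalize (c ((k : ℤ) + b)).im = z2 at g hz2 ⊢
  generalize (c ((k : ℤ) - b)).re = w1 at g ⊢
  generalize (c ((k : ℤ) - b)).im = w2 at g ⊢
  generalize (c (a : ℤ)).re = y1 at g ⊢
  generalize (c (a : ℤ)).im = y2 at g ⊢
  generalize (c (-(k : ℤ))).re = u1 at g ⊢
  generalize (c (-(k : ℤ))).im = u2 at g
  generalize (c (2 * (k : ℤ))).re = v1 at g ⊢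
  generalize (c (2 * (k : ℤ))).im = v2 at g
  generalize K ^ 2 = KK at g hK
  linarith [sq_nonneg (x1 + 0 * z1 + 0),
    sq_nonneg (z1 + (-3147/10000)),
    sq_nonneg (x2 + 0 * z2),
    sq_nonneg z2,
    sq_nonneg x2,
    sq_nonneg x1,
    sq_nonneg z1,
    sq_nonneg (x1 + z1),
    sq_nonneg (x1 - z1),
    sq_nonneg (x2 + z2),
    sq_nonneg (x2 - z2),
    sq_nonneg (x1 + 1),
    sq_nonneg (x1 - 1),
    sq_nonneg (z1 + 1),
    sq_nonneg (z1 - 1)]

/-- family `b4`, margin `0.0139`. -/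
theorem psd_b4 {K : ℝ} {a k b : ℕ} {c : ℤ → ℂ} (ha : 0 < a) (hak : a < k) (hkb : k < b)
    (e0 : 2 * a ≠ k) (e1 : b = 4 * k)
    (hK : K ^ 2 ≤ 2.92127) (h : IsWindow K k c) : 1 / 1000 ≤ Pot a k b c := by
  have hk : 0 < k := by omega
  have q1 : lam1 k b = 1 := if_neg (by omega)
  have q2 : lam2 k b = 1 := if_neg (by omega)
  have q3 : lam1 a k = 1 := if_neg (by omega)
  have q4 : lam2 a k = 1 := if_neg (by omega)
  have r01 : RB k P3B (0 - (k : ℤ)) = (-1757/2000) :=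
    (RB_mul hk P3B 1 (by push_cast; omega)).trans P3_r1
  have r02 : RB k P3B (0 - (-(k : ℤ))) = (-1757/2000) :=
    (RB_mul hk P3B 1 (by push_cast; omega)).trans P3_r1
  have r03 : RB k P3B (0 - (2 * (k : ℤ))) = 7179/20000 :=
    (RB_mul hk P3B 2 (by push_cast; omega)).trans P3_r2
  have r04 : RB k P3B (0 - (-(a : ℤ))) = 0 :=
    RB_far hk _ rfl (by omega) (by omega) (by omega) (by omega) (by omega) (by omega) (by omega)
  have r05 : RB k P3B (0 - (a : ℤ)) = 0 :=
    RB_far hk _ rfl (by omega) (by omega) (by omega) (by omega) (by omega) (by omega) (by omega)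
  have r06 : RB k P3B (0 - ((k : ℤ) + b)) = 0 :=
    RB_far hk _ rfl (by omega) (by omega) (by omega) (by omega) (by omega) (by omega) (by omega)
  have r07 : RB k P3B (0 - ((k : ℤ) - b)) = (-9/100) :=
    (RB_mul hk P3B 3 (by push_cast; omega)).trans P3_r3
  have r12 : RB k P3B ((k : ℤ) - (-(k : ℤ))) = 7179/20000 :=
    (RB_mul hk P3B 2 (by push_cast; omega)).trans P3_r2
  have r13 : RB k P3B ((k : ℤ) - (2 * (k : ℤ))) = (-1757/2000) :=
    (RB_mul hk P3B 1 (by push_cast; omega)).trans P3_r1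
  have r14 : RB k P3B ((k : ℤ) - (-(a : ℤ))) = 0 :=
    RB_far hk _ rfl (by omega) (by omega) (by omega) (by omega) (by omega) (by omega) (by omega)
  have r15 : RB k P3B ((k : ℤ) - (a : ℤ)) = 0 :=
    RB_far hk _ rfl (by omega) (by omega) (by omega) (by omega) (by omega) (by omega) (by omega)
  have r16 : RB k P3B ((k : ℤ) - ((k : ℤ) + b)) = 0 :=
    RB_far hk _ rfl (by omega) (by omega) (by omega) (by omega) (by omega) (by omega) (by omega)
  have r17 : RB k P3B ((k : ℤ) - ((k : ℤ) - b)) = 0 :=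
    RB_far hk _ rfl (by omega) (by omega) (by omega) (by omega) (by omega) (by omega) (by omega)
  have r23 : RB k P3B ((-(k : ℤ)) - (2 * (k : ℤ))) = (-9/100) :=
    (RB_mul hk P3B 3 (by push_cast; omega)).trans P3_r3
  have r24 : RB k P3B ((-(k : ℤ)) - (-(a : ℤ))) = 0 :=
    RB_far hk _ rfl (by omega) (by omega) (by omega) (by omega) (by omega) (by omega) (by omega)
  have r25 : RB k P3B ((-(k : ℤ)) - (a : ℤ)) = 0 :=
    RB_far hk _ rfl (by omega) (by omega) (by omega) (by omega) (by omega) (by omega) (by omega)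
  have r26 : RB k P3B ((-(k : ℤ)) - ((k : ℤ) + b)) = 0 :=
    RB_far hk _ rfl (by omega) (by omega) (by omega) (by omega) (by omega) (by omega) (by omega)
  have r27 : RB k P3B ((-(k : ℤ)) - ((k : ℤ) - b)) = 7179/20000 :=
    (RB_mul hk P3B 2 (by push_cast; omega)).trans P3_r2
  have r34 : RB k P3B ((2 * (k : ℤ)) - (-(a : ℤ))) = 0 :=
    RB_far hk _ rfl (by omega) (by omega) (by omega) (by omega) (by omega) (by omega) (by omega)
  have r35 : RB k P3B ((2 * (k : ℤ)) - (a : ℤ)) = 0 :=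
    RB_far hk _ rfl (by omega) (by omega) (by omega) (by omega) (by omega) (by omega) (by omega)
  have r36 : RB k P3B ((2 * (k : ℤ)) - ((k : ℤ) + b)) = (-9/100) :=
    (RB_mul hk P3B 3 (by push_cast; omega)).trans P3_r3
  have r37 : RB k P3B ((2 * (k : ℤ)) - ((k : ℤ) - b)) = 0 :=
    RB_far hk _ rfl (by omega) (by omega) (by omega) (by omega) (by omega) (by omega) (by omega)
  have r45 : RB k P3B ((-(a : ℤ)) - (a : ℤ)) = 0 :=
    RB_far hk _ rfl (by omega) (by omega) (by omega) (by omega) (by omega) (by omega) (by omega)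
  have r46 : RB k P3B ((-(a : ℤ)) - ((k : ℤ) + b)) = 0 :=
    RB_far hk _ rfl (by omega) (by omega) (by omega) (by omega) (by omega) (by omega) (by omega)
  have r47 : RB k P3B ((-(a : ℤ)) - ((k : ℤ) - b)) = 0 :=
    RB_far hk _ rfl (by omega) (by omega) (by omega) (by omega) (by omega) (by omega) (by omega)
  have r56 : RB k P3B ((a : ℤ) - ((k : ℤ) + b)) = 0 :=
    RB_far hk _ rfl (by omega) (by omega) (by omega) (by omega) (by omega) (by omega) (by omega)
  have r57 : RB k P3B ((a : ℤ) - ((k : ℤ) - b)) = 0 :=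
    RB_far hk _ rfl (by omega) (by omega) (by omega) (by omega) (by omega) (by omega) (by omega)
  have r67 : RB k P3B (((k : ℤ) + b) - ((k : ℤ) - b)) = 0 :=
    RB_far hk _ rfl (by omega) (by omega) (by omega) (by omega) (by omega) (by omega) (by omega)
  have r00 : RB k P3B 0 = 12217/8000 := (RB_mul hk P3B 0 (by simp)).trans P3_r0
  have hx := h.norm_le (-(a : ℤ))
  have hz := h.norm_le ((k : ℤ) + b)
  have hx2 : (c (-(a : ℤ))).re ^ 2 + (c (-(a : ℤ))).im ^ 2 ≤ 1 := sq_le_of_norm hx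
  have hz2 : (c ((k : ℤ) + b)).re ^ 2 + (c ((k : ℤ) + b)).im ^ 2 ≤ 1 := sq_le_of_norm hz
  have n0 := norm_lin hx2 hz2 (1011/500) (0) ((-53/1000)) (0) (53/1000) (0) (53/1000)
    (by norm_num [abs_le]) (by norm_num [abs_le]) (by norm_num [abs_le]) (by norm_num [abs_le])
  have n1 := norm_lin hx2 hz2 (1011/500) (0) ((-3/100)) (0) (3/100) (0) (3/100)
    (by norm_num [abs_le]) (by norm_num [abs_le]) (by norm_num [abs_le]) (by norm_num [abs_le])
  have n2 := norm_lin hx2 hz2 (250/417) (0) (0) (0) (0) (0) (0)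
    (by norm_num [abs_le]) (by norm_num [abs_le]) (by norm_num [abs_le]) (by norm_num [abs_le])
  have n3 := norm_lin hx2 hz2 (250/417) (0) (0) (0) (0) (0) (0)
    (by norm_num [abs_le]) (by norm_num [abs_le]) (by norm_num [abs_le]) (by norm_num [abs_le])
  have n4 := norm_lin hx2 hz2 (0) (131/200) (0) (131/200) (0) (131/200) (0)
    (by norm_num [abs_le]) (by norm_num [abs_le]) (by norm_num [abs_le]) (by norm_num [abs_le])
  have n5 := norm_lin hx2 hz2 (0) ((-250/417)) (0) (250/417) (0) (250/417) (0)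
    (by norm_num [abs_le]) (by norm_num [abs_le]) (by norm_num [abs_le]) (by norm_num [abs_le])
  have n6 := norm_lin hx2 hz2 (7/200) (0) (131/200) (0) (131/200) (0) (131/200)
    (by norm_num [abs_le]) (by norm_num [abs_le]) (by norm_num [abs_le]) (by norm_num [abs_le])
  have n7 := norm_lin hx2 hz2 (0) (0) ((-250/417)) (0) (250/417) (0) (250/417)
    (by norm_num [abs_le]) (by norm_num [abs_le]) (by norm_num [abs_le]) (by norm_num [abs_le])
  have g := gram8 h hk P3A P3B P3_len 682000 P3_eps (by norm_num) 0 (k : ℤ) (-(k : ℤ)) (2 * (k : ℤ))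
    (-(a : ℤ)) (a : ℤ) ((k : ℤ) + b) ((k : ℤ) - b) _ _ _ _ _ _ _ _ _ _ _ _ _ _ _ _
    _ _ _ _ _ _ _ _ _ _ _ _ _ _ _ _ _ _ _ _ _ _ _ _ _ _ _ _ _ r00 r01 r02 r03 r04 r05 r06 r07 r12 r13 r14 r15 r16 r17 r23 r24 r25 r26 r27 r34 r35 r36 r37 r45 r46 r47 r56 r57 r67
    (410228/52125) ((add_le_add (add_le_add (add_le_add (add_le_add (add_le_add (add_le_add (add_le_add
      n0 n1) n2) n3) n4) n5) n6) n7).trans (by norm_num [abs_of_neg, abs_of_pos]))
  rw [h.c_zero, h.c_edge, P3_nrm] at g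
  simp only [Complex.one_re, Complex.one_im] at g
  unfold Pot
  rw [q1, q2, q3, q4]
  simp only [Complex.mul_re]
  clear n0 n1 n2 n3 n4 n5 n6 n7 q1 q2 q3 q4 r01 r02 r03 r04 r05 r06 r07 r12 r13 r14 r15 r16 r17 r23 r24 r25 r26 r27 r34 r35 r36 r37 r45 r46 r47 r56 r57 r67 r00 hx hz h
  generalize (c (-(a : ℤ))).re = x1 at g hx2 ⊢
  generalize (c (-(a : ℤ))).im = x2 at g hx2 ⊢
  generalize (c ((k : ℤ) + b)).re = z1 at g hz2 ⊢
  generalize (c ((k : ℤ) + b)).im = z2 at g hz2 ⊢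
  generalize (c ((k : ℤ) - b)).re = w1 at g ⊢
  generalize (c ((k : ℤ) - b)).im = w2 at g ⊢
  generalize (c (a : ℤ)).re = y1 at g ⊢
  generalize (c (a : ℤ)).im = y2 at g ⊢
  generalize (c (-(k : ℤ))).re = u1 at g ⊢
  generalize (c (-(k : ℤ))).im = u2 at g
  generalize (c (2 * (k : ℤ))).re = v1 at g ⊢
  generalize (c (2 * (k : ℤ))).im = v2 at g
  generalize K ^ 2 = KK at g hK
  linarith [sq_nonneg (x1 + 0 * z1 + 0),
    sq_nonneg (z1 + 5079/10000),
    sq_nonneg (x2 + 0 * z2),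
    sq_nonneg z2,
    sq_nonneg x2,
    sq_nonneg x1,
    sq_nonneg z1,
    sq_nonneg (x1 + z1),
    sq_nonneg (x1 - z1),
    sq_nonneg (x2 + z2),
    sq_nonneg (x2 - z2),
    sq_nonneg (x1 + 1),
    sq_nonneg (x1 - 1),
    sq_nonneg (z1 + 1),
    sq_nonneg (z1 - 1)]

end MaxTerm.Inc
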