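import Pool.Agent.MaxTerm.Inc.Prof

/-! # Gram families, part 3 (generated) -/

namespace MaxTerm.Inc

/-- family `s4`, margin `0.0535`. -/
theorem psd_s4 {K : ℝ} {a k b : ℕ} {c : ℤ → ℂ} (ha : 0 < a) (hak : a < k) (hkb : k < b)
    (e0 : 2 * a ≠ k) (e1 : a + b = 4 * k)
    (hK : K ^ 2 ≤ 2.92127) (h : IsWindow K k c) : 1 / 1000 ≤ Pot a k b c := by
  have hk : 0 < k := by omega
  have q1 : lam1 k b = 1 := if_neg (by omega)
  have q2 : lam2 k b = 1 := if_neg (by omega)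
  have q3 : lam1 a k = 1 := if_neg (by omega)
  have q4 : lam2 a k = 1 := if_neg (by omega)
  have r01 : RB k P1B (0 - (k : ℤ)) = (-797219/1000000) :=
    (RB_mul hk P1B 1 (by push_cast; omega)).trans P1_r1
  have r02 : RB k P1B (0 - (-(k : ℤ))) = (-797219/1000000) :=
    (RB_mul hk P1B 1 (by push_cast; omega)).trans P1_r1
  have r03 : RB k P1B (0 - (2 * (k : ℤ))) = 27661/100000 :=
    (RB_mul hk P1B 2 (by push_cast; omega)).trans P1_r2
  have r04 : RB k P1B (0 - (-(a : ℤ))) = 0 :=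
    RB_far hk _ rfl (by omega) (by omega) (by omega) (by omega) (by omega) (by omega) (by omega)
  have r05 : RB k P1B (0 - (a : ℤ)) = 0 :=
    RB_far hk _ rfl (by omega) (by omega) (by omega) (by omega) (by omega) (by omega) (by omega)
  have r06 : RB k P1B (0 - ((k : ℤ) + b)) = 0 :=
    RB_far hk _ rfl (by omega) (by omega) (by omega) (by omega) (by omega) (by omega) (by omega)
  have r07 : RB k P1B (0 - ((k : ℤ) - b)) = 0 :=
    RB_far hk _ rfl (by omega) (by omega) (by omega) (by omega) (by omega) (by omega) (by omega)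
  have r12 : RB k P1B ((k : ℤ) - (-(k : ℤ))) = 27661/100000 :=
    (RB_mul hk P1B 2 (by push_cast; omega)).trans P1_r2
  have r13 : RB k P1B ((k : ℤ) - (2 * (k : ℤ))) = (-797219/1000000) :=
    (RB_mul hk P1B 1 (by push_cast; omega)).trans P1_r1
  have r14 : RB k P1B ((k : ℤ) - (-(a : ℤ))) = 0 :=
    RB_far hk _ rfl (by omega) (by omega) (by omega) (by omega) (by omega) (by omega) (by omega)
  have r15 : RB k P1B ((k : ℤ) - (a : ℤ)) = 0 :=
    RB_far hk _ rfl (by omega) (by omega) (by omega) (by omega) (by omega) (by omega) (by omega)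
  have r16 : RB k P1B ((k : ℤ) - ((k : ℤ) + b)) = 0 :=
    RB_far hk _ rfl (by omega) (by omega) (by omega) (by omega) (by omega) (by omega) (by omega)
  have r17 : RB k P1B ((k : ℤ) - ((k : ℤ) - b)) = 0 :=
    RB_far hk _ rfl (by omega) (by omega) (by omega) (by omega) (by omega) (by omega) (by omega)
  have r23 : RB k P1B ((-(k : ℤ)) - (2 * (k : ℤ))) = (-47/1000) :=
    (RB_mul hk P1B 3 (by push_cast; omega)).trans P1_r3
  have r24 : RB k P1B ((-(k : ℤ)) - (-(a : ℤ))) = 0 :=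
    RB_far hk _ rfl (by omega) (by omega) (by omega) (by omega) (by omega) (by omega) (by omega)
  have r25 : RB k P1B ((-(k : ℤ)) - (a : ℤ)) = 0 :=
    RB_far hk _ rfl (by omega) (by omega) (by omega) (by omega) (by omega) (by omega) (by omega)
  have r26 : RB k P1B ((-(k : ℤ)) - ((k : ℤ) + b)) = 0 :=
    RB_far hk _ rfl (by omega) (by omega) (by omega) (by omega) (by omega) (by omega) (by omega)
  have r27 : RB k P1B ((-(k : ℤ)) - ((k : ℤ) - b)) = 0 :=
    RB_far hk _ rfl (by omega) (by omega) (by omega) (by omega) (by omega) (by omega) (by omega)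
  have r34 : RB k P1B ((2 * (k : ℤ)) - (-(a : ℤ))) = 0 :=
    RB_far hk _ rfl (by omega) (by omega) (by omega) (by omega) (by omega) (by omega) (by omega)
  have r35 : RB k P1B ((2 * (k : ℤ)) - (a : ℤ)) = 0 :=
    RB_far hk _ rfl (by omega) (by omega) (by omega) (by omega) (by omega) (by omega) (by omega)
  have r36 : RB k P1B ((2 * (k : ℤ)) - ((k : ℤ) + b)) = 0 :=
    RB_far hk _ rfl (by omega) (by omega) (by omega) (by omega) (by omega) (by omega) (by omega)
  have r37 : RB k P1B ((2 * (k : ℤ)) - ((k : ℤ) - b)) = 0 :=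
    RB_far hk _ rfl (by omega) (by omega) (by omega) (by omega) (by omega) (by omega) (by omega)
  have r45 : RB k P1B ((-(a : ℤ)) - (a : ℤ)) = 0 :=
    RB_far hk _ rfl (by omega) (by omega) (by omega) (by omega) (by omega) (by omega) (by omega)
  have r46 : RB k P1B ((-(a : ℤ)) - ((k : ℤ) + b)) = 0 :=
    RB_far hk _ rfl (by omega) (by omega) (by omega) (by omega) (by omega) (by omega) (by omega)
  have r47 : RB k P1B ((-(a : ℤ)) - ((k : ℤ) - b)) = 0 :=
    RB_far hk _ rfl (by omega) (by omega) (by omega) (by omega) (by omega) (by omega) (by omega)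
  have r56 : RB k P1B ((a : ℤ) - ((k : ℤ) + b)) = 0 :=
    RB_far hk _ rfl (by omega) (by omega) (by omega) (by omega) (by omega) (by omega) (by omega)
  have r57 : RB k P1B ((a : ℤ) - ((k : ℤ) - b)) = (-47/1000) :=
    (RB_mul hk P1B 3 (by push_cast; omega)).trans P1_r3
  have r67 : RB k P1B (((k : ℤ) + b) - ((k : ℤ) - b)) = 0 :=
    RB_far hk _ rfl (by omega) (by omega) (by omega) (by omega) (by omega) (by omega) (by omega)
  have r00 : RB k P1B 0 = 730059/500000 := (RB_mul hk P1B 0 (by simp)).trans P1_r0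
  have hx := h.norm_le (-(a : ℤ))
  have hz := h.norm_le ((k : ℤ) + b)
  have hx2 : (c (-(a : ℤ))).re ^ 2 + (c (-(a : ℤ))).im ^ 2 ≤ 1 := sq_le_of_norm hx
  have hz2 : (c ((k : ℤ) + b)).re ^ 2 + (c ((k : ℤ) + b)).im ^ 2 ≤ 1 := sq_le_of_norm hz
  have n0 := norm_lin hx2 hz2 (1019/500) (0) (0) (0) (0) (0) (0)
    (by norm_num [abs_le]) (by norm_num [abs_le]) (by norm_num [abs_le]) (by norm_num [abs_le])
  have n1 := norm_lin hx2 hz2 (1019/500) (0) (0) (0) (0) (0) (0)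
    (by norm_num [abs_le]) (by norm_num [abs_le]) (by norm_num [abs_le]) (by norm_num [abs_le])
  have n2 := norm_lin hx2 hz2 (250/371) (0) (0) (0) (0) (0) (0)
    (by norm_num [abs_le]) (by norm_num [abs_le]) (by norm_num [abs_le]) (by norm_num [abs_le])
  have n3 := norm_lin hx2 hz2 (250/371) (0) (0) (0) (0) (0) (0)
    (by norm_num [abs_le]) (by norm_num [abs_le]) (by norm_num [abs_le]) (by norm_num [abs_le])
  have n4 := norm_lin hx2 hz2 (0) (137/200) (0) (137/200) (0) (137/200) (0)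
    (by norm_num [abs_le]) (by norm_num [abs_le]) (by norm_num [abs_le]) (by norm_num [abs_le])
  have n5 := norm_lin hx2 hz2 (0) ((-250/371)) (0) (250/371) (0) (250/371) (0)
    (by norm_num [abs_le]) (by norm_num [abs_le]) (by norm_num [abs_le]) (by norm_num [abs_le])
  have n6 := norm_lin hx2 hz2 (0) (0) (137/200) (0) (137/200) (0) (137/200)
    (by norm_num [abs_le]) (by norm_num [abs_le]) (by norm_num [abs_le]) (by norm_num [abs_le])
  have n7 := norm_lin hx2 hz2 (0) (0) ((-250/371)) (0) (250/371) (0) (250/371)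
    (by norm_num [abs_le]) (by norm_num [abs_le]) (by norm_num [abs_le]) (by norm_num [abs_le])
  have g := gram8 h hk P1A P1B P1_len 1204400 P1_eps (by norm_num) 0 (k : ℤ) (-(k : ℤ)) (2 * (k : ℤ))
    (-(a : ℤ)) (a : ℤ) ((k : ℤ) + b) ((k : ℤ) - b) _ _ _ _ _ _ _ _ _ _ _ _ _ _ _ _
    _ _ _ _ _ _ _ _ _ _ _ _ _ _ _ _ _ _ _ _ _ _ _ _ _ _ _ _ _ r00 r01 r02 r03 r04 r05 r06 r07 r12 r13 r14 r15 r16 r17 r23 r24 r25 r26 r27 r34 r35 r36 r37 r45 r46 r47 r56 r57 r67
    (1510233/185500) ((add_le_add (add_le_add (add_le_add (add_le_add (add_le_add (add_le_add (add_le_add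
      n0 n1) n2) n3) n4) n5) n6) n7).trans (by norm_num [abs_of_neg, abs_of_pos]))
  rw [h.c_zero, h.c_edge, P1_nrm] at g
  simp only [Complex.one_re, Complex.one_im] at g
  unfold Pot
  rw [q1, q2, q3, q4]
  simp only [Complex.mul_re]
  clear n0 n1 n2 n3 n4 n5 n6 n7 q1 q2 q3 q4 r01 r02 r03 r04 r05 r06 r07 r12 r13 r14 r15 r16 r17 r23 r24 r25 r26 r27 r34 r35 r36 r37 r45 r46 r47 r56 r57 r67 r00 hx hz h
  generalize (c (-(a : ℤ))).re = x1 at g hx2 ⊢
  generalize (c (-(a : ℤ))).im = x2 at g hx2 ⊢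
  generalize (c ((k : ℤ) + b)).re = z1 at g hz2 ⊢
  generalize (c ((k : ℤ) + b)).im = z2 at g hz2 ⊢
  generalize (c ((k : ℤ) - b)).re = w1 at g ⊢
  generalize (c ((k : ℤ) - b)).im = w2 at g ⊢
  generalize (c (a : ℤ)).re = y1 at g ⊢
  generalize (c (a : ℤ)).im = y2 at g ⊢
  generalize (c (-(k : ℤ))).re = u1 at g ⊢
  generalize (c (-(k : ℤ))).im = u2 at g
  generalize (c (2 * (k : ℤ))).re = v1 at g ⊢
  generalize (c (2 * (k : ℤ))).im = v2 at g
  generalize K ^ 2 = KK at g hK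
  linarith [sq_nonneg (x1 + 122/125 * z1 + 0),
    sq_nonneg (z1 + 0),
    sq_nonneg (x2 + 122/125 * z2),
    sq_nonneg z2,
    sq_nonneg x2,
    sq_nonneg x1,
    sq_nonneg z1,
    sq_nonneg (x1 + z1),
    sq_nonneg (x1 - z1),
    sq_nonneg (x2 + z2),
    sq_nonneg (x2 - z2),
    sq_nonneg (x1 + 1),
    sq_nonneg (x1 - 1),
    sq_nonneg (z1 + 1),
    sq_nonneg (z1 - 1)]

/-- family `d2`, margin `0.0085`. -/
theorem psd_d2 {K : ℝ} {a k b : ℕ} {c : ℤ → ℂ} (ha : 0 < a) (hak : a < k) (hkb : k < b)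
    (e0 : 2 * a ≠ k) (e1 : b = a + 2 * k)
    (hK : K ^ 2 ≤ 2.92127) (h : IsWindow K k c) : 1 / 1000 ≤ Pot a k b c := by
  have hk : 0 < k := by omega
  have q1 : lam1 k b = 1 := if_neg (by omega)
  have q2 : lam2 k b = 1 := if_neg (by omega)
  have q3 : lam1 a k = 1 := if_neg (by omega)
  have q4 : lam2 a k = 1 := if_neg (by omega)
  have na := nd_a ha hak
  have n2a := nd_2a ha hak e0
  have r01 : RB k P4B (0 - (k : ℤ)) = (-3445975231/5000000000) :=
    (RB_mul hk P4B 1 (by push_cast; omega)).trans P4_r1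
  have r02 : RB k P4B (0 - (-(k : ℤ))) = (-3445975231/5000000000) :=
    (RB_mul hk P4B 1 (by push_cast; omega)).trans P4_r1
  have r03 : RB k P4B (0 - (2 * (k : ℤ))) = 1438715661/10000000000 :=
    (RB_mul hk P4B 2 (by push_cast; omega)).trans P4_r2
  have r04 : RB k P4B (0 - (-(a : ℤ))) = 0 := RB_nd _ (nd_of na (0) (by omega))
  have r05 : RB k P4B (0 - (a : ℤ)) = 0 := RB_nd _ (nd_of na (0) (by omega))
  have r06 : RB k P4B (0 - ((k : ℤ) + b)) = 0 := RB_nd _ (nd_of na (-3) (by omega))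
  have r07 : RB k P4B (0 - ((k : ℤ) - b)) = 0 := RB_nd _ (nd_of na (1) (by omega))
  have r12 : RB k P4B ((k : ℤ) - (-(k : ℤ))) = 1438715661/10000000000 :=
    (RB_mul hk P4B 2 (by push_cast; omega)).trans P4_r2
  have r13 : RB k P4B ((k : ℤ) - (2 * (k : ℤ))) = (-3445975231/5000000000) :=
    (RB_mul hk P4B 1 (by push_cast; omega)).trans P4_r1
  have r14 : RB k P4B ((k : ℤ) - (-(a : ℤ))) = 0 := RB_nd _ (nd_of na (1) (by omega))
  have r15 : RB k P4B ((k : ℤ) - (a : ℤ)) = 0 := RB_nd _ (nd_of na (1) (by omega))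
  have r16 : RB k P4B ((k : ℤ) - ((k : ℤ) + b)) = 0 := RB_nd _ (nd_of na (-2) (by omega))
  have r17 : RB k P4B ((k : ℤ) - ((k : ℤ) - b)) = 0 := RB_nd _ (nd_of na (2) (by omega))
  have r23 : RB k P4B ((-(k : ℤ)) - (2 * (k : ℤ))) = 918127149/10000000000 :=
    (RB_mul hk P4B 3 (by push_cast; omega)).trans P4_r3
  have r24 : RB k P4B ((-(k : ℤ)) - (-(a : ℤ))) = 0 := RB_nd _ (nd_of na (-1) (by omega))
  have r25 : RB k P4B ((-(k : ℤ)) - (a : ℤ)) = 0 := RB_nd _ (nd_of na (-1) (by omega))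
  have r26 : RB k P4B ((-(k : ℤ)) - ((k : ℤ) + b)) = 0 := RB_nd _ (nd_of na (-4) (by omega))
  have r27 : RB k P4B ((-(k : ℤ)) - ((k : ℤ) - b)) = 0 := RB_nd _ (nd_of na (0) (by omega))
  have r34 : RB k P4B ((2 * (k : ℤ)) - (-(a : ℤ))) = 0 := RB_nd _ (nd_of na (2) (by omega))
  have r35 : RB k P4B ((2 * (k : ℤ)) - (a : ℤ)) = 0 := RB_nd _ (nd_of na (2) (by omega))
  have r36 : RB k P4B ((2 * (k : ℤ)) - ((k : ℤ) + b)) = 0 := RB_nd _ (nd_of na (-1) (by omega))
  have r37 : RB k P4B ((2 * (k : ℤ)) - ((k : ℤ) - b)) = 0 := RB_nd _ (nd_of na (3) (by omega))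
  have r45 : RB k P4B ((-(a : ℤ)) - (a : ℤ)) = 0 := RB_nd _ (nd_of n2a (0) (by omega))
  have r46 : RB k P4B ((-(a : ℤ)) - ((k : ℤ) + b)) = 0 := RB_nd _ (nd_of n2a (-3) (by omega))
  have r47 : RB k P4B ((-(a : ℤ)) - ((k : ℤ) - b)) = (-3445975231/5000000000) :=
    (RB_mul hk P4B 1 (by push_cast; omega)).trans P4_r1
  have r56 : RB k P4B ((a : ℤ) - ((k : ℤ) + b)) = 918127149/10000000000 :=
    (RB_mul hk P4B 3 (by push_cast; omega)).trans P4_r3
  have r57 : RB k P4B ((a : ℤ) - ((k : ℤ) - b)) = 0 := RB_nd _ (nd_of n2a (1) (by omega))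
  have r67 : RB k P4B (((k : ℤ) + b) - ((k : ℤ) - b)) = 0 := RB_nd _ (nd_of n2a (4) (by omega))
  have r00 : RB k P4B 0 = 6917855327/5000000000 := (RB_mul hk P4B 0 (by simp)).trans P4_r0
  have hx := h.norm_le (-(a : ℤ))
  have hz := h.norm_le ((k : ℤ) + b)
  have hx2 : (c (-(a : ℤ))).re ^ 2 + (c (-(a : ℤ))).im ^ 2 ≤ 1 := sq_le_of_norm hx
  have hz2 : (c ((k : ℤ) + b)).re ^ 2 + (c ((k : ℤ) + b)).im ^ 2 ≤ 1 := sq_le_of_norm hz
  have n0 := norm_lin hx2 hz2 (48/25) (0) (0) (0) (0) (0) (0)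
    (by norm_num [abs_le]) (by norm_num [abs_le]) (by norm_num [abs_le]) (by norm_num [abs_le])
  have n1 := norm_lin hx2 hz2 (48/25) (0) (0) (0) (0) (0) (0)
    (by norm_num [abs_le]) (by norm_num [abs_le]) (by norm_num [abs_le]) (by norm_num [abs_le])
  have n2 := norm_lin hx2 hz2 (500/819) (0) (0) (0) (0) (0) (0)
    (by norm_num [abs_le]) (by norm_num [abs_le]) (by norm_num [abs_le]) (by norm_num [abs_le])
  have n3 := norm_lin hx2 hz2 (500/819) (0) (0) (0) (0) (0) (0)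
    (by norm_num [abs_le]) (by norm_num [abs_le]) (by norm_num [abs_le]) (by norm_num [abs_le])
  have n4 := norm_lin hx2 hz2 (0) (723/1000) ((-38/125)) (723/1000) (38/125) (723/1000) (38/125)
    (by norm_num [abs_le]) (by norm_num [abs_le]) (by norm_num [abs_le]) (by norm_num [abs_le])
  have n5 := norm_lin hx2 hz2 (0) ((-500/819)) (0) (500/819) (0) (500/819) (0)
    (by norm_num [abs_le]) (by norm_num [abs_le]) (by norm_num [abs_le]) (by norm_num [abs_le])
  have n6 := norm_lin hx2 hz2 (0) (41/1000) (723/1000) ((-41/1000)) (723/1000) (41/1000) (723/1000)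
    (by norm_num [abs_le]) (by norm_num [abs_le]) (by norm_num [abs_le]) (by norm_num [abs_le])
  have n7 := norm_lin hx2 hz2 (0) (0) ((-500/819)) (0) (500/819) (0) (500/819)
    (by norm_num [abs_le]) (by norm_num [abs_le]) (by norm_num [abs_le]) (by norm_num [abs_le])
  have g := gram8 h hk P4A P4B P4_len 447000 P4_eps (by norm_num) 0 (k : ℤ) (-(k : ℤ)) (2 * (k : ℤ))
    (-(a : ℤ)) (a : ℤ) ((k : ℤ) + b) ((k : ℤ) - b) _ _ _ _ _ _ _ _ _ _ _ _ _ _ _ _
    _ _ _ _ _ _ _ _ _ _ _ _ _ _ _ _ _ _ _ _ _ _ _ _ _ _ _ _ _ r00 r01 r02 r03 r04 r05 r06 r07 r12 r13 r14 r15 r16 r17 r23 r24 r25 r26 r27 r34 r35 r36 r37 r45 r46 r47 r56 r57 r67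
    (6611789/819000) ((add_le_add (add_le_add (add_le_add (add_le_add (add_le_add (add_le_add (add_le_add
      n0 n1) n2) n3) n4) n5) n6) n7).trans (by norm_num [abs_of_neg, abs_of_pos]))
  rw [h.c_zero, h.c_edge, P4_nrm] at g
  simp only [Complex.one_re, Complex.one_im] at g
  unfold Pot
  rw [q1, q2, q3, q4]
  simp only [Complex.mul_re]
  clear n0 n1 n2 n3 n4 n5 n6 n7 q1 q2 q3 q4 r01 r02 r03 r04 r05 r06 r07 r12 r13 r14 r15 r16 r17 r23 r24 r25 r26 r27 r34 r35 r36 r37 r45 r46 r47 r56 r57 r67 r00 hx hz h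
  generalize (c (-(a : ℤ))).re = x1 at g hx2 ⊢
  generalize (c (-(a : ℤ))).im = x2 at g hx2 ⊢
  generalize (c ((k : ℤ) + b)).re = z1 at g hz2 ⊢
  generalize (c ((k : ℤ) + b)).im = z2 at g hz2 ⊢
  generalize (c ((k : ℤ) - b)).re = w1 at g ⊢
  generalize (c ((k : ℤ) - b)).im = w2 at g ⊢
  generalize (c (a : ℤ)).re = y1 at g ⊢
  generalize (c (a : ℤ)).im = y2 at g ⊢
  generalize (c (-(k : ℤ))).re = u1 at g ⊢
  generalize (c (-(k : ℤ))).im = u2 at g
  generalize (c (2 * (k : ℤ))).re = v1 at g ⊢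
  generalize (c (2 * (k : ℤ))).im = v2 at g
  generalize K ^ 2 = KK at g hK
  linarith [sq_nonneg (x1 + (-1259/1000) * z1 + 0),
    sq_nonneg (z1 + 0),
    sq_nonneg (x2 + 1259/1000 * z2),
    sq_nonneg z2,
    sq_nonneg x2,
    sq_nonneg x1,
    sq_nonneg z1,
    sq_nonneg (x1 + z1),
    sq_nonneg (x1 - z1),
    sq_nonneg (x2 + z2),
    sq_nonneg (x2 - z2),
    sq_nonneg (x1 + 1),
    sq_nonneg (x1 - 1),
    sq_nonneg (z1 + 1),
    sq_nonneg (z1 - 1)]

/-- family `d3`, margin `0.0380`. -/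
theorem psd_d3 {K : ℝ} {a k b : ℕ} {c : ℤ → ℂ} (ha : 0 < a) (hak : a < k) (hkb : k < b)
    (e0 : 2 * a ≠ k) (e1 : b = a + 3 * k)
    (hK : K ^ 2 ≤ 2.92127) (h : IsWindow K k c) : 1 / 1000 ≤ Pot a k b c := by
  have hk : 0 < k := by omega
  have q1 : lam1 k b = 1 := if_neg (by omega)
  have q2 : lam2 k b = 1 := if_neg (by omega)
  have q3 : lam1 a k = 1 := if_neg (by omega)
  have q4 : lam2 a k = 1 := if_neg (by omega)
  have r01 : RB k P1B (0 - (k : ℤ)) = (-797219/1000000) :=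
    (RB_mul hk P1B 1 (by push_cast; omega)).trans P1_r1
  have r02 : RB k P1B (0 - (-(k : ℤ))) = (-797219/1000000) :=
    (RB_mul hk P1B 1 (by push_cast; omega)).trans P1_r1
  have r03 : RB k P1B (0 - (2 * (k : ℤ))) = 27661/100000 :=
    (RB_mul hk P1B 2 (by push_cast; omega)).trans P1_r2
  have r04 : RB k P1B (0 - (-(a : ℤ))) = 0 :=
    RB_far hk _ rfl (by omega) (by omega) (by omega) (by omega) (by omega) (by omega) (by omega)
  have r05 : RB k P1B (0 - (a : ℤ)) = 0 :=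
    RB_far hk _ rfl (by omega) (by omega) (by omega) (by omega) (by omega) (by omega) (by omega)
  have r06 : RB k P1B (0 - ((k : ℤ) + b)) = 0 :=
    RB_far hk _ rfl (by omega) (by omega) (by omega) (by omega) (by omega) (by omega) (by omega)
  have r07 : RB k P1B (0 - ((k : ℤ) - b)) = 0 :=
    RB_far hk _ rfl (by omega) (by omega) (by omega) (by omega) (by omega) (by omega) (by omega)
  have r12 : RB k P1B ((k : ℤ) - (-(k : ℤ))) = 27661/100000 :=
    (RB_mul hk P1B 2 (by push_cast; omega)).trans P1_r2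
  have r13 : RB k P1B ((k : ℤ) - (2 * (k : ℤ))) = (-797219/1000000) :=
    (RB_mul hk P1B 1 (by push_cast; omega)).trans P1_r1
  have r14 : RB k P1B ((k : ℤ) - (-(a : ℤ))) = 0 :=
    RB_far hk _ rfl (by omega) (by omega) (by omega) (by omega) (by omega) (by omega) (by omega)
  have r15 : RB k P1B ((k : ℤ) - (a : ℤ)) = 0 :=
    RB_far hk _ rfl (by omega) (by omega) (by omega) (by omega) (by omega) (by omega) (by omega)
  have r16 : RB k P1B ((k : ℤ) - ((k : ℤ) + b)) = 0 :=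
    RB_far hk _ rfl (by omega) (by omega) (by omega) (by omega) (by omega) (by omega) (by omega)
  have r17 : RB k P1B ((k : ℤ) - ((k : ℤ) - b)) = 0 :=
    RB_far hk _ rfl (by omega) (by omega) (by omega) (by omega) (by omega) (by omega) (by omega)
  have r23 : RB k P1B ((-(k : ℤ)) - (2 * (k : ℤ))) = (-47/1000) :=
    (RB_mul hk P1B 3 (by push_cast; omega)).trans P1_r3
  have r24 : RB k P1B ((-(k : ℤ)) - (-(a : ℤ))) = 0 :=
    RB_far hk _ rfl (by omega) (by omega) (by omega) (by omega) (by omega) (by omega) (by omega)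
  have r25 : RB k P1B ((-(k : ℤ)) - (a : ℤ)) = 0 :=
    RB_far hk _ rfl (by omega) (by omega) (by omega) (by omega) (by omega) (by omega) (by omega)
  have r26 : RB k P1B ((-(k : ℤ)) - ((k : ℤ) + b)) = 0 :=
    RB_far hk _ rfl (by omega) (by omega) (by omega) (by omega) (by omega) (by omega) (by omega)
  have r27 : RB k P1B ((-(k : ℤ)) - ((k : ℤ) - b)) = 0 :=
    RB_far hk _ rfl (by omega) (by omega) (by omega) (by omega) (by omega) (by omega) (by omega)
  have r34 : RB k P1B ((2 * (k : ℤ)) - (-(a : ℤ))) = 0 :=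
    RB_far hk _ rfl (by omega) (by omega) (by omega) (by omega) (by omega) (by omega) (by omega)
  have r35 : RB k P1B ((2 * (k : ℤ)) - (a : ℤ)) = 0 :=
    RB_far hk _ rfl (by omega) (by omega) (by omega) (by omega) (by omega) (by omega) (by omega)
  have r36 : RB k P1B ((2 * (k : ℤ)) - ((k : ℤ) + b)) = 0 :=
    RB_far hk _ rfl (by omega) (by omega) (by omega) (by omega) (by omega) (by omega) (by omega)
  have r37 : RB k P1B ((2 * (k : ℤ)) - ((k : ℤ) - b)) = 0 :=
    RB_far hk _ rfl (by omega) (by omega) (by omega) (by omega) (by omega) (by omega) (by omega)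
  have r45 : RB k P1B ((-(a : ℤ)) - (a : ℤ)) = 0 :=
    RB_far hk _ rfl (by omega) (by omega) (by omega) (by omega) (by omega) (by omega) (by omega)
  have r46 : RB k P1B ((-(a : ℤ)) - ((k : ℤ) + b)) = 0 :=
    RB_far hk _ rfl (by omega) (by omega) (by omega) (by omega) (by omega) (by omega) (by omega)
  have r47 : RB k P1B ((-(a : ℤ)) - ((k : ℤ) - b)) = 27661/100000 :=
    (RB_mul hk P1B 2 (by push_cast; omega)).trans P1_r2
  have r56 : RB k P1B ((a : ℤ) - ((k : ℤ) + b)) = 0 :=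
    RB_far hk _ rfl (by omega) (by omega) (by omega) (by omega) (by omega) (by omega) (by omega)
  have r57 : RB k P1B ((a : ℤ) - ((k : ℤ) - b)) = 0 :=
    RB_far hk _ rfl (by omega) (by omega) (by omega) (by omega) (by omega) (by omega) (by omega)
  have r67 : RB k P1B (((k : ℤ) + b) - ((k : ℤ) - b)) = 0 :=
    RB_far hk _ rfl (by omega) (by omega) (by omega) (by omega) (by omega) (by omega) (by omega)
  have r00 : RB k P1B 0 = 730059/500000 := (RB_mul hk P1B 0 (by simp)).trans P1_r0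
  have hx := h.norm_le (-(a : ℤ))
  have hz := h.norm_le ((k : ℤ) + b)
  have hx2 : (c (-(a : ℤ))).re ^ 2 + (c (-(a : ℤ))).im ^ 2 ≤ 1 := sq_le_of_norm hx
  have hz2 : (c ((k : ℤ) + b)).re ^ 2 + (c ((k : ℤ) + b)).im ^ 2 ≤ 1 := sq_le_of_norm hz
  have n0 := norm_lin hx2 hz2 (2001/1000) (0) (0) (0) (0) (0) (0)
    (by norm_num [abs_le]) (by norm_num [abs_le]) (by norm_num [abs_le]) (by norm_num [abs_le])
  have n1 := norm_lin hx2 hz2 (2001/1000) (0) (0) (0) (0) (0) (0)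
    (by norm_num [abs_le]) (by norm_num [abs_le]) (by norm_num [abs_le]) (by norm_num [abs_le])
  have n2 := norm_lin hx2 hz2 (500/797) (0) (0) (0) (0) (0) (0)
    (by norm_num [abs_le]) (by norm_num [abs_le]) (by norm_num [abs_le]) (by norm_num [abs_le])
  have n3 := norm_lin hx2 hz2 (500/797) (0) (0) (0) (0) (0) (0)
    (by norm_num [abs_le]) (by norm_num [abs_le]) (by norm_num [abs_le]) (by norm_num [abs_le])
  have n4 := norm_lin hx2 hz2 (0) (137/200) (119/1000) (137/200) ((-119/1000)) (137/200) (119/1000)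
    (by norm_num [abs_le]) (by norm_num [abs_le]) (by norm_num [abs_le]) (by norm_num [abs_le])
  have n5 := norm_lin hx2 hz2 (0) ((-500/797)) (0) (500/797) (0) (500/797) (0)
    (by norm_num [abs_le]) (by norm_num [abs_le]) (by norm_num [abs_le]) (by norm_num [abs_le])
  have n6 := norm_lin hx2 hz2 (0) (0) (137/200) (0) (137/200) (0) (137/200)
    (by norm_num [abs_le]) (by norm_num [abs_le]) (by norm_num [abs_le]) (by norm_num [abs_le])
  have n7 := norm_lin hx2 hz2 (0) (0) ((-500/797)) (0) (500/797) (0) (500/797)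
    (by norm_num [abs_le]) (by norm_num [abs_le]) (by norm_num [abs_le]) (by norm_num [abs_le])
  have g := gram8 h hk P1A P1B P1_len 1204400 P1_eps (by norm_num) 0 (k : ℤ) (-(k : ℤ)) (2 * (k : ℤ))
    (-(a : ℤ)) (a : ℤ) ((k : ℤ) + b) ((k : ℤ) - b) _ _ _ _ _ _ _ _ _ _ _ _ _ _ _ _
    _ _ _ _ _ _ _ _ _ _ _ _ _ _ _ _ _ _ _ _ _ _ _ _ _ _ _ _ _ r00 r01 r02 r03 r04 r05 r06 r07 r12 r13 r14 r15 r16 r17 r23 r24 r25 r26 r27 r34 r35 r36 r37 r45 r46 r47 r56 r57 r67
    (6376327/797000) ((add_le_add (add_le_add (add_le_add (add_le_add (add_le_add (add_le_add (add_le_add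
      n0 n1) n2) n3) n4) n5) n6) n7).trans (by norm_num [abs_of_neg, abs_of_pos]))
  rw [h.c_zero, h.c_edge, P1_nrm] at g
  simp only [Complex.one_re, Complex.one_im] at g
  unfold Pot
  rw [q1, q2, q3, q4]
  simp only [Complex.mul_re]
  clear n0 n1 n2 n3 n4 n5 n6 n7 q1 q2 q3 q4 r01 r02 r03 r04 r05 r06 r07 r12 r13 r14 r15 r16 r17 r23 r24 r25 r26 r27 r34 r35 r36 r37 r45 r46 r47 r56 r57 r67 r00 hx hz h
  generalize (c (-(a : ℤ))).re = x1 at g hx2 ⊢
  generalize (c (-(a : ℤ))).im = x2 at g hx2 ⊢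
  generalize (c ((k : ℤ) + b)).re = z1 at g hz2 ⊢
  generalize (c ((k : ℤ) + b)).im = z2 at g hz2 ⊢
  generalize (c ((k : ℤ) - b)).re = w1 at g ⊢
  generalize (c ((k : ℤ) - b)).im = w2 at g ⊢
  generalize (c (a : ℤ)).re = y1 at g ⊢
  generalize (c (a : ℤ)).im = y2 at g ⊢
  generalize (c (-(k : ℤ))).re = u1 at g ⊢
  generalize (c (-(k : ℤ))).im = u2 at g
  generalize (c (2 * (k : ℤ))).re = v1 at g ⊢
  generalize (c (2 * (k : ℤ))).im = v2 at g
  generalize K ^ 2 = KK at g hK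
  linarith [sq_nonneg (x1 + 10783/10000 * z1 + 0),
    sq_nonneg (z1 + 0),
    sq_nonneg (x2 + (-10783/10000) * z2),
    sq_nonneg z2,
    sq_nonneg x2,
    sq_nonneg x1,
    sq_nonneg z1,
    sq_nonneg (x1 + z1),
    sq_nonneg (x1 - z1),
    sq_nonneg (x2 + z2),
    sq_nonneg (x2 - z2),
    sq_nonneg (x1 + 1),
    sq_nonneg (x1 - 1),
    sq_nonneg (z1 + 1),
    sq_nonneg (z1 - 1)]

end MaxTerm.Inc
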