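import Pool.Agent.MaxTerm.Inc.Tele
import Pool.Agent.MaxTerm.Inc.Cov123
import Pool.Agent.MaxTerm.Inc.Cov124
import Pool.Agent.MaxTerm.Inc.Cov134
import Pool.Agent.MaxTerm.Inc.Cov235
import Pool.Agent.MaxTerm.Inc.CovLat
import Pool.Agent.MaxTerm.Inc.Psd0
import Pool.Agent.MaxTerm.Inc.Psd1
import Pool.Agent.MaxTerm.Inc.Psd2
import Pool.Agent.MaxTerm.Inc.Psd3
import Pool.Agent.MaxTerm.Inc.Psd4
import Pool.Agent.MaxTerm.Inc.Psd5
import Pool.Agent.MaxTerm.Inc.Psd6

/-!
# MP_4255df: no chain has eventually strictly increasing gaps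

Every window with gaps `a < k < b` has `Pot ≥ 1/1000`; the potential telescopes and is bounded.
-/

namespace MaxTerm.Inc

theorem window_pos (K : ℝ) (a k b : ℕ) (c : ℤ → ℂ) (t : ℝ) (ha : 0 < a) (hak : a < k) (hkb : k < b)
    (hK : K ^ 2 ≤ 2.92127) (h : IsLeft K a k c t) : 1 / 1000 ≤ Pot a k b c := by
  by_cases e0 : 2 * a = k
  · by_cases f1 : b = a + k
    · have hb : b = 3 * a := by omega
      subst hb
      subst e0
      exact pot_123 ha h hK
    by_cases f2 : b = 2 * k
    · have hb : b = 4 * a := by omega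
      subst hb
      subst e0
      exact pot_124 ha h hK
    by_cases f3 : b = 3 * k
    · exact psd_hb3 ha hak hkb e0 f3 hK h.win
    by_cases f4 : b = 4 * k
    · exact psd_hb4 ha hak hkb e0 f4 hK h.win
    by_cases f5 : b = 5 * k
    · exact psd_hb5 ha hak hkb e0 f5 hK h.win
    by_cases f6 : b = a + 2 * k
    · exact psd_h125 ha hak hkb e0 f6 hK h.win
    by_cases f7 : b = a + 3 * k
    · exact psd_h127 ha hak hkb e0 f7 hK h.win
    by_cases f8 : b = a + 4 * k
    · exact psd_h129 ha hak hkb e0 f8 hK h.win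
    exact psd_hgen ha hak hkb e0 f2 f3 f4 f5 f1 f6 f7 f8 hK h.win
  · by_cases f1 : b = a + k
    · subst f1
      by_cases g1 : 3 * a = k
      · subst g1
        have h' : IsLeft K (1 * a) (3 * a) c t := by rwa [one_mul]
        have e := pot_134 ha h' hK
        rw [one_mul] at e
        have e4 : a + 3 * a = 4 * a := by ring
        rwa [e4]
      by_cases g2 : 3 * a = 2 * k
      · obtain ⟨g, hg⟩ : ∃ g, a = 2 * g := ⟨a / 2, by omega⟩
        have hk3 : k = 3 * g := by omega
        subst hg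
        subst hk3
        have e := pot_235 (by omega) h hK
        have e5 : 2 * g + 3 * g = 5 * g := by ring
        rwa [e5]
      exact pot_lat ha hak e0 g1 g2 h hK
    by_cases f2 : b = 2 * k
    · exact psd_b2 ha hak hkb e0 f2 hK h.win
    by_cases f3 : b = 3 * k
    · exact psd_b3 ha hak hkb e0 f3 hK h.win
    by_cases f4 : b = 4 * k
    · exact psd_b4 ha hak hkb e0 f4 hK h.win
    by_cases f5 : b = 5 * k
    · exact psd_b5 ha hak hkb e0 f5 hK h.win
    by_cases f6 : 2 * b = 3 * k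
    · exact psd_h3 ha hak hkb e0 f6 hK h.win
    by_cases f7 : a + b = 2 * k
    · exact psd_s2 ha hak hkb e0 f7 hK h.win
    by_cases f8 : a + b = 3 * k
    · exact psd_s3 ha hak hkb e0 f8 hK h.win
    by_cases f9 : a + b = 4 * k
    · exact psd_s4 ha hak hkb e0 f9 hK h.win
    by_cases f10 : b = a + 2 * k
    · exact psd_d2 ha hak hkb e0 f10 hK h.win
    by_cases f11 : b = a + 3 * k
    · exact psd_d3 ha hak hkb e0 f11 hK h.win
    by_cases f12 : b = a + 4 * k
    · exact psd_d4 ha hak hkb e0 f12 hK h.win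
    exact psd_gen ha hak hkb e0 f2 f3 f4 f5 f6 f7 f8 f9 f1 f10 f11 f12 hK h.win

/-- **Case (iii).** If `K² ≤ 2.92127` no chain has eventually strictly increasing gaps. -/
theorem no_increasing {K : ℝ} (C : Chain K) (hK : K ^ 2 ≤ 2.92127) :
    ¬ ∃ J, ∀ j ≥ J, C.k j < C.k (j + 1) :=
  no_increasing_of window_pos C hK

end MaxTerm.Inc
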