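import Pool.Agent.MaxTerm.Inc.Gram8

/-! # The four profiles (generated) -/

namespace MaxTerm.Inc

def P1A : List ℤ := [100000, 63000, 14990, -1417, -1634, 25, 353, 139, 2, -17]
def P1B : List ℤ := [100000, -63000, 24700, -4700]
theorem P1_len : 0 < P1A.length := by decide
theorem P1_eps : epsZ P1A P1B ≤ 1204400 := by decide +kernel
theorem P1_nrm : ((nrmZ P1A : ℤ) : ℝ) / 10 ^ 10 = 14198522793/10000000000 := by
  rw [show nrmZ P1A = 14198522793 by decide +kernel]; norm_num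
theorem P1_r0 : ((rrZ P1B 0 : ℤ) : ℝ) / 10 ^ 10 = 730059/500000 := by
  rw [show rrZ P1B 0 = 14601180000 by decide +kernel]; norm_num
theorem P1_r1 : ((rrZ P1B 1 : ℤ) : ℝ) / 10 ^ 10 = (-797219/1000000) := by
  rw [show rrZ P1B 1 = -7972190000 by decide +kernel]; norm_num
theorem P1_r2 : ((rrZ P1B 2 : ℤ) : ℝ) / 10 ^ 10 = 27661/100000 := by
  rw [show rrZ P1B 2 = 2766100000 by decide +kernel]; norm_num
theorem P1_r3 : ((rrZ P1B 3 : ℤ) : ℝ) / 10 ^ 10 = (-47/1000) := by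
  rw [show rrZ P1B 3 = -470000000 by decide +kernel]; norm_num

def P2A : List ℤ := [100000, 59500, 13602, -278, -393, 452, 342, 87, -2, -4]
def P2B : List ℤ := [100000, -59500, 21800, -4600]
theorem P2_len : 0 < P2A.length := by decide
theorem P2_eps : epsZ P2A P2B ≤ 554200 := by decide +kernel
theorem P2_nrm : ((nrmZ P2A : ℤ) : ℝ) / 10 ^ 10 = 6862912497/5000000000 := by
  rw [show nrmZ P2A = 13725824994 by decide +kernel]; norm_num
theorem P2_r0 : ((rrZ P2B 0 : ℤ) : ℝ) / 10 ^ 10 = 280733/200000 := by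
  rw [show rrZ P2B 0 = 14036650000 by decide +kernel]; norm_num
theorem P2_r1 : ((rrZ P2B 1 : ℤ) : ℝ) / 10 ^ 10 = (-367369/500000) := by
  rw [show rrZ P2B 1 = -7347380000 by decide +kernel]; norm_num
theorem P2_r2 : ((rrZ P2B 2 : ℤ) : ℝ) / 10 ^ 10 = 24537/100000 := by
  rw [show rrZ P2B 2 = 2453700000 by decide +kernel]; norm_num
theorem P2_r3 : ((rrZ P2B 3 : ℤ) : ℝ) / 10 ^ 10 = (-23/500) := by
  rw [show rrZ P2B 3 = -460000000 by decide +kernel]; norm_num

def P3A : List ℤ := [100000, 65500, 12902, -2199, 584, 2203, 1070, 92, -62, 28, 45, 16, -1]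
def P3B : List ℤ := [100000, -65500, 30000, -9000]
theorem P3_len : 0 < P3A.length := by decide
theorem P3_eps : epsZ P3A P3B ≤ 682000 := by decide +kernel
theorem P3_nrm : ((nrmZ P3A : ℤ) : ℝ) / 10 ^ 10 = 904243859/625000000 := by
  rw [show nrmZ P3A = 14467901744 by decide +kernel]; norm_num
theorem P3_r0 : ((rrZ P3B 0 : ℤ) : ℝ) / 10 ^ 10 = 12217/8000 := by
  rw [show rrZ P3B 0 = 15271250000 by decide +kernel]; norm_num
theorem P3_r1 : ((rrZ P3B 1 : ℤ) : ℝ) / 10 ^ 10 = (-1757/2000) := by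
  rw [show rrZ P3B 1 = -8785000000 by decide +kernel]; norm_num
theorem P3_r2 : ((rrZ P3B 2 : ℤ) : ℝ) / 10 ^ 10 = 7179/20000 := by
  rw [show rrZ P3B 2 = 3589500000 by decide +kernel]; norm_num
theorem P3_r3 : ((rrZ P3B 3 : ℤ) : ℝ) / 10 ^ 10 = (-9/100) := by
  rw [show rrZ P3B 3 = -900000000 by decide +kernel]; norm_num

def P4A : List ℤ := [100000, 58500, 16500, -4500]
def P4B : List ℤ := [100000, -58500, 17722, 3785, -7771, 4719, -1308, -363, 641, -374, 97, 34, -53, 30, -7, -3, 4, -2, 1]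
theorem P4_len : 0 < P4A.length := by decide
theorem P4_eps : epsZ P4A P4B ≤ 447000 := by decide +kernel
theorem P4_nrm : ((nrmZ P4A : ℤ) : ℝ) / 10 ^ 10 = 54859/40000 := by
  rw [show nrmZ P4A = 13714750000 by decide +kernel]; norm_num
theorem P4_r0 : ((rrZ P4B 0 : ℤ) : ℝ) / 10 ^ 10 = 6917855327/5000000000 := by
  rw [show rrZ P4B 0 = 13835710654 by decide +kernel]; norm_num
theorem P4_r1 : ((rrZ P4B 1 : ℤ) : ℝ) / 10 ^ 10 = (-3445975231/5000000000) := by
  rw [show rrZ P4B 1 = -6891950462 by decide +kernel]; norm_num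
theorem P4_r2 : ((rrZ P4B 2 : ℤ) : ℝ) / 10 ^ 10 = 1438715661/10000000000 := by
  rw [show rrZ P4B 2 = 1438715661 by decide +kernel]; norm_num
theorem P4_r3 : ((rrZ P4B 3 : ℤ) : ℝ) / 10 ^ 10 = 918127149/10000000000 := by
  rw [show rrZ P4B 3 = 918127149 by decide +kernel]; norm_num
theorem P4_r4 : ((rrZ P4B 4 : ℤ) : ℝ) / 10 ^ 10 = (-1084647419/10000000000) := by
  rw [show rrZ P4B 4 = -1084647419 by decide +kernel]; norm_num
theorem P4_r5 : ((rrZ P4B 5 : ℤ) : ℝ) / 10 ^ 10 = 34235737/625000000 := by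
  rw [show rrZ P4B 5 = 547771792 by decide +kernel]; norm_num

end MaxTerm.Inc
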