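import Pool.Agent.MaxTerm.Inc.SoundA

/-! # Soundness of the checker -/

open scoped ComplexConjugate

namespace MaxTerm.Inc

/-- **S6.** bilinear mixing.  `L0 + L1 x1 + L2 x2` is an affine function. -/
theorem mix {a1 b1 a2 b2 x1 x2 L0 L1 L2 δ M1 M2 : ℝ} (h1 : a1 ≤ x1) (h2 : x1 ≤ b1) (h3 : a2 ≤ x2)
    (h4 : x2 ≤ b2) {J00 J10 J01 J11 r00 r10 r01 r11 i00 i10 i01 i11 : ℝ}
    (c00 : J00 + (r00 * (x1 - a1) - i00 * (x2 - a2)) ≤ L0 + L1 * a1 + L2 * a2)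
    (c10 : J10 + (r10 * (x1 - b1) - i10 * (x2 - a2)) ≤ L0 + L1 * b1 + L2 * a2)
    (c01 : J01 + (r01 * (x1 - a1) - i01 * (x2 - b2)) ≤ L0 + L1 * a1 + L2 * b2)
    (c11 : J11 + (r11 * (x1 - b1) - i11 * (x2 - b2)) ≤ L0 + L1 * b1 + L2 * b2)
    (hM1 : 0 ≤ M1) (m1 : r10 - r00 ≤ M1) (m1' : r11 - r01 ≤ M1)
    (hM2 : 0 ≤ M2) (m2 : i00 - i01 ≤ M2) (m2' : i10 - i11 ≤ M2)
    (j00 : δ + ((b1 - a1) * M1 + (b2 - a2) * M2) / 4 ≤ J00)
    (j10 : δ + ((b1 - a1) * M1 + (b2 - a2) * M2) / 4 ≤ J10)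
    (j01 : δ + ((b1 - a1) * M1 + (b2 - a2) * M2) / 4 ≤ J01)
    (j11 : δ + ((b1 - a1) * M1 + (b2 - a2) * M2) / 4 ≤ J11) :
    δ ≤ L0 + L1 * x1 + L2 * x2 := by
  obtain ⟨α, hα0, hα1, hα⟩ : ∃ α : ℝ, 0 ≤ α ∧ α ≤ 1 ∧ x1 = a1 + α * (b1 - a1) := by
    rcases eq_or_lt_of_le (h1.trans h2) with h | h
    · exact ⟨0, le_rfl, zero_le_one, by linarith⟩
    · have hd : 0 < b1 - a1 := sub_pos.2 h
      refine ⟨(x1 - a1) / (b1 - a1), div_nonneg (by linarith) hd.le,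
        (div_le_one hd).2 (by linarith), ?_⟩
      rw [div_mul_cancel₀ _ hd.ne']
      ring
  obtain ⟨β, hβ0, hβ1, hβ⟩ : ∃ β : ℝ, 0 ≤ β ∧ β ≤ 1 ∧ x2 = a2 + β * (b2 - a2) := by
    rcases eq_or_lt_of_le (h3.trans h4) with h | h
    · exact ⟨0, le_rfl, zero_le_one, by linarith⟩
    · have hd : 0 < b2 - a2 := sub_pos.2 h
      refine ⟨(x2 - a2) / (b2 - a2), div_nonneg (by linarith) hd.le,
        (div_le_one hd).2 (by linarith), ?_⟩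
      rw [div_mul_cancel₀ _ hd.ne']
      ring
  have hd1 : 0 ≤ b1 - a1 := by linarith
  have hd2 : 0 ≤ b2 - a2 := by linarith
  have hα' : 0 ≤ 1 - α := by linarith
  have hβ' : 0 ≤ 1 - β := by linarith
  subst hα hβ
  have t00 := mul_le_mul_of_nonneg_left c00 (mul_nonneg hα' hβ')
  have t10 := mul_le_mul_of_nonneg_left c10 (mul_nonneg hα0 hβ')
  have t01 := mul_le_mul_of_nonneg_left c01 (mul_nonneg hα' hβ0)
  have t11 := mul_le_mul_of_nonneg_left c11 (mul_nonneg hα0 hβ0)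
  have s00 := mul_le_mul_of_nonneg_left j00 (mul_nonneg hα' hβ')
  have s10 := mul_le_mul_of_nonneg_left j10 (mul_nonneg hα0 hβ')
  have s01 := mul_le_mul_of_nonneg_left j01 (mul_nonneg hα' hβ0)
  have s11 := mul_le_mul_of_nonneg_left j11 (mul_nonneg hα0 hβ0)
  have u1 := mul_nonneg (mul_nonneg (mul_nonneg hα0 hα') (mul_nonneg hβ' hd1)) (sub_nonneg.2 m1)
  have u2 := mul_nonneg (mul_nonneg (mul_nonneg hα0 hα') (mul_nonneg hβ0 hd1)) (sub_nonneg.2 m1')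
  have v1 := mul_nonneg (mul_nonneg (mul_nonneg hβ0 hβ') (mul_nonneg hα' hd2)) (sub_nonneg.2 m2)
  have v2 := mul_nonneg (mul_nonneg (mul_nonneg hβ0 hβ') (mul_nonneg hα0 hd2)) (sub_nonneg.2 m2')
  have q1 := mul_nonneg (mul_nonneg hd1 hM1) (sq_nonneg (α - 1 / 2))
  have q2 := mul_nonneg (mul_nonneg hd2 hM2) (sq_nonneg (β - 1 / 2))
  linarith

/-- membership in a box. -/
def InBox (a1 b1 a2 b2 : ℤ) (x : ℂ) : Prop :=
  (a1 : ℝ) / 100 ≤ x.re ∧ x.re ≤ (b1 : ℝ) / 100 ∧ (a2 : ℝ) / 100 ≤ x.im ∧ x.im ≤ (b2 : ℝ) / 100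

/-- all conditions of a cell, except the cover. -/
def Cell.good (a : ℕ) (F : Fam) (C : Cell) : Bool :=
  C.ok F && C.okT a && okq F.wf F.t0 C.c00.Q && okq F.wf F.t0 C.c10.Q && okq F.wf F.t0 C.c01.Q &&
    okq F.wf F.t0 C.c11.Q && decide (0 ≤ C.a1) && decide (0 ≤ C.a2)

/-- the bound `T` of a box is valid. -/
theorem le_of_okT {a : ℕ} (ha : 0 < a) {t : ℝ} (ht0 : 0 ≤ t) (ht1 : t ≤ 1) {x : ℂ}
    (hx : ‖x‖ = t ^ a) {a1 b1 a2 b2 : ℤ} {T : ℕ} (h1 : 0 ≤ a1) (h2 : 0 ≤ a2)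
    (hin : InBox a1 b1 a2 b2 x)
    (hT : 10 ^ 4 ≤ T ∨ (b1 * b1 + b2 * b2) * 10 ^ (8 * a - 4) ≤ (T : ℤ) ^ (2 * a)) :
    t ≤ (T : ℝ) / 10 ^ 4 := by
  rcases hT with hT | hT
  · have : (10 ^ 4 : ℝ) ≤ T := by exact_mod_cast hT
    rw [le_div_iff₀ (by norm_num)]
    linarith
  · obtain ⟨g1, g2, g3, g4⟩ := hin
    have k1 : (0 : ℝ) ≤ a1 := by exact_mod_cast h1
    have k2 : (0 : ℝ) ≤ a2 := by exact_mod_cast h2
    have e1 : x.re ^ 2 ≤ ((b1 : ℝ) / 100) ^ 2 :=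
      pow_le_pow_left₀ ((div_nonneg k1 (by norm_num)).trans g1) g2 2
    have e2 : x.im ^ 2 ≤ ((b2 : ℝ) / 100) ^ 2 :=
      pow_le_pow_left₀ ((div_nonneg k2 (by norm_num)).trans g3) g4 2
    have e3 : t ^ (2 * a) = x.re ^ 2 + x.im ^ 2 := by
      rw [mul_comm, pow_mul, ← hx, ← Complex.normSq_eq_norm_sq, Complex.normSq_apply]
      ring
    have hT' : ((b1 : ℝ) * b1 + b2 * b2) * 10 ^ (8 * a - 4) ≤ (T : ℝ) ^ (2 * a) := by
      exact_mod_cast hT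
    have e4 : (10 : ℝ) ^ (8 * a - 4) * 10 ^ 4 = (10 ^ 4) ^ (2 * a) := by
      rw [← pow_add, ← pow_mul]
      congr 1
      omega
    have e5 : t ^ (2 * a) ≤ ((T : ℝ) / 10 ^ 4) ^ (2 * a) := by
      rw [div_pow, le_div_iff₀ (by positivity), ← e4]
      have p : (0 : ℝ) < 10 ^ (8 * a - 4) := by positivity
      have e6 : t ^ (2 * a) * 10 ^ 4 ≤ (b1 : ℝ) * b1 + b2 * b2 := by
        rw [e3]
        nlinarith
      calc t ^ (2 * a) * (10 ^ (8 * a - 4) * 10 ^ 4)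
          = (t ^ (2 * a) * 10 ^ 4) * 10 ^ (8 * a - 4) := by ring
        _ ≤ ((b1 : ℝ) * b1 + b2 * b2) * 10 ^ (8 * a - 4) := by
            exact mul_le_mul_of_nonneg_right e6 p.le
        _ ≤ _ := hT'
    exact le_of_pow_le_pow_left₀ (by omega) (by positivity) e5

theorem lin_eq (F : Fam) (X1 X2 : ℝ) (v u y z : ℂ) :
    lin F ⟨X1, X2⟩ v u y z = (-((F.l1R : ℝ) / 100) * v.re - (F.l2L : ℝ) / 100 * u.re)
      + ((F.l1L : ℝ) / 100 * y.re + (F.l2R : ℝ) / 100 * z.re) * X1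
      + (-((F.l1L : ℝ) / 100 * y.im + (F.l2R : ℝ) / 100 * z.im)) * X2 := by
  unfold lin
  rw [Complex.mul_re, Complex.mul_re]
  ring

theorem toC_mul_sub_re (w : GI) (x : ℂ) (X1 X2 : ℝ) :
    (w.toC * (x - ⟨X1, X2⟩)).re = w.r * (x.re - X1) - w.i * (x.im - X2) := by
  rw [Complex.mul_re, Complex.sub_re, Complex.sub_im]
  rfl

/-- **S7.** -/
theorem Cell.sound {F : Fam} {K2 t : ℝ} {G : ℤ → ℂ} {x v u y z : ℂ} {a : ℕ} (ha : 0 < a)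
    (hG : GOK F K2 G t x v u y z) (hx : ‖x‖ = t ^ a) (C : Cell) (hC : C.good a F = true)
    (hE : ∀ c ∈ [C.c00, C.c10, C.c01, C.c11],
      enr F.wf G c.P F.t0 c.Q.length ≤ K2 * (nrmP c.P : ℝ))
    (hin : InBox C.a1 C.b1 C.a2 C.b2 x) : 1 / 1000 ≤ lin F x v u y z := by
  simp only [Cell.good, Cell.ok, Cell.okT, Bool.and_eq_true, Bool.or_eq_true,
    decide_eq_true_eq] at hC
  obtain ⟨⟨⟨⟨⟨⟨⟨⟨⟨⟨j00, j10⟩, j01⟩, j11⟩, hT⟩, q00⟩, q10⟩, q01⟩, q11⟩, p1⟩, p2⟩ := hC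
  have hT' := le_of_okT ha hG.t0 hG.t1 hx p1 p2 hin hT
  have s00 := corner_sound hG hT' C.c00 q00 (hE _ (by simp)) C.a1 C.a2
  have s10 := corner_sound hG hT' C.c10 q10 (hE _ (by simp)) C.b1 C.a2
  have s01 := corner_sound hG hT' C.c01 q01 (hE _ (by simp)) C.a1 C.b2
  have s11 := corner_sound hG hT' C.c11 q11 (hE _ (by simp)) C.b1 C.b2
  obtain ⟨g1, g2, g3, g4⟩ := hin
  rw [lin_eq, toC_mul_sub_re] at s00 s10 s01 s11
  generalize hr00 : corner F C.T C.a1 C.a2 C.c00 = r00 at *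
  generalize hr10 : corner F C.T C.b1 C.a2 C.c10 = r10 at *
  generalize hr01 : corner F C.T C.a1 C.b2 C.c01 = r01 at *
  generalize hr11 : corner F C.T C.b1 C.b2 C.c11 = r11 at *
  have hx' : lin F x v u y z = lin F ⟨x.re, x.im⟩ v u y z := rfl
  rw [hx', lin_eq]
  set A : ℤ := max 0 (max (r10.2.r - r00.2.r) (r11.2.r - r01.2.r)) with hA
  set B : ℤ := max 0 (max (r00.2.i - r01.2.i) (r10.2.i - r11.2.i)) with hB
  have A0 : 0 ≤ A := le_max_left _ _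
  have A1 : r10.2.r - r00.2.r ≤ A := (le_max_left _ _).trans (le_max_right _ _)
  have A2 : r11.2.r - r01.2.r ≤ A := (le_max_right _ _).trans (le_max_right _ _)
  have B0 : 0 ≤ B := le_max_left _ _
  have B1 : r00.2.i - r01.2.i ≤ B := (le_max_left _ _).trans (le_max_right _ _)
  have B2 : r10.2.i - r11.2.i ≤ B := (le_max_right _ _).trans (le_max_right _ _)
  have hL : mixLoss (C.b1 - C.a1) (C.b2 - C.a2) r00.2 r10.2 r01.2 r11.2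
      = 250000 * ((C.b1 - C.a1) * A + (C.b2 - C.a2) * B) := rfl
  rw [hL] at j00 j10 j01 j11
  have hq : ∀ J : ℤ, 10 ^ 15 + 250000 * ((C.b1 - C.a1) * A + (C.b2 - C.a2) * B) ≤ J →
      1 / 1000 + (((C.b1 : ℝ) / 100 - (C.a1 : ℝ) / 100) * ((A : ℝ) / 10 ^ 10)
        + ((C.b2 : ℝ) / 100 - (C.a2 : ℝ) / 100) * ((B : ℝ) / 10 ^ 10)) / 4 ≤ (J : ℝ) / 10 ^ 18 := by
    intro J hJ
    have hJ' : (10 ^ 15 + 250000 * (((C.b1 : ℝ) - C.a1) * A + ((C.b2 : ℝ) - C.a2) * B)) ≤ J := by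
      exact_mod_cast hJ
    rw [le_div_iff₀ (by norm_num)]
    refine le_trans (le_of_eq ?_) hJ'
    ring
  have hr : ∀ m n : ℤ, m ≤ n → (m : ℝ) / 10 ^ 10 ≤ (n : ℝ) / 10 ^ 10 := by
    intro m n h
    have : (m : ℝ) ≤ n := by exact_mod_cast h
    exact div_le_div_of_nonneg_right this (by norm_num)
  have fix : ∀ (J w1 w2 p q : ℝ), J + (w1 * p - w2 * q) / 10 ^ 10
      = J + (w1 / 10 ^ 10 * p - w2 / 10 ^ 10 * q) := by
    intros; ring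
  rw [fix] at s00 s10 s01 s11
  refine mix (M1 := (A : ℝ) / 10 ^ 10) (M2 := (B : ℝ) / 10 ^ 10) g1 g2 g3 g4 s00 s10 s01 s11
    (by positivity) ?_ ?_ (by positivity) ?_ ?_ (hq _ j00) (hq _ j10) (hq _ j01) (hq _ j11)
  · have := hr _ _ A1
    push_cast at this
    linarith
  · have := hr _ _ A2
    push_cast at this
    linarith
  · have := hr _ _ B1
    push_cast at this
    linarith
  · have := hr _ _ B2
    push_cast at this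
    linarith

/-- **S8.** real cells (two corners, `x` real): used for the lattice family. -/
def Cell.good1 (F : Fam) (C : Cell) : Bool :=
  let r0 := corner F C.T C.a1 0 C.c00
  let r1 := corner F C.T C.b1 0 C.c10
  let L := 250000 * ((C.b1 - C.a1) * max 0 (r1.2.r - r0.2.r))
  decide (10 ^ 15 + L ≤ r0.1) && decide (10 ^ 15 + L ≤ r1.1) && decide (0 ≤ C.a1) &&
    decide (100 * C.b1 ≤ C.T) && okq F.wf F.t0 C.c00.Q && okq F.wf F.t0 C.c10.Q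

theorem Cell.sound1 {F : Fam} {K2 t : ℝ} {G : ℤ → ℂ} {v u y z : ℂ}
    (hG : GOK F K2 G t t v u y z) (C : Cell) (hC : C.good1 F = true)
    (hE : ∀ c ∈ [C.c00, C.c10], enr F.wf G c.P F.t0 c.Q.length ≤ K2 * (nrmP c.P : ℝ))
    (h1 : (C.a1 : ℝ) / 100 ≤ t) (h2 : t ≤ (C.b1 : ℝ) / 100) : 1 / 1000 ≤ lin F t v u y z := by
  simp only [Cell.good1, Bool.and_eq_true, decide_eq_true_eq] at hC
  obtain ⟨⟨⟨⟨⟨j0, j1⟩, p1⟩, p2⟩, q0⟩, q1⟩ := hC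
  have hT' : t ≤ (C.T : ℝ) / 10 ^ 4 := by
    have : (100 * (C.b1 : ℝ)) ≤ C.T := by exact_mod_cast p2
    rw [le_div_iff₀ (by norm_num)]
    have h3 := (le_div_iff₀ (by norm_num)).1 h2
    linarith
  have s0 := corner_sound hG hT' C.c00 q0 (hE _ (by simp)) C.a1 0
  have s1 := corner_sound hG hT' C.c10 q1 (hE _ (by simp)) C.b1 0
  rw [lin_eq, toC_mul_sub_re] at s0 s1
  generalize hr0 : corner F C.T C.a1 0 C.c00 = r0 at *
  generalize hr1 : corner F C.T C.b1 0 C.c10 = r1 at *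
  have hx' : lin F t v u y z = lin F ⟨t, ((0 : ℤ) : ℝ) / 100⟩ v u y z := by
    congr 1
    apply Complex.ext <;> simp
  rw [hx', lin_eq]
  set A : ℤ := max 0 (r1.2.r - r0.2.r) with hA
  have A0 : 0 ≤ A := le_max_left _ _
  have A1 : r1.2.r - r0.2.r ≤ A := le_max_right _ _
  have hq : ∀ J : ℤ, 10 ^ 15 + 250000 * ((C.b1 - C.a1) * A) ≤ J →
      1 / 1000 + (((C.b1 : ℝ) / 100 - (C.a1 : ℝ) / 100) * ((A : ℝ) / 10 ^ 10)
        + (((0 : ℤ) : ℝ) / 100 - ((0 : ℤ) : ℝ) / 100) * 0) / 4 ≤ (J : ℝ) / 10 ^ 18 := by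
    intro J hJ
    have hJ' : (10 ^ 15 + 250000 * (((C.b1 : ℝ) - C.a1) * A)) ≤ J := by
      exact_mod_cast hJ
    rw [le_div_iff₀ (by norm_num)]
    refine le_trans (le_of_eq ?_) hJ'
    ring
  have fix : ∀ (J w1 w2 p q : ℝ), J + (w1 * p - w2 * q) / 10 ^ 10
      = J + (w1 / 10 ^ 10 * p - w2 / 10 ^ 10 * q) := by
    intros; ring
  rw [fix, Complex.ofReal_re, Complex.ofReal_im] at s0 s1
  have z0 : (0 : ℝ) - ((0 : ℤ) : ℝ) / 100 = ((0 : ℤ) : ℝ) / 100 - ((0 : ℤ) : ℝ) / 100 := by simp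
  rw [z0] at s0 s1
  have m : (r1.2.r : ℝ) / 10 ^ 10 - (r0.2.r : ℝ) / 10 ^ 10 ≤ (A : ℝ) / 10 ^ 10 := by
    have : (r1.2.r : ℝ) - r0.2.r ≤ A := by exact_mod_cast A1
    rw [← sub_div]
    exact div_le_div_of_nonneg_right this (by norm_num)
  exact mix (M1 := (A : ℝ) / 10 ^ 10) (M2 := 0) h1 h2 le_rfl le_rfl s0 s1 s0 s1
    (by positivity) m m le_rfl (by simp) (by simp) (hq _ j0) (hq _ j1) (hq _ j0) (hq _ j1)

end MaxTerm.Inc
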