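import Pool.Agent.MaxTerm.Inc.Defs

/-! # Soundness of the checker, part A (S1 - S5) -/

open scoped ComplexConjugate

namespace MaxTerm.Inc

theorem le_isq (n : ℕ) : n ≤ isq n * isq n := by
  unfold isq
  simp only
  split_ifs with h
  · exact h
  · exact Nat.le_mul_self n

theorem GI.nsq_nonneg (a : GI) : 0 ≤ a.nsq := by
  unfold GI.nsq
  nlinarith [mul_self_nonneg a.r, mul_self_nonneg a.i]

theorem GI.norm_sq (a : GI) : ‖a.toC‖ ^ 2 = (a.nsq : ℝ) := by
  rw [← Complex.normSq_eq_norm_sq, Complex.normSq_apply]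
  simp [GI.toC, GI.nsq]

/-- **S1.** upper bound of the modulus. -/
theorem le_gabs (a : GI) : ‖a.toC‖ ≤ (gabs a : ℝ) := by
  refine le_of_sq_le_sq ?_ (by positivity)
  rw [a.norm_sq]
  have h1 := le_isq a.nsq.toNat
  have h2 : (a.nsq.toNat : ℤ) = a.nsq := Int.toNat_of_nonneg a.nsq_nonneg
  have h3 : (a.nsq : ℝ) = (a.nsq.toNat : ℝ) := by
    rw [← Int.cast_natCast, h2]
  rw [h3]
  unfold gabs
  have h4 : ((a.nsq.toNat : ℕ) : ℝ) ≤ ((isq a.nsq.toNat * isq a.nsq.toNat : ℕ) : ℝ) := by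
    exact_mod_cast h1
  rw [sq]
  push_cast at h4
  exact h4

/-- **S2.** -/
theorem le_bp {t : ℝ} {T : ℕ} (h0 : 0 ≤ t) (h : t ≤ T / 10 ^ 4) (e : ℕ) :
    t ^ e ≤ (bp T e : ℝ) / 10 ^ 8 := by
  have h1 : t ^ e ≤ ((T : ℝ) / 10 ^ 4) ^ e := pow_le_pow_left₀ h0 h e
  refine h1.trans ?_
  rw [le_div_iff₀ (by positivity)]
  unfold bp
  have h2 : T ^ e * 10 ^ 8 < 10 ^ (4 * e) * (T ^ e * 10 ^ 8 / 10 ^ (4 * e) + 1) :=
    Nat.lt_mul_div_succ _ (by positivity)
  have h3 : ((T ^ e * 10 ^ 8 : ℕ) : ℝ) ≤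
      ((10 ^ (4 * e) * (T ^ e * 10 ^ 8 / 10 ^ (4 * e) + 1) : ℕ) : ℝ) := by
    exact_mod_cast h2.le
  rw [div_pow, div_mul_eq_mul_div, div_le_iff₀ (by positivity)]
  rw [← pow_mul]
  rw [Nat.cast_mul (10 ^ (4 * e))] at h3
  calc (T : ℝ) ^ e * 10 ^ 8 = ((T ^ e * 10 ^ 8 : ℕ) : ℝ) := by push_cast; ring
    _ ≤ _ := h3
    _ = _ := by push_cast; ring

theorem ev_ladd (G : ℤ → ℂ) (l : List GI) : ∀ (n : ℤ) (m : List GI),
    ev G n (ladd l m) = ev G n l + ev G n m := by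
  induction l with
  | nil => intro n m; simp [ladd, ev]
  | cons a l ih =>
    intro n m
    cases m with
    | nil => simp [ladd, ev]
    | cons b m =>
      simp only [ladd, ev, ih]
      have : (a.add b).toC = a.toC + b.toC := by
        apply Complex.ext <;> simp [GI.toC, GI.add]
      rw [this]; ring

theorem GI.toC_mul (a b : GI) : (a.mul b).toC = a.toC * b.toC := by
  apply Complex.ext <;> simp [GI.toC, GI.mul]

theorem GI.toC_add (a b : GI) : (a.add b).toC = a.toC + b.toC := by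
  apply Complex.ext <;> simp [GI.toC, GI.add]

theorem ev_lsm (G : ℤ → ℂ) (c : GI) (l : List GI) : ∀ n : ℤ,
    ev G n (lsm c l) = c.toC * ev G n l := by
  induction l with
  | nil => intro n; simp [lsm, ev]
  | cons a l ih =>
    intro n
    have h1 : lsm c (a :: l) = c.mul a :: lsm c l := rfl
    rw [h1]
    simp only [ev]
    rw [ih, GI.toC_mul]; ring

theorem ev_lconv_cons (G : ℤ → ℂ) (P : List GI) (b : GI) (Q : List GI) (n : ℤ) :
    ev G n (lconv P (b :: Q)) = b.toC * ev G n P + ev G (n + 1) (lconv P Q) := by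
  simp only [lconv, ev_ladd, ev_lsm, ev]
  have : (⟨0, 0⟩ : GI).toC = 0 := by apply Complex.ext <;> simp [GI.toC]
  rw [this]; ring

/-- **S3.** AM-GM with weights. -/
theorem ev_lconv_le (wf : ℤ → ℕ) (G : ℤ → ℂ) (P Q : List GI) (n : ℤ) (hq : okq wf n Q = true) :
    (ev G n (lconv P Q)).re ≤ 1 / 2 * ((nq wf n Q : ℝ) + enr wf G P n Q.length) := by
  induction Q generalizing n with
  | nil => simp [lconv, ev, nq, enr]
  | cons b Q ih =>
    simp only [okq, Bool.and_eq_true, Bool.or_eq_true, decide_eq_true_eq] at hq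
    have h1 := ih (n + 1) hq.2
    rw [ev_lconv_cons, Complex.add_re]
    simp only [nq, List.length_cons, enr]
    push_cast
    set E := ev G n P with hE
    have h2 : (b.toC * E).re ≤ ‖b.toC‖ * ‖E‖ := by
      rw [← norm_mul]; exact Complex.re_le_norm _
    have h3 := b.norm_sq
    have h4 : (b.toC * E).re ≤ 1 / 2 * ((wf n : ℝ) * (b.nsq : ℝ) + ((wf n : ℝ))⁻¹ * ‖E‖ ^ 2) := by
      rcases hq.1 with hw | hw
      · have hw0 : (0 : ℝ) < wf n := by
          exact_mod_cast Nat.pos_of_ne_zero hw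
        rw [← h3]
        refine h2.trans ?_
        have h5 : 0 ≤ ((wf n : ℝ) * ‖b.toC‖ - ‖E‖) ^ 2 := sq_nonneg _
        have h6 : (wf n : ℝ) * ‖b.toC‖ ^ 2 + ((wf n : ℝ))⁻¹ * ‖E‖ ^ 2 =
          ((wf n : ℝ) ^ 2 * ‖b.toC‖ ^ 2 + ‖E‖ ^ 2) / (wf n : ℝ) := by
          field_simp
        rw [h6, ← mul_div_assoc, le_div_iff₀ hw0]
        nlinarith
      · have hb : b.toC = 0 := by
          simp only [GI.isZero, Bool.and_eq_true, decide_eq_true_eq] at hw
          apply Complex.ext <;> simp [GI.toC, hw.1, hw.2]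
        have h7 : (b.nsq : ℝ) = 0 := by rw [← h3, hb]; simp
        rw [h7, hb, zero_mul, Complex.zero_re, mul_zero, zero_add]
        positivity
    linarith

/-- **S4.** -/
theorem walk_sound {sf : ℤ → Slot} {G : ℤ → ℂ} {t : ℝ} {T : ℕ} {x v u y z : ℂ} (ht0 : 0 ≤ t)
    (ht : t ≤ T / 10 ^ 4) (n : ℤ) (W : List GI)
    (hs : ∀ m : ℤ, n ≤ m → SlotOK G t x v u y z m (sf m)) :
    ((walk sf T n W).k : ℝ) / 10 ^ 8 + ((walk sf T n W).x.toC * x).re
      + ((walk sf T n W).v.toC * v).re + ((walk sf T n W).u.toC * u).re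
      + ((walk sf T n W).y.toC * y).re + ((walk sf T n W).z.toC * z).re
      ≤ (ev G n W).re := by
  induction W generalizing n with
  | nil => simp [walk, Acc.zero, ev, GI.toC, Complex.mul_re]
  | cons w W ih =>
    have h1 := ih (n + 1) (fun m hm => hs m (by omega))
    have h2 := hs n le_rfl
    simp only [walk, ev, Complex.add_re]
    generalize walk sf T (n + 1) W = A at h1 ⊢
    generalize (ev G (n + 1) W).re = R at h1 ⊢
    cases hsl : sf n with
    | one =>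
      rw [hsl] at h2
      simp only [SlotOK] at h2
      simp only [Acc.push]
      rw [h2, mul_one]
      have h3 : w.toC.re = (w.r : ℝ) := rfl
      rw [h3]
      push_cast
      linarith
    | px =>
      rw [hsl] at h2
      simp only [SlotOK] at h2
      simp only [Acc.push]
      rw [h2, GI.toC_add, add_mul, Complex.add_re]
      linarith
    | pv =>
      rw [hsl] at h2
      simp only [SlotOK] at h2
      simp only [Acc.push]
      rw [h2, GI.toC_add, add_mul, Complex.add_re]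
      linarith
    | pu =>
      rw [hsl] at h2
      simp only [SlotOK] at h2
      simp only [Acc.push]
      rw [h2, GI.toC_add, add_mul, Complex.add_re]
      linarith
    | py =>
      rw [hsl] at h2
      simp only [SlotOK] at h2
      simp only [Acc.push]
      rw [h2, GI.toC_add, add_mul, Complex.add_re]
      linarith
    | pz =>
      rw [hsl] at h2
      simp only [SlotOK] at h2
      simp only [Acc.push]
      rw [h2, GI.toC_add, add_mul, Complex.add_re]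
      linarith
    | unk e =>
      rw [hsl] at h2
      simp only [SlotOK] at h2
      simp only [Acc.push]
      have h3 := le_gabs w
      have h4 := h2.trans (le_bp ht0 ht e)
      have h5 : -(‖w.toC‖ * ‖G n‖) ≤ (w.toC * G n).re := by
        rw [← norm_mul]
        exact (abs_le.1 (Complex.abs_re_le_norm _)).1
      have h6 : ‖w.toC‖ * ‖G n‖ ≤ (gabs w : ℝ) * ((bp T e : ℝ) / 10 ^ 8) :=
        mul_le_mul h3 h4 (norm_nonneg _) (by positivity)
      push_cast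
      have h7 : ((A.k : ℝ) - (bp T e : ℝ) * (gabs w : ℝ)) / 10 ^ 8 =
        (A.k : ℝ) / 10 ^ 8 - (gabs w : ℝ) * ((bp T e : ℝ) / 10 ^ 8) := by ring
      rw [h7]
      linarith

theorem nq_nonneg (wf : ℤ → ℕ) (Q : List GI) : ∀ n : ℤ, 0 ≤ nq wf n Q := by
  induction Q with
  | nil => intro n; simp [nq]
  | cons b Q ih =>
    intro n
    simp only [nq]
    have h1 := ih (n + 1)
    have h2 : 0 ≤ (wf n : ℤ) * b.nsq := mul_nonneg (Int.natCast_nonneg _) b.nsq_nonneg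
    linarith

/-- **S5.** a point certificate. -/
theorem corner_sound {F : Fam} {K2 t : ℝ} {G : ℤ → ℂ} {x v u y z : ℂ}
    (hG : GOK F K2 G t x v u y z) {T : ℕ} (ht : t ≤ T / 10 ^ 4) (c : PC)
    (hq : okq F.wf F.t0 c.Q = true)
    (hE : enr F.wf G c.P F.t0 c.Q.length ≤ K2 * (nrmP c.P : ℝ)) (X1 X2 : ℤ) :
    ((corner F T X1 X2 c).1 : ℝ) / 10 ^ 18
      + ((corner F T X1 X2 c).2.toC * (x - ⟨(X1 : ℝ) / 100, (X2 : ℝ) / 100⟩)).re / 10 ^ 10
      ≤ lin F ⟨(X1 : ℝ) / 100, (X2 : ℝ) / 100⟩ v u y z := by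
  have h1 := walk_sound hG.t0 ht F.t0 (lconv c.P c.Q) (fun m _ => hG.slot m)
  have h2 := ev_lconv_le F.wf G c.P c.Q F.t0 hq
  have h3 : (0 : ℝ) ≤ (nrmP c.P : ℝ) := by
    exact_mod_cast nq_nonneg _ _ _
  have h4 : K2 * (nrmP c.P : ℝ) ≤ 2.92127 * (nrmP c.P : ℝ) := mul_le_mul_of_nonneg_right hG.hK h3
  unfold corner
  simp only
  generalize walk F.sf T F.t0 (lconv c.P c.Q) = a at h1 ⊢
  have key : ∀ (e : GI) (s : ℂ) (r : ℝ), ‖s‖ ≤ r → -(e.toC * s).re ≤ (gabs e : ℝ) * r := by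
    intro e s r hr
    have h5 : -(e.toC * s).re ≤ ‖e.toC‖ * ‖s‖ := by
      rw [← norm_mul, neg_le]
      exact (abs_le.1 (Complex.abs_re_le_norm _)).1
    exact h5.trans (mul_le_mul (le_gabs e) hr (norm_nonneg _) (by positivity))
  have hv := key ⟨a.v.r - 10 ^ 8 * F.l1R, a.v.i⟩ v 1 hG.hv
  have hu := key ⟨a.u.r - 10 ^ 8 * F.l2L, a.u.i⟩ u _ (hG.hu.trans (le_bp hG.t0 ht F.eu))
  have hy := key ⟨a.y.r + 10 ^ 6 * F.l1L * X1, a.y.i + 10 ^ 6 * F.l1L * X2⟩ y 1 hG.hy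
  have hz := key ⟨a.z.r + 10 ^ 6 * F.l2R * X1, a.z.i + 10 ^ 6 * F.l2R * X2⟩ z 1 hG.hz
  have hn : nq (fun _ => 1) 0 c.P = nrmP c.P := rfl
  rw [hn]
  generalize gabs ⟨a.v.r - 10 ^ 8 * F.l1R, a.v.i⟩ = g1 at hv ⊢
  generalize gabs ⟨a.u.r - 10 ^ 8 * F.l2L, a.u.i⟩ = g2 at hu ⊢
  generalize gabs ⟨a.y.r + 10 ^ 6 * F.l1L * X1, a.y.i + 10 ^ 6 * F.l1L * X2⟩ = g3 at hy ⊢
  generalize gabs ⟨a.z.r + 10 ^ 6 * F.l2R * X1, a.z.i + 10 ^ 6 * F.l2R * X2⟩ = g4 at hz ⊢
  unfold lin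
  simp only [GI.toC, Complex.mul_re, Complex.sub_re, Complex.sub_im] at h1 hv hu hy hz ⊢
  push_cast at h1 hv hu hy hz ⊢
  linarith

end MaxTerm.Inc
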