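import Pool.Agent.MaxTerm.Inc.Defs

/-! # Telescoping: a uniform lower bound of `Pot` excludes strictly increasing gaps -/

open scoped ComplexConjugate

namespace MaxTerm.Inc

/-- **T1.** the left data of the window `j+1` of a chain: `t = 1/|τ_j|`. -/
theorem chain_isLeft {K : ℝ} (C : Chain K) (j : ℕ) :
    IsLeft K (C.k j) (C.k (j + 1)) (C.c (j + 1)) (‖C.τ j‖⁻¹) := by
  have h1 := C.one_lt j
  have h0 : 0 < ‖C.τ j‖ := lt_trans one_pos h1
  refine ⟨C.win (j + 1), inv_pos.2 h0, inv_le_one_of_one_le₀ h1.le, ?_, ?_⟩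
  · rw [C.step j, neg_add_cancel, (C.win j).c_zero, one_mul, norm_zpow, zpow_neg, zpow_natCast,
      inv_pow]
  · intro n
    rw [C.step j, norm_mul, norm_zpow, zpow_neg, zpow_natCast, inv_pow]
    exact mul_le_of_le_one_left (by positivity) ((C.win j).norm_le _)

/-- potential of the link `(k_j, k_{j+1})`. -/
noncomputable def Phi {K : ℝ} (C : Chain K) (j : ℕ) : ℝ :=
  lam2 (C.k j) (C.k (j + 1)) *
      (C.c j ((C.k j : ℤ) - C.k (j + 1)) * C.c j ((C.k j : ℤ) + C.k (j + 1))).re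
    - lam1 (C.k j) (C.k (j + 1)) * (C.c j (2 * (C.k j : ℤ))).re

/-- **T2.** `c' (k) c'(-k) = c(2k)` and `c'(-b) = c(k-b) c(k+b)`. -/
theorem pot_eq {K : ℝ} (C : Chain K) (j : ℕ) :
    Pot (C.k j) (C.k (j + 1)) (C.k (j + 2)) (C.c (j + 1)) = Phi C (j + 1) - Phi C j := by
  have h0 : C.τ j ≠ 0 := by
    intro h
    have := C.one_lt j
    rw [h, norm_zero] at this
    linarith
  have e1 : C.c (j + 1) (-(C.k j : ℤ)) * C.c (j + 1) (C.k j : ℤ) = C.c j (2 * (C.k j : ℤ)) := by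
    rw [C.step j, C.step j, neg_add_cancel, (C.win j).c_zero, one_mul, ← two_mul]
    rw [mul_comm, mul_assoc, ← zpow_add₀ h0, add_neg_cancel, zpow_zero, mul_one]
  have e2 : C.c (j + 1) (-(C.k (j + 1) : ℤ)) =
      C.c j ((C.k j : ℤ) - C.k (j + 1)) * C.c j ((C.k j : ℤ) + C.k (j + 1)) := by
    have e3 := (C.win (j + 1)).c_edge
    rw [C.step j] at e3
    rw [C.step j]
    have e4 : C.c j ((C.k j : ℤ) + C.k (j + 1)) = C.τ j ^ (-(C.k (j + 1) : ℤ)) := by
      rw [zpow_neg, ← mul_eq_one_iff_eq_inv₀ (zpow_ne_zero _ h0), add_comm]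
      exact e3
    rw [e4]
    congr 2
    ring
  unfold Pot Phi
  rw [e1, e2]
  ring

theorem lam1_nonneg (k b : ℕ) : 0 ≤ lam1 k b := by unfold lam1; split_ifs <;> norm_num
theorem lam1_le (k b : ℕ) : lam1 k b ≤ 1 := by unfold lam1; split_ifs <;> norm_num
theorem lam2_nonneg (k b : ℕ) : 0 ≤ lam2 k b := by unfold lam2; split_ifs <;> norm_num
theorem lam2_le (k b : ℕ) : lam2 k b ≤ 1.2 := by unfold lam2; split_ifs <;> norm_num

/-- **T3.** -/
theorem abs_phi_le {K : ℝ} (C : Chain K) (j : ℕ) : |Phi C j| ≤ 3 := by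
  unfold Phi
  have h1 : |(C.c j ((C.k j : ℤ) - C.k (j + 1)) * C.c j ((C.k j : ℤ) + C.k (j + 1))).re| ≤ 1 := by
    refine (Complex.abs_re_le_norm _).trans ?_
    rw [norm_mul]
    exact mul_le_one₀ ((C.win j).norm_le _) (norm_nonneg _) ((C.win j).norm_le _)
  have h2 : |(C.c j (2 * (C.k j : ℤ))).re| ≤ 1 :=
    (Complex.abs_re_le_norm _).trans ((C.win j).norm_le _)
  have a1 := lam1_nonneg (C.k j) (C.k (j + 1))
  have a2 := lam1_le (C.k j) (C.k (j + 1))
  have a3 := lam2_nonneg (C.k j) (C.k (j + 1))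
  have a4 := lam2_le (C.k j) (C.k (j + 1))
  refine (abs_sub _ _).trans ?_
  rw [abs_mul, abs_mul, abs_of_nonneg a1, abs_of_nonneg a3]
  have b1 := mul_le_mul a4 h1 (abs_nonneg _) (by norm_num)
  have b2 := mul_le_mul a2 h2 (abs_nonneg _) (by norm_num)
  linarith

/-- **T4.** -/
theorem no_increasing_of (hw : ∀ (K : ℝ) (a k b : ℕ) (c : ℤ → ℂ) (t : ℝ), 0 < a → a < k → k < b →
      K ^ 2 ≤ 2.92127 → IsLeft K a k c t → 1 / 1000 ≤ Pot a k b c)
    {K : ℝ} (C : Chain K) (hK : K ^ 2 ≤ 2.92127) : ¬ ∃ J, ∀ j ≥ J, C.k j < C.k (j + 1) := by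
  rintro ⟨J, hJ⟩
  have step : ∀ j ≥ J, Phi C j + 1 / 1000 ≤ Phi C (j + 1) := by
    intro j hj
    have h := hw K (C.k j) (C.k (j + 1)) (C.k (j + 2)) (C.c (j + 1)) _ (C.k_pos j) (hJ j hj)
      (hJ (j + 1) (by omega)) hK (chain_isLeft C j)
    rw [pot_eq] at h
    linarith
  have all : ∀ n : ℕ, Phi C J + n / 1000 ≤ Phi C (J + n) := by
    intro n
    induction n with
    | zero => simp
    | succ n ih =>
      have := step (J + n) (by omega)
      push_cast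
      rw [← add_assoc]
      linarith
  have h := all 7000
  have h1 := (abs_le.1 (abs_phi_le C J)).1
  have h2 := (abs_le.1 (abs_phi_le C (J + 7000))).2
  norm_num at h
  linarith

end MaxTerm.Inc
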